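import Pool.Agent.SplLs.Act

set_option autoImplicit false

/-!
# Items and idle runs
-/

namespace Pool.Agent.SplLs

open Pool.Agent.SplLog Pool.Agent.SplPat

variable {m : ℕ} {X : ℕ → ℕ} {a b i j s t : ℕ}

/-- **Module IT1.**  HINT.  `i` idle block of scale `b` in an active block of scale `a`: let `j` be the largest scale `< a` (`≥ b`) such
that `i / 2^(j-b) ∉ act j t` (`act_up`: activity is inherited by larger scales); then `p = (j, i / 2^(j-b))`.  Unique: if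
`p, p'` are two items containing `i`, `p.1 < p'.1`, then `p.2 / 2 ∈ act (p.1+1)` gives `p'.2 = i / 2^(p'.1-b) ∈ act p'.1`. -/
theorem item_unique (hab : b ≤ a) (hi : i ∈ blk m X a b t) (hi' : i ∉ act m X b t) :
    ∃ p ∈ items m X a b t, i / 2 ^ (p.1 - b) = p.2 ∧
      ∀ p' ∈ items m X a b t, i / 2 ^ (p'.1 - b) = p'.2 → p' = p := by
  classical
  have hex : ∃ k, i / 2 ^ k ∈ act m X (b + k) t := by
    refine ⟨a - b, ?_⟩
    rw [Nat.add_sub_cancel' hab]
    exact mem_blk.1 hi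
  obtain ⟨k, hk, hmin⟩ : ∃ k, i / 2 ^ k ∈ act m X (b + k) t ∧
      ∀ k', i / 2 ^ k' ∈ act m X (b + k') t → k ≤ k' :=
    ⟨Nat.find hex, Nat.find_spec hex, fun k' h => Nat.find_min' hex h⟩
  have hka : k ≤ a - b := by
    apply hmin
    rw [Nat.add_sub_cancel' hab]
    exact mem_blk.1 hi
  have hk0 : k ≠ 0 := by
    rintro rfl
    apply hi'
    simpa using hk
  obtain ⟨n, rfl⟩ := Nat.exists_eq_succ_of_ne_zero hk0
  have hdiv : i / 2 ^ n / 2 = i / 2 ^ (n + 1) := by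
    rw [pow_succ, Nat.div_div_eq_div_mul]
  refine ⟨(b + n, i / 2 ^ n), mem_items.2 ⟨by simp, by simp only; omega, ?_, ?_⟩, ?_, ?_⟩
  · simp only
    rw [hdiv]
    exact hk
  · intro h
    have := hmin n h
    omega
  · simp only
    rw [Nat.add_sub_cancel_left]
  · rintro ⟨j', i'⟩ hp' he
    obtain ⟨h1, h2, h3, h4⟩ := mem_items.1 hp'
    simp only at h1 h2 h3 h4 he
    obtain ⟨n', rfl⟩ := Nat.exists_eq_add_of_le h1
    rw [Nat.add_sub_cancel_left] at he
    subst he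
    have e1 : n + 1 ≤ n' + 1 := by
      apply hmin
      rw [pow_succ, ← Nat.div_div_eq_div_mul]
      exact h3
    have e2 : n' < n + 1 := by
      by_contra hcon
      apply h4
      have h5 := act_up (n' - (n + 1)) hk
      have e3 : b + (n + 1) + (n' - (n + 1)) = b + n' := by omega
      have e4 : n' = n + 1 + (n' - (n + 1)) := by omega
      rw [Nat.succ_eq_add_one, e3] at h5
      rw [Nat.div_div_eq_div_mul, ← pow_add, ← e4] at h5
      exact h5
    have e5 : n' = n := by omega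
    subst e5
    rfl

/-- **Module IT1.**  HINT.  The blocks of an item are idle and lie in an active block of scale `a`. -/
theorem item_sub {p : ℕ × ℕ} (hp : p ∈ items m X a b t) (hi : i / 2 ^ (p.1 - b) = p.2) :
    i ∈ blk m X a b t ∧ i ∉ act m X b t := by
  obtain ⟨h1, h2, h3, h4⟩ := mem_items.1 hp
  constructor
  · rw [mem_blk]
    have h5 := act_up (a - (p.1 + 1)) h3
    have e1 : p.1 + 1 + (a - (p.1 + 1)) = a := by omega
    have e2 : p.2 / 2 / 2 ^ (a - (p.1 + 1)) = i / 2 ^ (a - b) := by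
      rw [← hi, Nat.div_div_eq_div_mul, Nat.div_div_eq_div_mul, ← pow_succ', ← pow_add]
      congr 2
      omega
    rwa [e1, e2] at h5
  · intro h
    apply h4
    have h5 := act_up (p.1 - b) h
    rwa [Nat.add_sub_cancel' h1, hi] at h5

private theorem IT2_mem {c d k : ℕ} (hd : 0 < d) : k ∈ Finset.Ico (c * d) ((c + 1) * d) ↔ k / d = c := by
  rw [Finset.mem_Ico]
  constructor
  · rintro ⟨h1, h2⟩
    exact Nat.div_eq_of_lt_le h1 h2
  · rintro rfl
    exact ⟨Nat.div_mul_le_self _ _, (Nat.div_lt_iff_lt_mul hd).1 (Nat.lt_succ_self _)⟩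

/-- **Module IT2.**  HINT.  `item_unique`, `item_sub`; `i ∈ Ico (p.2 * 2^(p.1-b)) ((p.2+1) * 2^(p.1-b)) ↔ i / 2^(p.1-b) = p.2`
(`Nat.div_eq_iff` or similar).  `Finset.sum_biUnion` or `Finset.sum_sigma`. -/
theorem sum_items (hab : b ≤ a) (f : ℕ → ℕ) :
    ∑ i ∈ blk m X a b t \ act m X b t, f i =
      ∑ p ∈ items m X a b t, ∑ i ∈ Finset.Ico (p.2 * 2 ^ (p.1 - b)) ((p.2 + 1) * 2 ^ (p.1 - b)), f i := by
  classical
  have hpos : ∀ p : ℕ × ℕ, 0 < 2 ^ (p.1 - b) := fun p => by positivity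
  have hdis : ∀ p ∈ items m X a b t, ∀ q ∈ items m X a b t, p ≠ q →
      Disjoint (Finset.Ico (p.2 * 2 ^ (p.1 - b)) ((p.2 + 1) * 2 ^ (p.1 - b)))
        (Finset.Ico (q.2 * 2 ^ (q.1 - b)) ((q.2 + 1) * 2 ^ (q.1 - b))) := by
    intro p hp q hq hne
    rw [Finset.disjoint_left]
    intro i h1 h2
    rw [IT2_mem (hpos _)] at h1 h2
    obtain ⟨h3, h4⟩ := item_sub hp h1
    obtain ⟨r, _, _, hr⟩ := item_unique hab h3 h4
    exact hne ((hr p hp h1).trans (hr q hq h2).symm)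
  rw [← Finset.sum_biUnion hdis]
  refine Finset.sum_congr ?_ fun _ _ => rfl
  ext i
  rw [Finset.mem_sdiff, Finset.mem_biUnion]
  constructor
  · rintro ⟨h1, h2⟩
    obtain ⟨p, hp, hpi, _⟩ := item_unique hab h1 h2
    exact ⟨p, hp, (IT2_mem (hpos _)).2 hpi⟩
  · rintro ⟨p, hp, h⟩
    exact item_sub hp ((IT2_mem (hpos _)).1 h)

private theorem RU1_mem {q : ℕ × ℕ} : q ∈ runs m X a b t ↔
    q.1 ∈ blk m X a b t ∧ q.2 ∈ blk m X a b t ∧ q.1 ≤ q.2 ∧
      q.1 / 2 ^ (a - b) = q.2 / 2 ^ (a - b) ∧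
      (∀ i, q.1 ≤ i → i ≤ q.2 → i ∉ act m X b t) ∧
      (2 ^ (a - b) ∣ q.1 ∨ q.1 - 1 ∈ act m X b t) ∧
      (2 ^ (a - b) ∣ q.2 + 1 ∨ q.2 + 1 ∈ act m X b t) := by
  unfold runs
  rw [Finset.mem_filter, Finset.mem_product]
  constructor
  · rintro ⟨⟨h1, h2⟩, h3, h4, h5, h6, h7⟩
    exact ⟨h1, h2, h3, h4, fun i hi hi' => h5 i (Finset.mem_Icc.2 ⟨hi, hi'⟩), h6, h7⟩
  · rintro ⟨h1, h2, h3, h4, h5, h6, h7⟩
    exact ⟨⟨h1, h2⟩, h3, h4, fun i hi => h5 i (Finset.mem_Icc.1 hi).1 (Finset.mem_Icc.1 hi).2,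
      h6, h7⟩

private theorem RU1_ndvd {N l r k : ℕ} (hN : 0 < N) (h1 : l < k) (h2 : k ≤ r)
    (h3 : l / N = r / N) : ¬ N ∣ k := by
  rintro ⟨c, rfl⟩
  have h4 : N * c / N ≤ r / N := Nat.div_le_div_right h2
  rw [Nat.mul_div_cancel_left c hN] at h4
  have h5 : l / N < c := (Nat.div_lt_iff_lt_mul hN).2 (by rw [Nat.mul_comm]; exact h1)
  omega

private theorem RU1_step {N k : ℕ} (h : ¬ N ∣ k + 1) : (k + 1) / N = k / N := by
  rw [Nat.succ_div, if_neg h, Nat.add_zero]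

private theorem RU1_right {N : ℕ} {s : Finset ℕ} (hN : 0 < N) (hi : i ∉ s) :
    ∃ r, i ≤ r ∧ r / N = i / N ∧ (∀ k, i ≤ k → k ≤ r → k ∉ s) ∧ (N ∣ r + 1 ∨ r + 1 ∈ s) := by
  classical
  have hex : ∃ d, N ∣ i + d + 1 ∨ i + d + 1 ∈ s := by
    refine ⟨(i / N + 1) * N - 1 - i, Or.inl ?_⟩
    have h1 : i < (i / N + 1) * N := by
      have := Nat.lt_mul_div_succ i hN
      rwa [Nat.mul_comm] at this
    have h2 : i + ((i / N + 1) * N - 1 - i) + 1 = (i / N + 1) * N := by omega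
    rw [h2]
    exact Dvd.intro_left _ rfl
  obtain ⟨d, hd, hmin⟩ : ∃ d, (N ∣ i + d + 1 ∨ i + d + 1 ∈ s) ∧
      ∀ e < d, ¬ (N ∣ i + e + 1 ∨ i + e + 1 ∈ s) :=
    ⟨Nat.find hex, Nat.find_spec hex, fun e he => Nat.find_min hex he⟩
  have hdiv : ∀ e, e ≤ d → (i + e) / N = i / N := by
    intro e
    induction e with
    | zero => intro _; rfl
    | succ e ih =>
      intro he
      have h1 := hmin e (by omega)
      push Not at h1
      rw [← Nat.add_assoc, RU1_step h1.1]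
      exact ih (by omega)
  refine ⟨i + d, by omega, hdiv d le_rfl, ?_, hd⟩
  intro k h1 h2
  rcases Nat.eq_or_lt_of_le h1 with h3 | h3
  · rwa [← h3]
  · have h4 := hmin (k - i - 1) (by omega)
    push Not at h4
    have h5 : i + (k - i - 1) + 1 = k := by omega
    rw [h5] at h4
    exact h4.2

private theorem RU1_left {N : ℕ} {s : Finset ℕ} (hi : i ∉ s) :
    ∃ l, l ≤ i ∧ l / N = i / N ∧ (∀ k, l ≤ k → k ≤ i → k ∉ s) ∧ (N ∣ l ∨ l - 1 ∈ s) := by
  classical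
  have hex : ∃ d, N ∣ i - d ∨ i - d - 1 ∈ s := ⟨i, Or.inl (by simp)⟩
  obtain ⟨d, hd, hmin⟩ : ∃ d, (N ∣ i - d ∨ i - d - 1 ∈ s) ∧
      ∀ e < d, ¬ (N ∣ i - e ∨ i - e - 1 ∈ s) :=
    ⟨Nat.find hex, Nat.find_spec hex, fun e he => Nat.find_min hex he⟩
  have hdi : d ≤ i := by
    by_contra h
    push Not at h
    exact hmin i h (Or.inl (by simp))
  have hdiv : ∀ e, e ≤ d → (i - e) / N = i / N := by
    intro e
    induction e with
    | zero => intro _; rfl
    | succ e ih =>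
      intro he
      have h1 := hmin e (by omega)
      push Not at h1
      have h2 : i - e = (i - (e + 1)) + 1 := by omega
      have h3 := ih (by omega)
      rw [h2] at h1 h3
      rw [RU1_step h1.1] at h3
      exact h3
  refine ⟨i - d, by omega, hdiv d le_rfl, ?_, hd⟩
  intro k h1 h2
  rcases Nat.eq_or_lt_of_le h2 with h3 | h3
  · rwa [h3]
  · have h4 := hmin (i - k - 1) (by omega)
    push Not at h4
    have h5 : i - (i - k - 1) - 1 = k := by omega
    rw [h5] at h4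
    exact h4.2

/-- **Module RU1.**  HINT.  Every idle block `i` of an active block of scale `a` lies in a run: the maximal interval of idle blocks
around `i` in its block of scale `a` (e.g. `Nat.find` to the right and to the left).  Unique: two runs which share a block
are equal (if `q.1 < q'.1 ≤ q.2` then `q'.1 - 1` is idle and in the same block of scale `a`, so `2^(a-b) ∤ q'.1`, contradiction). -/
theorem run_unique (hi : i ∈ blk m X a b t) (hi' : i ∉ act m X b t) :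
    ∃ q ∈ runs m X a b t, (q.1 ≤ i ∧ i ≤ q.2) ∧
      ∀ q' ∈ runs m X a b t, q'.1 ≤ i → i ≤ q'.2 → q' = q := by
  have hN : 0 < 2 ^ (a - b) := by positivity
  have hmem : ∀ {q : ℕ × ℕ}, _ := fun {q} => RU1_mem (m := m) (X := X) (a := a) (b := b) (t := t) (q := q)
  obtain ⟨l, hl1, hl2, hl3, hl4⟩ := RU1_left (N := 2 ^ (a - b)) (s := act m X b t) hi'
  obtain ⟨r, hr1, hr2, hr3, hr4⟩ := RU1_right (s := act m X b t) hN hi'
  have hq : (l, r) ∈ runs m X a b t := by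
    refine hmem.2 ⟨?_, ?_, by show l ≤ r; omega, by show l / _ = r / _; omega, ?_, hl4, hr4⟩
    · show l ∈ blk m X a b t
      rw [mem_blk] at hi ⊢
      rwa [hl2]
    · show r ∈ blk m X a b t
      rw [mem_blk] at hi ⊢
      rwa [hr2]
    · intro k h1 h2
      rcases Nat.lt_or_ge k i with h3 | h3
      · exact hl3 k h1 h3.le
      · exact hr3 k h3 h2
  refine ⟨(l, r), hq, ⟨hl1, hr1⟩, ?_⟩
  intro q' hq' h1 h2
  obtain ⟨_, _, c3, c4, c5, c6, c7⟩ := hmem.1 hq'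
  obtain ⟨_, _, d3, d4, d5, d6, d7⟩ := hmem.1 hq
  simp only at d3 d4 d5 d6 d7
  have e1 : q'.1 = l := by
    apply le_antisymm
    · by_contra h
      push Not at h
      rcases c6 with h3 | h3
      · exact RU1_ndvd hN h (by omega : q'.1 ≤ r) d4 h3
      · exact d5 _ (by omega) (by omega) h3
    · by_contra h
      push Not at h
      rcases d6 with h3 | h3
      · exact RU1_ndvd hN h (by omega : l ≤ q'.2) c4 h3
      · exact c5 _ (by omega) (by omega) h3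
  have e2 : q'.2 = r := by
    apply le_antisymm
    · by_contra h
      push Not at h
      rcases d7 with h3 | h3
      · exact RU1_ndvd hN (by omega : q'.1 < r + 1) (by omega : r + 1 ≤ q'.2) c4 h3
      · exact c5 _ (by omega) (by omega) h3
    · by_contra h
      push Not at h
      rcases c7 with h3 | h3
      · exact RU1_ndvd hN (by omega : l < q'.2 + 1) (by omega : q'.2 + 1 ≤ r) d4 h3
      · exact d5 _ (by omega) (by omega) h3
  exact Prod.ext e1 e2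

/-- **Module RU2.**  HINT.  A run is determined by its first block `q.1` (`run_unique` for `i = q.1`), and `q.1 - 1 ∈ act b` (with
`q.1 ≥ 1`) or `q.1 = A * 2^(a-b)` with `A ∈ act a`.  (If `2^(a-b) ∣ q.1` use the second.) -/
theorem runs_card : (runs m X a b t).card ≤ (act m X a t).card + (act m X b t).card := by
  classical
  have hN : 0 < 2 ^ (a - b) := by positivity
  have hinj : ∀ q ∈ runs m X a b t, ∀ q' ∈ runs m X a b t, q.1 = q'.1 → q = q' := by
    intro q hq q' hq' he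
    obtain ⟨c1, _, c3, _, c5, _⟩ := RU1_mem.1 hq
    obtain ⟨_, _, d3, _⟩ := RU1_mem.1 hq'
    obtain ⟨r, _, _, hr⟩ := run_unique c1 (c5 q.1 le_rfl c3)
    exact (hr q hq le_rfl c3).trans (hr q' hq' he.ge (he ▸ d3)).symm
  rw [← Finset.card_filter_add_card_filter_not (s := runs m X a b t)
    (fun q => 2 ^ (a - b) ∣ q.1)]
  refine Nat.add_le_add ?_ ?_
  · refine Finset.card_le_card_of_injOn (fun q => q.1 / 2 ^ (a - b)) ?_ ?_
    · intro q hq
      have hq := (Finset.mem_filter.1 hq).1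
      exact mem_blk.1 (RU1_mem.1 hq).1
    · intro q hq q' hq' he
      obtain ⟨hq, h1⟩ := Finset.mem_filter.1 hq
      obtain ⟨hq', h2⟩ := Finset.mem_filter.1 hq'
      refine hinj q hq q' hq' ?_
      rw [← Nat.div_mul_cancel h1, ← Nat.div_mul_cancel h2]
      exact congrArg (· * 2 ^ (a - b)) he
  · refine Finset.card_le_card_of_injOn (fun q => q.1 - 1) ?_ ?_
    · intro q hq
      obtain ⟨hq, h1⟩ := Finset.mem_filter.1 hq
      rcases (RU1_mem.1 hq).2.2.2.2.2.1 with h2 | h2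
      · exact absurd h2 h1
      · exact h2
    · intro q hq q' hq' he
      obtain ⟨hq, h1⟩ := Finset.mem_filter.1 hq
      obtain ⟨hq', h2⟩ := Finset.mem_filter.1 hq'
      have h3 : q.1 ≠ 0 := fun h => h1 (h ▸ dvd_zero _)
      have h4 : q'.1 ≠ 0 := fun h => h2 (h ▸ dvd_zero _)
      have he' : q.1 - 1 = q'.1 - 1 := he
      exact hinj q hq q' hq' (by omega)

/-- **Module IT3.**  HINT.  An item which meets a run lies in it: its blocks are idle (`item_sub`), in one block of scale `a` (`p.1 < a`), so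
by `run_unique` (applied to neighbouring blocks, or: the run is the maximal idle interval) all its blocks lie in the run.
Precisely: if `i` and `i + 1` are idle in the same active block of scale `a` then they lie in the same run. -/
theorem item_run (hba : b ≤ a) {p q : ℕ × ℕ} (hp : p ∈ items m X a b t) (hq : q ∈ runs m X a b t)
    (hi : i / 2 ^ (p.1 - b) = p.2) (h1 : q.1 ≤ i) (h2 : i ≤ q.2) :
    q.1 ≤ p.2 * 2 ^ (p.1 - b) ∧ (p.2 + 1) * 2 ^ (p.1 - b) ≤ q.2 + 1 := by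
  obtain ⟨p1, p2⟩ := p
  obtain ⟨c1, c2, _, _⟩ := mem_items.1 hp
  obtain ⟨_, _, _, _, _, c6, c7⟩ := RU1_mem.1 hq
  simp only at c1 c2 hi ⊢
  have hD : 0 < 2 ^ (p1 - b) := by positivity
  have hDN : 2 ^ (p1 - b) ∣ 2 ^ (a - b) := pow_dvd_pow 2 (by omega)
  have hlo : p2 * 2 ^ (p1 - b) ≤ i := by
    rw [← hi]
    exact Nat.div_mul_le_self _ _
  have hhi : i < (p2 + 1) * 2 ^ (p1 - b) := by
    rw [← hi]
    exact (Nat.div_lt_iff_lt_mul hD).1 (Nat.lt_succ_self _)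
  have key : ∀ k, p2 * 2 ^ (p1 - b) ≤ k → k < (p2 + 1) * 2 ^ (p1 - b) → k ∉ act m X b t := by
    intro k h3 h4
    exact (item_sub hp (Nat.div_eq_of_lt_le h3 h4)).2
  have key2 : ∀ k, p2 * 2 ^ (p1 - b) < k → k < (p2 + 1) * 2 ^ (p1 - b) →
      ¬ 2 ^ (a - b) ∣ k := by
    intro k h3 h4 h5
    have h6 := dvd_trans hDN h5
    have h7 : k / 2 ^ (p1 - b) = p2 := Nat.div_eq_of_lt_le h3.le h4
    have h8 := Nat.div_mul_cancel h6
    rw [h7] at h8
    omega
  constructor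
  · by_contra h
    push Not at h
    rcases c6 with h3 | h3
    · exact key2 q.1 h (by omega) h3
    · exact key _ (by omega) (by omega) h3
  · by_contra h
    push Not at h
    rcases c7 with h3 | h3
    · exact key2 (q.2 + 1) (by omega) h h3
    · exact key _ (by omega) h h3

/-- **Module IT4.**  HINT.  `item_run`, `item_unique`, `run_unique`; `p.2 * 2^p.1 = (p.2 * 2^(p.1-b)) * 2^b`; a key `v` with
`q.1 * 2^b ≤ v < (q.2+1) * 2^b` has `q.1 ≤ v / 2^b ≤ q.2`. -/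
theorem cut_run (hba : b ≤ a) {q : ℕ × ℕ} (hq : q ∈ runs m X a b t) :
    Cut (q.1 * 2 ^ b) ((q.2 + 1) * 2 ^ b) (pcs m X a b t q) (fun p => p.2 * 2 ^ p.1)
      (fun p => (p.2 + 1) * 2 ^ p.1) := by
  have hb : 0 < 2 ^ b := by positivity
  have hpow : ∀ p ∈ items m X a b t, 2 ^ p.1 = 2 ^ (p.1 - b) * 2 ^ b := by
    intro p hp
    rw [← pow_add, Nat.sub_add_cancel (mem_items.1 hp).1]
  have hdiv : ∀ p ∈ items m X a b t, ∀ v, v / 2 ^ b / 2 ^ (p.1 - b) = v / 2 ^ p.1 := by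
    intro p hp v
    rw [Nat.div_div_eq_div_mul, ← pow_add, Nat.add_sub_cancel' (mem_items.1 hp).1]
  obtain ⟨_, _, _, c4, c5, _, _⟩ := RU1_mem.1 hq
  have hin : ∀ i, q.1 ≤ i → i ≤ q.2 → i ∈ blk m X a b t ∧ i ∉ act m X b t := by
    intro i h1 h2
    refine ⟨?_, c5 i h1 h2⟩
    have h3 := (RU1_mem.1 hq).1
    rw [mem_blk] at h3 ⊢
    have h4 : q.1 / 2 ^ (a - b) ≤ i / 2 ^ (a - b) := Nat.div_le_div_right h1
    have h5 : i / 2 ^ (a - b) ≤ q.2 / 2 ^ (a - b) := Nat.div_le_div_right h2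
    have h6 : i / 2 ^ (a - b) = q.1 / 2 ^ (a - b) := by omega
    rwa [h6]
  constructor
  · intro p _
    exact Nat.mul_lt_mul_of_pos_right (Nat.lt_succ_self _) (by positivity)
  · intro p hp
    obtain ⟨hp1, hp2, _⟩ := Finset.mem_filter.1 hp
    show q.1 * 2 ^ b ≤ p.2 * 2 ^ p.1
    rw [hpow p hp1, ← mul_assoc]
    exact Nat.mul_le_mul_right _ hp2
  · intro p hp
    obtain ⟨hp1, hp2, hp3⟩ := Finset.mem_filter.1 hp
    have h1 := (item_run hba hp1 hq (i := p.2 * 2 ^ (p.1 - b))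
      (Nat.mul_div_cancel _ (by positivity)) hp2 hp3).2
    show (p.2 + 1) * 2 ^ p.1 ≤ (q.2 + 1) * 2 ^ b
    rw [hpow p hp1, ← mul_assoc]
    exact Nat.mul_le_mul_right _ h1
  · intro v h1 h2
    have h3 : q.1 ≤ v / 2 ^ b := (Nat.le_div_iff_mul_le hb).2 h1
    have h4 : v / 2 ^ b < q.2 + 1 := (Nat.div_lt_iff_lt_mul hb).2 h2
    obtain ⟨h5, h6⟩ := hin _ h3 (by omega)
    obtain ⟨p, hp, hpi, _⟩ := item_unique hba h5 h6
    obtain ⟨h7, _⟩ := item_run hba hp hq hpi h3 (by omega)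
    have h8 : p.2 * 2 ^ (p.1 - b) ≤ v / 2 ^ b := by
      rw [← hpi]
      exact Nat.div_mul_le_self _ _
    refine ⟨p, Finset.mem_filter.2 ⟨hp, h7, by omega⟩, ?_⟩
    rw [hdiv p hp] at hpi
    show p.2 * 2 ^ p.1 ≤ v ∧ v < (p.2 + 1) * 2 ^ p.1
    rw [← hpi]
    exact ⟨Nat.div_mul_le_self _ _,
      (Nat.div_lt_iff_lt_mul (by positivity)).1 (Nat.lt_succ_self _)⟩
  · intro p hp p' hp' hne
    have hp1 := (Finset.mem_filter.1 hp).1
    have hp1' := (Finset.mem_filter.1 hp').1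
    by_contra hcon
    push Not at hcon
    obtain ⟨h1, h2⟩ := hcon
    have h0 : p.2 * 2 ^ p.1 < (p.2 + 1) * 2 ^ p.1 :=
      Nat.mul_lt_mul_of_pos_right (Nat.lt_succ_self _) (by positivity)
    have h0' : p'.2 * 2 ^ p'.1 < (p'.2 + 1) * 2 ^ p'.1 :=
      Nat.mul_lt_mul_of_pos_right (Nat.lt_succ_self _) (by positivity)
    obtain ⟨x, hx1, hx2, hx3, hx4⟩ : ∃ x, p.2 * 2 ^ p.1 ≤ x ∧ x < (p.2 + 1) * 2 ^ p.1 ∧
        p'.2 * 2 ^ p'.1 ≤ x ∧ x < (p'.2 + 1) * 2 ^ p'.1 := by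
      rcases le_total (p.2 * 2 ^ p.1) (p'.2 * 2 ^ p'.1) with h | h
      · exact ⟨_, h, h1, le_rfl, h0'⟩
      · exact ⟨_, le_rfl, h0, h, h2⟩
    have e1 : x / 2 ^ b / 2 ^ (p.1 - b) = p.2 := by
      rw [hdiv p hp1]
      exact Nat.div_eq_of_lt_le hx1 hx2
    have e2 : x / 2 ^ b / 2 ^ (p'.1 - b) = p'.2 := by
      rw [hdiv p' hp1']
      exact Nat.div_eq_of_lt_le hx3 hx4
    obtain ⟨h5, h6⟩ := item_sub hp1 e1
    obtain ⟨r, _, _, hr⟩ := item_unique hba h5 h6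
    exact hne ((hr p hp1 e1).trans (hr p' hp1' e2).symm)

/-- **Module IT4.** -/
theorem cut_item {p : ℕ × ℕ} (hp : b ≤ p.1) :
    Cut (p.2 * 2 ^ p.1) ((p.2 + 1) * 2 ^ p.1)
      (Finset.Ico (p.2 * 2 ^ (p.1 - b)) ((p.2 + 1) * 2 ^ (p.1 - b)))
      (fun i => i * 2 ^ b) (fun i => (i + 1) * 2 ^ b) := by
  have hb : 0 < 2 ^ b := by positivity
  have hpow : 2 ^ p.1 = 2 ^ (p.1 - b) * 2 ^ b := by
    rw [← pow_add, Nat.sub_add_cancel hp]
  constructor
  · intro k _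
    exact Nat.mul_lt_mul_of_pos_right (Nat.lt_succ_self _) hb
  · intro k hk
    show p.2 * 2 ^ p.1 ≤ k * 2 ^ b
    rw [hpow, ← mul_assoc]
    exact Nat.mul_le_mul_right _ (Finset.mem_Ico.1 hk).1
  · intro k hk
    show (k + 1) * 2 ^ b ≤ (p.2 + 1) * 2 ^ p.1
    rw [hpow, ← mul_assoc]
    exact Nat.mul_le_mul_right _ (Finset.mem_Ico.1 hk).2
  · intro v h1 h2
    rw [hpow, ← mul_assoc] at h1 h2
    refine ⟨v / 2 ^ b, Finset.mem_Ico.2 ⟨(Nat.le_div_iff_mul_le hb).2 h1,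
      (Nat.div_lt_iff_lt_mul hb).2 h2⟩, Nat.div_mul_le_self _ _,
      (Nat.div_lt_iff_lt_mul hb).1 (Nat.lt_succ_self _)⟩
  · intro k _ k' _ hne
    rcases Nat.lt_or_gt_of_ne hne with h | h
    · exact Or.inl (Nat.mul_le_mul_right _ h)
    · exact Or.inr (Nat.mul_le_mul_right _ h)

/-- **Module IT5.**  HINT.  Every item lies in exactly one `pcs q`: `run_unique` for its first block `p.2 * 2^(p.1-b)` (`item_sub`). -/
theorem sum_pcs (hba : b ≤ a) (g : ℕ × ℕ → ℕ) :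
    ∑ p ∈ items m X a b t, g p = ∑ q ∈ runs m X a b t, ∑ p ∈ pcs m X a b t q, g p := by
  classical
  have hself : ∀ p : ℕ × ℕ, p.2 * 2 ^ (p.1 - b) / 2 ^ (p.1 - b) = p.2 :=
    fun p => Nat.mul_div_cancel _ (by positivity)
  have hdis : ∀ q ∈ runs m X a b t, ∀ q' ∈ runs m X a b t, q ≠ q' →
      Disjoint (pcs m X a b t q) (pcs m X a b t q') := by
    intro q hq q' hq' hne
    rw [Finset.disjoint_left]
    intro p h1 h2
    obtain ⟨hp, h3, h4⟩ := Finset.mem_filter.1 h1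
    obtain ⟨_, h5, h6⟩ := Finset.mem_filter.1 h2
    obtain ⟨h7, h8⟩ := item_sub hp (hself p)
    obtain ⟨r, _, _, hr⟩ := run_unique h7 h8
    exact hne ((hr q hq h3 h4).trans (hr q' hq' h5 h6).symm)
  rw [← Finset.sum_biUnion hdis]
  refine Finset.sum_congr ?_ fun _ _ => rfl
  ext p
  rw [Finset.mem_biUnion]
  constructor
  · intro hp
    obtain ⟨h7, h8⟩ := item_sub hp (hself p)
    obtain ⟨q, hq, ⟨h1, h2⟩, _⟩ := run_unique h7 h8
    exact ⟨q, hq, Finset.mem_filter.2 ⟨hp, h1, h2⟩⟩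
  · rintro ⟨q, _, h⟩
    exact (Finset.mem_filter.1 h).1

/-- **Module RU3.**  HINT.  A touched `v` of the level lies in the block `i = v / 2^b`, `i / 2^(a-b) = v / 2^a = X t / 2^a ∈ act a` (`act_own`), so
`i ∈ blk`; either `i ∈ act b`, `i ≠ X t / 2^b`, or `i` lies in a run (`run_unique`). -/
theorem lvl_le {S : Sys} (hba : b ≤ a) (ht : t < S.m) :
    (lvl S a b t).card ≤
      ∑ i ∈ (act S.m S.X b t).erase (S.X t / 2 ^ b), (tE S t (i * 2 ^ b) ((i + 1) * 2 ^ b)).card +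
      ∑ q ∈ runs S.m S.X a b t, (tE S t (q.1 * 2 ^ b) ((q.2 + 1) * 2 ^ b)).card := by
  classical
  have hb : 0 < 2 ^ b := by positivity
  have hsub : lvl S a b t ⊆
      ((act S.m S.X b t).erase (S.X t / 2 ^ b)).biUnion
        (fun i => tE S t (i * 2 ^ b) ((i + 1) * 2 ^ b)) ∪
      (runs S.m S.X a b t).biUnion
        (fun q => tE S t (q.1 * 2 ^ b) ((q.2 + 1) * 2 ^ b)) := by
    intro v hv
    unfold lvl at hv
    obtain ⟨h1, h2, h3, h4⟩ := Finset.mem_filter.1 hv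
    have e1 : v / 2 ^ b * 2 ^ b ≤ v := Nat.div_mul_le_self _ _
    have e2 : v < (v / 2 ^ b + 1) * 2 ^ b :=
      (Nat.div_lt_iff_lt_mul hb).1 (Nat.lt_succ_self _)
    rw [Finset.mem_union, Finset.mem_biUnion, Finset.mem_biUnion]
    by_cases h5 : v / 2 ^ b ∈ act S.m S.X b t
    · left
      refine ⟨v / 2 ^ b, Finset.mem_erase.2 ⟨h4, h5⟩, ?_⟩
      unfold tE
      exact Finset.mem_filter.2 ⟨h1, e1, e2, h2⟩
    · right
      have h6 : v / 2 ^ b ∈ blk S.m S.X a b t := by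
        rw [mem_blk, Nat.div_div_eq_div_mul, ← pow_add, Nat.add_sub_cancel' hba, h3]
        exact act_own ht
      obtain ⟨q, hq, ⟨h7, h8⟩, _⟩ := run_unique h6 h5
      refine ⟨q, hq, ?_⟩
      unfold tE
      refine Finset.mem_filter.2 ⟨h1, ?_, ?_, h2⟩
      · exact (Nat.mul_le_mul_right _ h7).trans e1
      · exact lt_of_lt_of_le e2 (Nat.mul_le_mul_right _ (Nat.succ_le_succ h8))
  refine (Finset.card_le_card hsub).trans ((Finset.card_union_le _ _).trans ?_)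
  exact Nat.add_le_add Finset.card_biUnion_le Finset.card_biUnion_le

end Pool.Agent.SplLs
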