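import Pool.Agent.SplLs.MirC

set_option autoImplicit false

/-!
# The potential of a block: size, and requests inside the block
-/

namespace Pool.Agent.SplLs

open Pool.Agent.SplLog
open scoped Classical

variable {S : Sys} {t l r : ℕ} {ι : Type*} {Λ : Finset ι} {lo hi : ι → ℕ}

/-- **Module SZ.**  HINT.  `cx ≤ 2 (8c+5) |Λ|`.  `(dL …).card ≤ |Λ|`: map `v` to its piece `k` (`Cut.cov`; `l ≤ v < rho v < r`); for two nodes
`v < v'` of the same piece `k`: `lam v' < l ≤ v < v'`, so `rho v ≤ v' < hi k` (`S.lamin`), and then `Same v (rho v)`, contradiction.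
`dR`: mirror (`dL_mir` for S.mir? simpler: repeat the argument with `lam`). -/
theorem cp_le (ht : t ≤ S.m) (hl : 1 ≤ l) (hr : r ≤ S.top) (hC : Cut l r Λ lo hi) (c : ℕ) :
    cp S t l r Λ lo hi c ≤ ((4 * c + 1) * (2 * (8 * c + 5)) + 2) * Λ.card := by
  have h0 := And.intro hl hr
  clear h0
  have h1 : (dL S t l r Λ lo hi).card ≤ Λ.card := by
    refine Finset.card_le_card_of_forall_subsingleton
      (fun v k => lo k ≤ v ∧ v < hi k) ?_ ?_
    · intro v hv
      simp only [dL, Finset.mem_filter] at hv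
      obtain ⟨hvK, h1, h2, h3, h4, h5⟩ := hv
      have := S.lt_rho t ht v hvK
      exact hC.cov v h1 (by omega)
    · intro k hk
      have key : ∀ v ∈ dL S t l r Λ lo hi, ∀ v' ∈ dL S t l r Λ lo hi,
          (lo k ≤ v ∧ v < hi k) → (lo k ≤ v' ∧ v' < hi k) → ¬ v < v' := by
        intro v hv v' hv' hk1 hk2 hlt
        simp only [dL, Finset.mem_filter] at hv hv'
        obtain ⟨hvK, a1, a2, a3, a4, a5⟩ := hv
        obtain ⟨hvK', b1, b2, b3, b4, b5⟩ := hv'
        have c1 := S.lt_rho t ht v hvK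
        rcases S.lamin t ht v hvK v' hvK' hlt with h | h | h
        · omega
        · exact a4 ⟨k, hk, hk1, by omega, by omega⟩
        · omega
      intro v hv v' hv'
      simp only [Set.mem_ofPred_eq] at hv hv'
      have k1 := key v hv.1 v' hv'.1 hv.2 hv'.2
      have k2 := key v' hv'.1 v hv.1 hv'.2 hv.2
      omega
  have h2 : (dR S t l r Λ lo hi).card ≤ Λ.card := by
    refine Finset.card_le_card_of_forall_subsingleton
      (fun v k => lo k ≤ v ∧ v < hi k) ?_ ?_
    · intro v hv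
      simp only [dR, Finset.mem_filter] at hv
      obtain ⟨hvK, h1, h2, h3, h4, h5⟩ := hv
      have := S.lam_lt t ht v hvK
      exact hC.cov v (by omega) h1
    · intro k hk
      have key : ∀ v ∈ dR S t l r Λ lo hi, ∀ v' ∈ dR S t l r Λ lo hi,
          (lo k ≤ v ∧ v < hi k) → (lo k ≤ v' ∧ v' < hi k) → ¬ v < v' := by
        intro v hv v' hv' hk1 hk2 hlt
        simp only [dR, Finset.mem_filter] at hv hv'
        obtain ⟨hvK, a1, a2, a3, a4, a5⟩ := hv
        obtain ⟨hvK', b1, b2, b3, b4, b5⟩ := hv'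
        have c1 := S.lam_lt t ht v' hvK'
        rcases S.lamin t ht v hvK v' hvK' hlt with h | h | h
        · exact b4 ⟨k, hk, hk2, by omega, by omega⟩
        · omega
        · omega
      intro v hv v' hv'
      simp only [Set.mem_ofPred_eq] at hv hv'
      have k1 := key v hv.1 v' hv'.1 hv.2 hv'.2
      have k2 := key v' hv'.1 v hv.1 hv'.2 hv.2
      omega
  have h3 : cx S t l r Λ lo hi (8 * c + 5) ≤ Λ.card * (2 * (8 * c + 5)) := by
    unfold cx
    refine Finset.sum_le_card_nsmul Λ _ (2 * (8 * c + 5)) ?_ |>.trans ?_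
    · intro k _
      have a1 := Nat.min_le_left (8 * c + 5) (exL S t l (lo k) (hi k)).card
      have a2 := Nat.min_le_left (8 * c + 5) (exR S t r (lo k) (hi k)).card
      omega
    · simp
  unfold cp
  calc (4 * c + 1) * cx S t l r Λ lo hi (8 * c + 5) + (dL S t l r Λ lo hi).card +
      (dR S t l r Λ lo hi).card
      ≤ (4 * c + 1) * (Λ.card * (2 * (8 * c + 5))) + Λ.card + Λ.card := by
        gcongr
    _ = ((4 * c + 1) * (2 * (8 * c + 5)) + 2) * Λ.card := by ring

/-- **Module PS.**  HINT.  Pieces are single keys: `(exL S t l v (v+1)).card ≤ 1`, so `cx ≤ 2 (r - l)`; `dL`, `dR ≤ r - l` (subsets of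
`Ico l r`). -/
theorem Psi_le (ht : t ≤ S.m) : Psi S t l r ≤ 4 * (r - l) := by
  have h1 : (dL S t l r (Finset.Ico l r) (fun v => v) (fun v => v + 1)).card ≤ r - l := by
    rw [← Nat.card_Ico l r]
    refine Finset.card_le_card ?_
    intro v hv
    simp only [dL, Finset.mem_filter] at hv
    obtain ⟨hvK, h1, h2, h3, h4, h5⟩ := hv
    have := S.lt_rho t ht v hvK
    rw [Finset.mem_Ico]
    omega
  have h2 : (dR S t l r (Finset.Ico l r) (fun v => v) (fun v => v + 1)).card ≤ r - l := by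
    rw [← Nat.card_Ico l r]
    refine Finset.card_le_card ?_
    intro v hv
    simp only [dR, Finset.mem_filter] at hv
    obtain ⟨hvK, h1, h2, h3, h4, h5⟩ := hv
    have := S.lam_lt t ht v hvK
    rw [Finset.mem_Ico]
    omega
  have hL : ∀ v, (exL S t l v (v + 1)).card ≤ 1 := by
    intro v
    refine (Finset.card_le_card (t := {v}) ?_).trans (by simp)
    intro w hw
    simp only [exL, Finset.mem_filter] at hw
    rw [Finset.mem_singleton]
    omega
  have hR : ∀ v, (exR S t r v (v + 1)).card ≤ 1 := by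
    intro v
    refine (Finset.card_le_card (t := {v}) ?_).trans (by simp)
    intro w hw
    simp only [exR, Finset.mem_filter] at hw
    rw [Finset.mem_singleton]
    omega
  have h3 : cx S t l r (Finset.Ico l r) (fun v => v) (fun v => v + 1) (8 * 0 + 5) ≤
      (r - l) * 2 := by
    unfold cx
    refine Finset.sum_le_card_nsmul _ _ 2 ?_ |>.trans ?_
    · intro k _
      have a1 := Nat.min_le_right (8 * 0 + 5) (exL S t l k (k + 1)).card
      have a2 := Nat.min_le_right (8 * 0 + 5) (exR S t r k (k + 1)).card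
      have a3 := hL k
      have a4 := hR k
      beta_reduce
      omega
    · simp
  unfold Psi cp
  simp only [Nat.mul_zero, Nat.zero_add, Nat.one_mul] at h3 ⊢
  omega

/-- The exposed nodes, counted by keys. -/
private theorem PE_sum (A : Finset ℕ) (hA : A ⊆ Finset.Ico l r) (B : ℕ → Finset ℕ)
    (hB : ∀ k v, l ≤ k → k < r → (v ∈ B k ↔ v ∈ A ∧ v = k)) :
    ∑ k ∈ Finset.Ico l r, min (8 * 0 + 5) (B k).card = A.card := by
  have h1 : A.card = ∑ k ∈ Finset.Ico l r, (A.filter (fun v => v = k)).card :=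
    Finset.card_eq_sum_card_fiberwise (f := fun v => v) (fun v hv => hA hv)
  rw [h1]
  apply Finset.sum_congr rfl
  intro k hk
  rw [Finset.mem_Ico] at hk
  have h2 : B k = A.filter (fun v => v = k) := by
    ext v
    rw [Finset.mem_filter]
    exact hB k v hk.1 hk.2
  have h3 : (A.filter (fun v => v = k)).card ≤ 1 := by
    rw [Finset.card_le_one]
    intro a ha b hb
    rw [Finset.mem_filter] at ha hb
    rw [ha.2, hb.2]
  rw [h2]
  omega

/-- Single keys are in the same piece only if they are equal. -/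
private theorem PE_same {u v : ℕ} (h : u ≠ v) :
    ¬ Same (Finset.Ico l r) (fun v => v) (fun v => v + 1) u v := by
  rintro ⟨k, _, ⟨h1, h2⟩, h3, h4⟩
  simp only at h1 h2 h3 h4
  omega

/-- **Module PE.**  HINT.  `Same` for single keys is equality, so `dL S t l r (Ico l r) id (·+1)` is the set below (for `v` with
`l ≤ v < rho v < r` we have `v ≠ rho v`); the sum of `min 5 (card of {v} ∩ …)` is the card of `exL S t l l r`. -/
theorem Psi_eq (ht : t ≤ S.m) (hl : 1 ≤ l) (hr : r ≤ S.top) : Psi S t l r =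
    (exL S t l l r).card + (exR S t r l r).card +
    (S.K.filter (fun v => l ≤ v ∧ S.lam t v < l ∧ S.rho t v < r ∧
      S.lam t (S.rho t v) ≠ S.lam t v)).card +
    (S.K.filter (fun v => v < r ∧ r ≤ S.rho t v ∧ l ≤ S.lam t v ∧
      S.rho t (S.lam t v) ≠ S.rho t v)).card := by
  have e1 : ∑ k ∈ Finset.Ico l r, min (8 * 0 + 5) (exL S t l k (k + 1)).card =
      (exL S t l l r).card := by
    apply PE_sum
    · intro v hv
      rw [mem_exL] at hv
      exact Finset.mem_Ico.2 ⟨hv.2.1, hv.2.2.1⟩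
    · intro k v hk hk'
      rw [mem_exL, mem_exL]
      constructor
      · rintro ⟨a1, a2, a3, a4⟩
        exact ⟨⟨a1, by omega, by omega, a4⟩, by omega⟩
      · rintro ⟨⟨a1, a2, a3, a4⟩, a5⟩
        exact ⟨a1, by omega, by omega, a4⟩
  have e2 : ∑ k ∈ Finset.Ico l r, min (8 * 0 + 5) (exR S t r k (k + 1)).card =
      (exR S t r l r).card := by
    apply PE_sum
    · intro v hv
      rw [mem_exR] at hv
      exact Finset.mem_Ico.2 ⟨hv.2.1, hv.2.2.1⟩
    · intro k v hk hk'
      rw [mem_exR, mem_exR]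
      constructor
      · rintro ⟨a1, a2, a3, a4⟩
        exact ⟨⟨a1, by omega, by omega, a4⟩, by omega⟩
      · rintro ⟨⟨a1, a2, a3, a4⟩, a5⟩
        exact ⟨a1, by omega, by omega, a4⟩
  have e3 : dL S t l r (Finset.Ico l r) (fun v => v) (fun v => v + 1) =
      S.K.filter (fun v => l ≤ v ∧ S.lam t v < l ∧ S.rho t v < r ∧
      S.lam t (S.rho t v) ≠ S.lam t v) := by
    unfold dL
    apply Finset.filter_congr
    intro v hv
    have h1 := S.lt_rho t ht v hv
    have h2 : ¬ Same (Finset.Ico l r) (fun v => v) (fun v => v + 1) v (S.rho t v) :=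
      PE_same (by omega)
    tauto
  have e4 : dR S t l r (Finset.Ico l r) (fun v => v) (fun v => v + 1) =
      S.K.filter (fun v => v < r ∧ r ≤ S.rho t v ∧ l ≤ S.lam t v ∧
      S.rho t (S.lam t v) ≠ S.rho t v) := by
    unfold dR
    apply Finset.filter_congr
    intro v hv
    have h1 := S.lam_lt t ht v hv
    have h2 : ¬ Same (Finset.Ico l r) (fun v => v) (fun v => v + 1) v (S.lam t v) :=
      PE_same (by omega)
    tauto
  unfold Psi cp cx
  rw [e3, e4, Finset.sum_add_distrib]
  simp only [e1, e2]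
  ring

/-- The smallest node of `[l, r)` touched on the left side is unique. -/
private theorem OW1_low {g g' : ℕ} (h : S.L t g) (h' : S.L t g') (h1 : l ≤ g) (h1' : l ≤ g')
    (h2 : S.lam t g < l) (h2' : S.lam t g' < l) : g = g' := by
  rcases lt_trichotomy g g' with h3 | h3 | h3
  · have := (Sys.L_above h h' h3).1
    omega
  · exact h3
  · have := (Sys.L_above h' h h3).1
    omega

/-- A new exposed node kills the smallest touched node. -/
private theorem OW1_new {v : ℕ} (ht : t < S.m) (hx : l ≤ S.X t) (hv : v ∈ S.K)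
    (h1 : S.lam (t + 1) v < l) (h2 : l ≤ S.lam t v) (hne : v ≠ S.X t) :
    S.L t (S.lam t v) ∧ S.lam t (S.lam t v) < l ∧ S.rho (t + 1) (S.lam t v) = v := by
  have h0 := S.lam_lt t ht.le v hv
  rcases lt_trichotomy v (S.X t) with h3 | h3 | h3
  · rcases S.left t ht v hv h3 with h4 | ⟨c1, c2, c3⟩ | ⟨c1, p, c2, c3, c4, c5, c6, c7, c8, c9, c10⟩
    · omega
    · rcases c3 with c3 | ⟨d1, d2, d3, d4, d5⟩
      · omega
      · exact ⟨⟨ht, d1, by omega, by omega⟩, by omega, d3⟩
    · omega
  · exact absurd h3 hne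
  · rcases S.right t ht v hv h3 with h4 | ⟨c1, c2, c3⟩ | ⟨c1, p, c2, c3, c4, c5, c6, c7, c8, c9, c10⟩
    · omega
    · omega
    · omega

/-- **Module OW1.**  HINT.  `x = X t ∈ [l, r)`.  `v ∈ [l, r)` with `lam' v < l`: `v = x`; or `v > x`: then `v` is not touched (`R_mono`:
`x ≤ lam' v`), so `v ∈ exL t`; or `v < x`: not touched: `v ∈ exL t`; touched on the left side: `lam' v = lam v`, or `v` kills `g = lam v`
(`S.left`, LF: `lam' v = lam (lam v)`), if then `l ≤ g` (otherwise `v ∈ exL t`) `g` is touched on the left side with `lam g < l`, and there is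
at most one such `g` in `[l, r)` (`Sys.L_above`: for touched `g < g'` we have `g ≤ lam g'`), and `v` is determined by `g` (LF:
`rho' g = v`).  So at most 2 new elements. -/
theorem own_exL (ht : t < S.m) (hl : 1 ≤ l) (hr : r ≤ S.top) (hx : l ≤ S.X t ∧ S.X t < r) :
    (exL S (t + 1) l l r).card ≤ (exL S t l l r).card + 2 := by
  have hs : exL S (t + 1) l l r ⊆ exL S t l l r ∪ ({S.X t} ∪
      S.K.filter (fun v => l ≤ S.lam t v ∧ S.L t (S.lam t v) ∧ S.lam t (S.lam t v) < l ∧
        S.rho (t + 1) (S.lam t v) = v)) := by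
    intro v hv
    rw [mem_exL] at hv
    obtain ⟨h1, h2, h3, h4⟩ := hv
    by_cases h5 : S.lam t v < l
    · exact Finset.mem_union_left _ (mem_exL.2 ⟨h1, h2, h3, h5⟩)
    · apply Finset.mem_union_right
      by_cases h6 : v = S.X t
      · exact Finset.mem_union_left _ (Finset.mem_singleton.2 h6)
      · apply Finset.mem_union_right
        have h7 := OW1_new ht hx.1 h1 h4 (by omega) h6
        exact Finset.mem_filter.2 ⟨h1, by omega, h7.1, h7.2.1, h7.2.2⟩
  have hc : (S.K.filter (fun v => l ≤ S.lam t v ∧ S.L t (S.lam t v) ∧ S.lam t (S.lam t v) < l ∧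
        S.rho (t + 1) (S.lam t v) = v)).card ≤ 1 := by
    rw [Finset.card_le_one]
    intro v hv v' hv'
    rw [Finset.mem_filter] at hv hv'
    obtain ⟨_, a1, a2, a3, a4⟩ := hv
    obtain ⟨_, b1, b2, b3, b4⟩ := hv'
    have h8 := OW1_low a2 b2 a1 b1 a3 b3
    rw [← a4, ← b4, h8]
  have h1 := Finset.card_le_card hs
  have h2 := Finset.card_union_le (exL S t l l r) ({S.X t} ∪
      S.K.filter (fun v => l ≤ S.lam t v ∧ S.L t (S.lam t v) ∧ S.lam t (S.lam t v) < l ∧
        S.rho (t + 1) (S.lam t v) = v))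
  have h3 := Finset.card_union_le ({S.X t} : Finset ℕ)
      (S.K.filter (fun v => l ≤ S.lam t v ∧ S.L t (S.lam t v) ∧ S.lam t (S.lam t v) < l ∧
        S.rho (t + 1) (S.lam t v) = v))
  rw [Finset.card_singleton] at h3
  omega

/-- Two nodes with the same ends are equal. -/
private theorem OW2_ends {v v' : ℕ} (ht : t ≤ S.m) (hv : v ∈ S.K) (hv' : v' ∈ S.K)
    (h1 : S.lam t v = S.lam t v') (h2 : S.rho t v = S.rho t v') : v = v' := by
  have a1 := S.lam_lt t ht v hv
  have a2 := S.lt_rho t ht v hv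
  have b1 := S.lam_lt t ht v' hv'
  have b2 := S.lt_rho t ht v' hv'
  rcases lt_trichotomy v v' with h3 | h3 | h3
  · rcases S.lamin t ht v hv v' hv' h3 with h4 | h4 | h4 <;> omega
  · exact h3
  · rcases S.lamin t ht v' hv' v hv h3 with h4 | h4 | h4 <;> omega

/-- The new elements of the set of `own_dL`. -/
private theorem OW2_new {v : ℕ} (ht : t < S.m) (hr : r ≤ S.top) (hx : l ≤ S.X t) (hv : v ∈ S.K)
    (hlv : l ≤ v) (h1 : S.lam (t + 1) v < l) (h2 : S.rho (t + 1) v < r)
    (h3 : S.lam (t + 1) (S.rho (t + 1) v) ≠ S.lam (t + 1) v) :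
    (S.lam t v < l ∧ S.rho t v < r ∧ S.lam t (S.rho t v) ≠ S.lam t v) ∨
    (S.rho t v = S.X t ∧ S.lam t v = S.lam t (S.X t)) ∨
    (l ≤ S.rho t v ∧ S.L t (S.rho t v) ∧ S.lam t (S.rho t v) < l ∧
      S.lam t v = S.lam t (S.rho t v)) ∨
    (l ≤ v ∧ S.L t v ∧ S.lam t v < l) ∨
    (l ≤ S.lam t v ∧ S.L t (S.lam t v) ∧ S.lam t (S.lam t v) < l ∧
        S.rho (t + 1) (S.lam t v) = v) := by
  have h0 := S.lam_lt t ht.le v hv
  have h0' := S.lt_rho t ht.le v hv
  rcases lt_trichotomy v (S.X t) with h4 | h4 | h4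
  · by_cases h5 : S.rho t v ≤ S.X t
    · rcases S.left t ht v hv h4 with ⟨c1, c2, c3⟩ | ⟨c1, c2, c3⟩ | ⟨c1, c2⟩
      · rw [c3] at h3
        have hu : S.rho t v ∈ S.K := by
          rcases S.rho_mem t ht.le v hv with h6 | h6
          · omega
          · exact h6
        by_cases h6 : S.lam t (S.rho t v) = S.lam t v
        · right
          by_cases h7 : S.rho t v = S.X t
          · left
            refine ⟨h7, ?_⟩
            rw [← h7, h6]
          · right; left
            rcases S.left t ht _ hu (by omega) with d | ⟨d1, d2, d3⟩ | ⟨d1, p, d2, d3, d4, d5, d6, d7⟩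
            · omega
            · exact ⟨by omega, ⟨ht, hu, by omega, d1⟩, by omega, h6.symm⟩
            · omega
        · left
          exact ⟨by omega, by omega, h6⟩
      · omega
      · omega
    · have hL : S.L t v := ⟨ht, hv, h4, by omega⟩
      by_cases h6 : S.lam t v < l
      · right; right; right; left
        exact ⟨hlv, hL, h6⟩
      · right; right; right; right
        have h7 := OW1_new ht hx hv h1 (by omega) h4.ne
        exact ⟨by omega, h7.1, h7.2.1, h7.2.2⟩
  · exfalso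
    have h5 := (S.acc t ht).2
    rw [← h4] at h5
    omega
  · exfalso
    rcases S.right t ht v hv h4 with h5 | ⟨c1, c2, c3⟩ | ⟨c1, p, c2, c3, c4, c5, c6⟩
    · omega
    · omega
    · omega


/-- **Module OW2.**  HINT.  (Text, section 3.)  `x = X t ∈ [l, r)`.  Let `v ∈ [l, r)`, `lam' v < l`, `rho' v < r`, `lam' (rho' v) ≠ lam' v`.
`v ≠ x` (`rho' x = top`), `v` is not touched on the right side (`x ≤ lam' v` then).  If `v` is touched on the left side: `lam v < l` or
`lam v ∈ [l, r)` is killed by `v` (see OW1): in total at most 2 such `v` (the smallest left-touched node of `[l, r)` and its killer: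
if `lam v < l` then `v` is the smallest left-touched node of `[l, r)`).  If `v` is not touched: `lam`, `rho` of `v` unchanged, `x ∉ (lam v, rho v)`
and `lam v < l ≤ x`, so `u := rho v ≤ x`.  `u = x`: `v` is old unless `lam t x = lam t v` (at most one `v` with `rho v = x` and
`lam v = lam x`: `S.lamin`).  `u < x`: if `u` is not touched, `v` is old.  If `u` is touched (left side): `lam u ≤ lam v < l` so `u` is the smallest
left-touched node of `[l, r)`; if `lam' u = lam u` then `v` is old; otherwise `u` kills `g = lam u`, `lam' u = lam g`; `v` is old unless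
`lam v = lam u`: at most one `v` with `rho v = u`, `lam v = lam u`.  So at most 4 new elements. -/
theorem own_dL (ht : t < S.m) (hl : 1 ≤ l) (hr : r ≤ S.top) (hx : l ≤ S.X t ∧ S.X t < r) :
    (S.K.filter (fun v => l ≤ v ∧ S.lam (t + 1) v < l ∧ S.rho (t + 1) v < r ∧
      S.lam (t + 1) (S.rho (t + 1) v) ≠ S.lam (t + 1) v)).card ≤
    (S.K.filter (fun v => l ≤ v ∧ S.lam t v < l ∧ S.rho t v < r ∧
      S.lam t (S.rho t v) ≠ S.lam t v)).card + 4 := by
  set A := S.K.filter (fun v => S.rho t v = S.X t ∧ S.lam t v = S.lam t (S.X t)) with hA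
  set B := S.K.filter (fun v => l ≤ S.rho t v ∧ S.L t (S.rho t v) ∧ S.lam t (S.rho t v) < l ∧
      S.lam t v = S.lam t (S.rho t v)) with hB
  set C := S.K.filter (fun v => l ≤ v ∧ S.L t v ∧ S.lam t v < l) with hC
  set D := S.K.filter (fun v => l ≤ S.lam t v ∧ S.L t (S.lam t v) ∧ S.lam t (S.lam t v) < l ∧
        S.rho (t + 1) (S.lam t v) = v) with hD
  set O := S.K.filter (fun v => l ≤ v ∧ S.lam t v < l ∧ S.rho t v < r ∧
      S.lam t (S.rho t v) ≠ S.lam t v) with hO
  have hs : (S.K.filter (fun v => l ≤ v ∧ S.lam (t + 1) v < l ∧ S.rho (t + 1) v < r ∧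
      S.lam (t + 1) (S.rho (t + 1) v) ≠ S.lam (t + 1) v)) ⊆ O ∪ (A ∪ (B ∪ (C ∪ D))) := by
    intro v hv
    rw [Finset.mem_filter] at hv
    obtain ⟨h1, h2, h3, h4, h5⟩ := hv
    simp only [Finset.mem_union, hA, hB, hC, hD, hO, Finset.mem_filter]
    rcases OW2_new ht hr hx.1 h1 h2 h3 h4 h5 with h6 | h6 | h6 | h6 | h6
    · exact Or.inl ⟨h1, h2, h6⟩
    · exact Or.inr (Or.inl ⟨h1, h6⟩)
    · exact Or.inr (Or.inr (Or.inl ⟨h1, h6⟩))
    · exact Or.inr (Or.inr (Or.inr (Or.inl ⟨h1, h6⟩)))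
    · exact Or.inr (Or.inr (Or.inr (Or.inr ⟨h1, h6⟩)))
  have cA : A.card ≤ 1 := by
    rw [Finset.card_le_one]
    intro v hv v' hv'
    rw [hA, Finset.mem_filter] at hv hv'
    exact OW2_ends ht.le hv.1 hv'.1 (hv.2.2.trans hv'.2.2.symm) (hv.2.1.trans hv'.2.1.symm)
  have cB : B.card ≤ 1 := by
    rw [Finset.card_le_one]
    intro v hv v' hv'
    rw [hB, Finset.mem_filter] at hv hv'
    obtain ⟨a0, a1, a2, a3, a4⟩ := hv
    obtain ⟨b0, b1, b2, b3, b4⟩ := hv'
    have h6 := OW1_low a2 b2 a1 b1 a3 b3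
    exact OW2_ends ht.le a0 b0 (by rw [a4, b4, h6]) h6
  have cC : C.card ≤ 1 := by
    rw [Finset.card_le_one]
    intro v hv v' hv'
    rw [hC, Finset.mem_filter] at hv hv'
    exact OW1_low hv.2.2.1 hv'.2.2.1 hv.2.1 hv'.2.1 hv.2.2.2 hv'.2.2.2
  have cD : D.card ≤ 1 := by
    rw [Finset.card_le_one]
    intro v hv v' hv'
    rw [hD, Finset.mem_filter] at hv hv'
    obtain ⟨_, a1, a2, a3, a4⟩ := hv
    obtain ⟨_, b1, b2, b3, b4⟩ := hv'
    have h8 := OW1_low a2 b2 a1 b1 a3 b3
    rw [← a4, ← b4, h8]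
  have h1 := Finset.card_le_card hs
  have h2 := Finset.card_union_le O (A ∪ (B ∪ (C ∪ D)))
  have h3 := Finset.card_union_le A (B ∪ (C ∪ D))
  have h4 := Finset.card_union_le B (C ∪ D)
  have h5 := Finset.card_union_le C D
  omega

/-- The last set in the mirror. -/
private theorem OW3_mir (ht : t ≤ S.m) (hl : 1 ≤ l) (hr : r ≤ S.top) :
    (S.mir.K.filter (fun v => ml S r ≤ v ∧ S.mir.lam t v < ml S r ∧ S.mir.rho t v < ml S l ∧
      S.mir.lam t (S.mir.rho t v) ≠ S.mir.lam t v)).card =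
    (S.K.filter (fun v => v < r ∧ r ≤ S.rho t v ∧ l ≤ S.lam t v ∧
      S.rho t (S.lam t v) ≠ S.rho t v)).card := by
  have e : (S.mir.K.filter (fun v => ml S r ≤ v ∧ S.mir.lam t v < ml S r ∧
      S.mir.rho t v < ml S l ∧ S.mir.lam t (S.mir.rho t v) ≠ S.mir.lam t v)) =
      (S.K.filter (fun v => v < r ∧ r ≤ S.rho t v ∧ l ≤ S.lam t v ∧
      S.rho t (S.lam t v) ≠ S.rho t v)).image (fun u => S.top - u) := by
    ext v
    rw [Finset.mem_filter, Finset.mem_image]
    constructor
    · rintro ⟨hv, c1, c2, c3, c4⟩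
      obtain ⟨u, hu, rfl⟩ := Sys.mir_mem.1 hv
      have h1 := S.key u hu
      have h2 := S.lam_lt_top ht hu
      have h3 := S.rho_le_top ht hu
      rw [Sys.mir_rho hu] at c3 c4
      rw [Sys.mir_lam hu] at c2 c4
      simp only [ml] at c1 c2 c3
      have h5 : l ≤ S.lam t u := by omega
      have h6 := lam_mem_of_le ht hu h5 hl
      rw [Sys.mir_lam h6] at c4
      refine ⟨u, Finset.mem_filter.2 ⟨hu, by omega, by omega, h5, ?_⟩, rfl⟩
      intro h7
      rw [h7] at c4
      exact c4 rfl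
    · rintro ⟨u, hu, rfl⟩
      rw [Finset.mem_filter] at hu
      obtain ⟨hu, c1, c2, c3, c4⟩ := hu
      have h1 := S.key u hu
      have h2 := S.lam_lt_top ht hu
      have h3 := S.rho_le_top ht hu
      have h6 := lam_mem_of_le ht hu c3 hl
      have h7 := S.rho_le_top ht h6
      refine ⟨Sys.mir_mem.2 ⟨u, hu, rfl⟩, ?_⟩
      rw [Sys.mir_rho hu, Sys.mir_lam hu, Sys.mir_lam h6]
      simp only [ml]
      refine ⟨by omega, by omega, by omega, by omega⟩
  rw [e, Finset.card_image_of_injOn]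
  intro u hu u' hu' he
  rw [Finset.mem_coe, Finset.mem_filter] at hu hu'
  have h1 := S.key u hu.1
  have h2 := S.key u' hu'.1
  simp only at he
  omega

/-- **Module OW3.**  HINT.  `Psi_eq` at `t + 1` and `t`, `own_exL`, `own_dL` for `S` and for `S.mir` with the interval `[ml S r, ml S l)` and
the mirror lemmas (`exL_mir`, `exR_mir`, and the analogous bijection for the last set). -/
theorem own (ht : t < S.m) (hl : 1 ≤ l) (hr : r ≤ S.top) (hx : l ≤ S.X t ∧ S.X t < r) :
    Psi S (t + 1) l r ≤ Psi S t l r + 12 := by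
  have h0 := S.key _ (S.req t ht)
  have hx' : ml S r ≤ S.mir.X t ∧ S.mir.X t < ml S l := by
    change S.top + 1 - r ≤ S.top - S.X t ∧ S.top - S.X t < S.top + 1 - l
    omega
  have hl' : 1 ≤ ml S r := by
    simp only [ml]
    omega
  have hr' : ml S l ≤ S.mir.top := by
    change S.top + 1 - l ≤ S.top
    omega
  have h1 := own_exL ht hl hr hx
  have h2 := own_dL ht hl hr hx
  have h3 := own_exL (S := S.mir) ht hl' hr' hx'
  have h4 := own_dL (S := S.mir) ht hl' hr' hx'
  rw [OW3_mir (t := t + 1) ht hl hr, OW3_mir ht.le hl hr] at h4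
  rw [exL_mir (t := t + 1) ht hr hl hr, exL_mir ht.le hr hl hr] at h3
  rw [Psi_eq (t := t + 1) ht hl hr, Psi_eq ht.le hl hr]
  omega

end Pool.Agent.SplLs
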