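import Pool.Agent.SplLs.Defs
import Pool.Agent.SplLog.Run

set_option autoImplicit false

namespace Pool.Agent.SplLs

open BinaryTree Pool.Agent.MP_c42954_lc.Scan Pool.Agent.SplPat Pool.Agent.SplLog

/-! HINT (TH1, TH2).  Prove by induction on `Ev x t A B` (as `ev_R` / `ev_L` in SplLog.Tree): for all
lo hi with Bd lo hi t and every v in inorder t with x < v and lm v t lo < x one of the following holds:
 (i)   lm v B x ≠ x                                   (v is killed),
 (ii)  rh v B hi ≠ rh v t hi                          (v is a killer),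
 (iii) rh v t hi = hi and lm v t lo ≠ lo              (a turn above v),
 (iv)  rh v t hi ≠ hi and lm (rh v t hi) t lo ≠ lm v t lo,
 (v)   ∀ y ∈ inorder t, x < y → lm y t lo < x → rh y t hi = v → lm y t lo ≠ lm v t lo   (a turn below v).
Case ll (pair g above p, both > x): g is killed (i), p kills (ii), a node v of L with (iii) in L (hi_L = p) has (iv), since
lm p = lo.  Case lr (p < x < g): g has (v) (all nodes y of R have lm y ≥ p > lo = lm g), v in R with (iii) keeps (iii) w.r.t.
rh v R g = g: (iv) in t, since lm g = lo < p ≤ lm v.  Case rl (g < x < p): p has (iii) or (iv)-type: rh p = hi, lm p = g > lo.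
For `Spl` there is one more case at the root (single rotation): rh v t hi = hi.  Then translate to `sysOf` with
`splay_R`-like statements (see how `run_kept` / `run_cost` in SplLog.Run use the tree lemmas); in `Thr` the node
v = S.rho t y has rho v in S.K, so rh v t top ≠ top.  The killer of v is y and the node killed by v is rho v:
`Sys.kl_facts`.  TH2 is the mirror image (induction with `L` instead of `R`), then S.mir via mir_lam, mir_rho, mir_R. -/

/-- The alternatives for a node `v` on the right side of the path (or: there is no turn at `v`). -/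
private def TH1_P (x : ℕ) (t B : BinaryTree ℕ) (lo hi v : ℕ) : Prop :=
  lm v B x ≠ x ∨ rh v B hi ≠ rh v t hi ∨ (rh v t hi = hi ∧ lm v t lo ≠ lo) ∨
  (rh v t hi ≠ hi ∧ lm (rh v t hi) t lo ≠ lm v t lo) ∨
  (∀ y ∈ inorder t, x < y → lm y t lo < x → rh y t hi = v → lm y t lo ≠ lm v t lo)

private theorem TH1_mono {x lo hi lo' hi' v : ℕ} {t L B B' : BinaryTree ℕ}
    (h : TH1_P x L B lo' hi' v) (hv : v ∈ inorder L)
    (e1 : ∀ w ∈ inorder L, lm w t lo = lm w L lo') (e2 : ∀ w ∈ inorder L, rh w t hi = rh w L hi')
    (e3 : lm v B' x = lm v B x) (e4 : rh v B' hi = rh v B hi')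
    (e5 : rh v L hi' = hi' → lm v L lo' ≠ lo' → TH1_P x t B' lo hi v)
    (e6 : rh v L hi' ≠ hi' → rh v L hi' ∈ inorder L ∧ rh v L hi' ≠ hi)
    (e7 : ∀ y ∈ inorder t, x < y → lm y t lo < x → rh y t hi = v → y ∈ inorder L) :
    TH1_P x t B' lo hi v := by
  rcases h with h | h | ⟨h, h'⟩ | ⟨h, h'⟩ | h
  · left
    rwa [e3]
  · right; left
    rwa [e4, e2 v hv]
  · exact e5 h h'
  · right; right; right; left
    obtain ⟨h1, h2⟩ := e6 h
    rw [e2 v hv, e1 _ h1, e1 v hv]
    exact ⟨h2, h'⟩
  · right; right; right; right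
    intro y hy hxy hl hr
    have hy' := e7 y hy hxy hl hr
    rw [e1 y hy'] at hl ⊢
    rw [e2 y hy'] at hr
    rw [e1 v hv]
    exact h y hy' hxy hl hr

private theorem TH1_ev {x : ℕ} {t A B : BinaryTree ℕ} (h : Ev x t A B) : IsBST t →
    ∀ lo hi, Bd lo hi t → ∀ v ∈ inorder t, x < v → lm v t lo < x → TH1_P x t B lo hi v := by
  induction h with
  | base A B =>
    intro hb lo hi hB v hv hx hl
    obtain ⟨h1, h2, h3, h4⟩ := bst_node.1 hb
    obtain ⟨b1, b2, b3, b4⟩ := bd_node hb hB
    rcases mem_node.1 hv with hv | hv | hv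
    · have := h3 v hv
      omega
    · omega
    · rw [lm_gt hx] at hl
      obtain ⟨c1, c2, c3, c4, c5, c6⟩ := ends h2 b4 hv
      omega
  | @ll p g L C D A B h1 h2 h3 ih =>
    intro hb lo hi hB v hv hx hl
    obtain ⟨a1, a2, a3, a4⟩ := bst_node.1 hb
    obtain ⟨b1, b2, b3, b4⟩ := bd_node hb hB
    obtain ⟨c1, c2, c3, c4⟩ := bst_node.1 a1
    obtain ⟨d1, d2, d3, d4⟩ := bd_node a1 b3
    have hpg : p < g := a3 p (by simp [inorder])
    have e1 : ∀ w ∈ inorder L, lm w (.node g (.node p L C) D) lo = lm w L lo := by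
      intro w hw
      have := c3 w hw
      rw [lm_lt (by omega), lm_lt (by omega)]
    have e2 : ∀ w ∈ inorder L, rh w (.node g (.node p L C) D) hi = rh w L p := by
      intro w hw
      have := c3 w hw
      rw [rh_lt (by omega), rh_lt (by omega)]
    rcases mem_node.1 hv with hv | hv | hv
    · rcases mem_node.1 hv with hv | hv | hv
      · have f0 := c3 v hv
        rw [e1 v hv] at hl
        obtain ⟨f1, f2, f3, f4, f5, f6⟩ := ends c1 d3 hv
        refine TH1_mono (ih c1 lo p d3 v hv hx hl) hv e1 e2 ?_ ?_ ?_ ?_ ?_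
        · rw [lm_lt f0]
        · rw [rh_lt f0]
        · intro k1 k2
          right; right; right; left
          rw [e2 v hv, e1 v hv, k1, lm_lt hpg, lm_self]
          exact ⟨by omega, fun k => k2 k.symm⟩
        · intro k
          rcases f6 with f6 | f6
          · exact absurd f6 k
          · exact ⟨f6, by omega⟩
        · intro y hy hxy _ hr
          rcases mem_node.1 hy with hy | hy | hy
          · rcases mem_node.1 hy with hy | hy | hy
            · exact hy
            · subst hy
              rw [rh_lt hpg, rh_self] at hr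
              omega
            · obtain ⟨g1, g2, g3, g4, g5, g6⟩ := ends c2 d4 hy
              have g0 := a3 y (mem_node.2 (Or.inr (Or.inr hy)))
              have g00 := c4 y hy
              rw [rh_lt g0, rh_gt g00] at hr
              omega
          · subst hy
            rw [rh_self] at hr
            omega
          · obtain ⟨g1, g2, g3, g4, g5, g6⟩ := ends a2 b4 hy
            have g0 := a4 y hy
            rw [rh_gt g0] at hr
            omega
      · subst hv
        right; left
        rw [rh_self, rh_lt hpg, rh_self]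
        omega
      · have f0 := c4 v hv
        have f00 := a3 v (mem_node.2 (Or.inr (Or.inr hv)))
        obtain ⟨f1, f2, f3, f4, f5, f6⟩ := ends c2 d4 hv
        rw [lm_lt f00, lm_gt f0] at hl
        omega
    · subst hv
      left
      rw [lm_gt hpg, lm_self]
      omega
    · have f0 := a4 v hv
      obtain ⟨f1, f2, f3, f4, f5, f6⟩ := ends a2 b4 hv
      rw [lm_gt f0] at hl
      omega
  | @lr p g R C D A B h1 h2 h3 ih =>
    intro hb lo hi hB v hv hx hl
    obtain ⟨a1, a2, a3, a4⟩ := bst_node.1 hb
    obtain ⟨b1, b2, b3, b4⟩ := bd_node hb hB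
    obtain ⟨c1, c2, c3, c4⟩ := bst_node.1 a1
    obtain ⟨d1, d2, d3, d4⟩ := bd_node a1 b3
    have hpg : p < g := a3 p (by simp [inorder])
    have e1 : ∀ w ∈ inorder R, lm w (.node g (.node p C R) D) lo = lm w R p := by
      intro w hw
      have := c4 w hw
      have := d4 w hw
      rw [lm_lt (by omega), lm_gt (by omega)]
    have e2 : ∀ w ∈ inorder R, rh w (.node g (.node p C R) D) hi = rh w R g := by
      intro w hw
      have := c4 w hw
      have := d4 w hw
      rw [rh_lt (by omega), rh_gt (by omega)]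
    have e7 : ∀ y ∈ inorder (.node g (.node p C R) D), x < y → y < g → y ∈ inorder R := by
      intro y hy hxy hyg
      rcases mem_node.1 hy with hy | hy | hy
      · rcases mem_node.1 hy with hy | hy | hy
        · have := c3 y hy
          omega
        · omega
        · exact hy
      · omega
      · have := a4 y hy
        omega
    rcases mem_node.1 hv with hv | hv | hv
    · rcases mem_node.1 hv with hv | hv | hv
      · have e1 := c3 v hv
        omega
      · omega
      · have f0 := c4 v hv
        have f00 := d4 v hv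
        rw [e1 v hv] at hl
        obtain ⟨f1, f2, f3, f4, f5, f6⟩ := ends c2 d4 hv
        refine TH1_mono (ih c2 p g d4 v hv hx hl) hv e1 e2 ?_ ?_ ?_ ?_ ?_
        · rw [lm_lt f00.2]
        · rw [rh_lt f00.2]
        · intro k1 k2
          right; right; right; left
          rw [e2 v hv, e1 v hv, k1, lm_self]
          exact ⟨by omega, by omega⟩
        · intro k
          rcases f6 with f6 | f6
          · exact absurd f6 k
          · exact ⟨f6, by omega⟩
        · intro y hy hxy _ hr
          have := hB y hy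
          have hyr : y < rh y (.node g (.node p C R) D) hi := (ends hb hB hy).2.2.1
          exact e7 y hy hxy (by omega)
    · subst hv
      right; right; right; right
      intro y hy hxy _ hr
      have hyr := (ends hb hB hy).2.2.1
      have hyR := e7 y hy hxy (by omega)
      rw [e1 y hyR, lm_self]
      obtain ⟨f1, f2, f3, f4, f5, f6⟩ := ends c2 d4 hyR
      omega
    · have f0 := a4 v hv
      obtain ⟨f1, f2, f3, f4, f5, f6⟩ := ends a2 b4 hv
      rw [lm_gt f0] at hl
      omega
  | @rr p g R C D A B h1 h2 h3 ih =>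
    intro hb lo hi hB v hv hx hl
    obtain ⟨a1, a2, a3, a4⟩ := bst_node.1 hb
    obtain ⟨b1, b2, b3, b4⟩ := bd_node hb hB
    obtain ⟨c1, c2, c3, c4⟩ := bst_node.1 a2
    obtain ⟨d1, d2, d3, d4⟩ := bd_node a2 b4
    have hpg : g < p := a4 p (by simp [inorder])
    have e1 : ∀ w ∈ inorder R, lm w (.node g D (.node p C R)) lo = lm w R p := by
      intro w hw
      have := c4 w hw
      rw [lm_gt (by omega), lm_gt (by omega)]
    have e2 : ∀ w ∈ inorder R, rh w (.node g D (.node p C R)) hi = rh w R hi := by
      intro w hw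
      have := c4 w hw
      rw [rh_gt (by omega), rh_gt (by omega)]
    have e7 : ∀ y ∈ inorder (.node g D (.node p C R)), x < y → y ∈ inorder R := by
      intro y hy hxy
      rcases mem_node.1 hy with hy | hy | hy
      · have := a3 y hy
        omega
      · omega
      · rcases mem_node.1 hy with hy | hy | hy
        · have := c3 y hy
          omega
        · omega
        · exact hy
    have hv := e7 v hv hx
    rw [e1 v hv] at hl
    obtain ⟨f1, f2, f3, f4, f5, f6⟩ := ends c2 d4 hv
    refine TH1_mono (ih c2 p hi d4 v hv hx hl) hv e1 e2 rfl rfl ?_ ?_ ?_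
    · intro k1 k2
      right; right; left
      rw [e2 v hv, e1 v hv]
      exact ⟨k1, by omega⟩
    · intro k
      rcases f6 with f6 | f6
      · exact absurd f6 k
      · exact ⟨f6, k⟩
    · intro y hy hxy _ _
      exact e7 y hy hxy
  | @rl p g L C D A B h1 h2 h3 ih =>
    intro hb lo hi hB v hv hx hl
    obtain ⟨a1, a2, a3, a4⟩ := bst_node.1 hb
    obtain ⟨b1, b2, b3, b4⟩ := bd_node hb hB
    obtain ⟨c1, c2, c3, c4⟩ := bst_node.1 a2
    obtain ⟨d1, d2, d3, d4⟩ := bd_node a2 b4
    have hpg : g < p := a4 p (by simp [inorder])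
    have e1 : ∀ w ∈ inorder L, lm w (.node g D (.node p L C)) lo = lm w L g := by
      intro w hw
      have := c3 w hw
      have := d3 w hw
      rw [lm_gt (by omega), lm_lt (by omega)]
    have e2 : ∀ w ∈ inorder L, rh w (.node g D (.node p L C)) hi = rh w L p := by
      intro w hw
      have := c3 w hw
      have := d3 w hw
      rw [rh_gt (by omega), rh_lt (by omega)]
    have e7 : ∀ y ∈ inorder (.node g D (.node p L C)), x < y → y < p → y ∈ inorder L := by
      intro y hy hxy hyp
      rcases mem_node.1 hy with hy | hy | hy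
      · have := a3 y hy
        omega
      · omega
      · rcases mem_node.1 hy with hy | hy | hy
        · exact hy
        · omega
        · have := c4 y hy
          omega
    rcases mem_node.1 hv with hv | hv | hv
    · have e1 := a3 v hv
      omega
    · omega
    · rcases mem_node.1 hv with hv | hv | hv
      · have f0 := c3 v hv
        have f00 := d3 v hv
        rw [e1 v hv] at hl
        obtain ⟨f1, f2, f3, f4, f5, f6⟩ := ends c1 d3 hv
        refine TH1_mono (ih c1 g p d3 v hv hx hl) hv e1 e2 ?_ ?_ ?_ ?_ ?_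
        · rw [lm_lt f0]
        · rw [rh_lt f0]
        · intro k1 k2
          right; right; right; left
          rw [e2 v hv, e1 v hv, k1, lm_gt hpg, lm_self]
          exact ⟨by omega, by omega⟩
        · intro k
          rcases f6 with f6 | f6
          · exact absurd f6 k
          · exact ⟨f6, by omega⟩
        · intro y hy hxy _ hr
          have hyr : y < rh y (.node g D (.node p L C)) hi := (ends hb hB hy).2.2.1
          exact e7 y hy hxy (by omega)
      · subst hv
        right; right; left
        rw [rh_gt hpg, rh_self, lm_gt hpg, lm_self]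
        exact ⟨rfl, by omega⟩
      · have f0 := c4 v hv
        obtain ⟨f1, f2, f3, f4, f5, f6⟩ := ends c2 d4 hv
        rw [lm_gt (show g < v by omega), lm_gt f0] at hl
        omega

private theorem TH1_spl {x : ℕ} {t A B : BinaryTree ℕ} (h : Spl x t A B) (hb : IsBST t) {lo hi : ℕ}
    (hB : Bd lo hi t) {v : ℕ} (hv : v ∈ inorder t) (hx : x < v) (hl : lm v t lo < x)
    (hr : rh v t hi ≠ hi) : TH1_P x t B lo hi v := by
  cases h with
  | ev h => exact TH1_ev h hb lo hi hB v hv hx hl
  | @zl g L D A B h1 h2 =>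
    obtain ⟨a1, a2, a3, a4⟩ := bst_node.1 hb
    obtain ⟨b1, b2, b3, b4⟩ := bd_node hb hB
    have e1 : ∀ w ∈ inorder L, lm w (.node g L D) lo = lm w L lo := by
      intro w hw
      rw [lm_lt (a3 w hw)]
    have e2 : ∀ w ∈ inorder L, rh w (.node g L D) hi = rh w L g := by
      intro w hw
      rw [rh_lt (a3 w hw)]
    rcases mem_node.1 hv with hv | hv | hv
    · have f0 := a3 v hv
      rw [e1 v hv] at hl
      obtain ⟨f1, f2, f3, f4, f5, f6⟩ := ends a1 b3 hv
      refine TH1_mono (TH1_ev h2 a1 lo g b3 v hv hx hl) hv e1 e2 ?_ ?_ ?_ ?_ ?_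
      · rw [lm_lt f0]
      · rw [rh_lt f0]
      · intro k1 k2
        right; right; right; left
        rw [e2 v hv, e1 v hv, k1, lm_self]
        exact ⟨by omega, fun k => k2 k.symm⟩
      · intro k
        rcases f6 with f6 | f6
        · exact absurd f6 k
        · exact ⟨f6, by omega⟩
      · intro y hy hxy _ hr
        have hyr : y < rh y (.node g L D) hi := (ends hb hB hy).2.2.1
        rcases mem_node.1 hy with hy | hy | hy
        · exact hy
        · omega
        · have := a4 y hy
          omega
    · subst hv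
      rw [rh_self] at hr
      exact absurd rfl hr
    · have f0 := a4 v hv
      obtain ⟨f1, f2, f3, f4, f5, f6⟩ := ends a2 b4 hv
      rw [lm_gt f0] at hl
      omega
  | @zr g R D A B h1 h2 =>
    obtain ⟨a1, a2, a3, a4⟩ := bst_node.1 hb
    obtain ⟨b1, b2, b3, b4⟩ := bd_node hb hB
    have e1 : ∀ w ∈ inorder R, lm w (.node g D R) lo = lm w R g := by
      intro w hw
      rw [lm_gt (a4 w hw)]
    have e2 : ∀ w ∈ inorder R, rh w (.node g D R) hi = rh w R hi := by
      intro w hw
      rw [rh_gt (a4 w hw)]
    have e7 : ∀ y ∈ inorder (.node g D R), x < y → y ∈ inorder R := by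
      intro y hy hxy
      rcases mem_node.1 hy with hy | hy | hy
      · have := a3 y hy
        omega
      · omega
      · exact hy
    have hv := e7 v hv hx
    rw [e1 v hv] at hl
    obtain ⟨f1, f2, f3, f4, f5, f6⟩ := ends a2 b4 hv
    refine TH1_mono (TH1_ev h2 a2 g hi b4 v hv hx hl) hv e1 e2 rfl rfl ?_ ?_ ?_
    · intro k1 k2
      right; right; left
      rw [e2 v hv, e1 v hv]
      exact ⟨k1, by omega⟩
    · intro k
      rcases f6 with f6 | f6
      · exact absurd f6 k
      · exact ⟨f6, k⟩
    · intro y hy hxy _ _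
      exact e7 y hy hxy

private theorem TH1_splay {x : ℕ} {t : BinaryTree ℕ} (hb : IsBST t) (hm : x ∈ inorder t) {lo hi : ℕ}
    (hB : Bd lo hi t) {v : ℕ} (hv : v ∈ inorder t) (hx : x < v) (hl : lm v t lo < x)
    (hr : rh v t hi ≠ hi) :
    lm v (splay x t) lo ≠ x ∨ rh v (splay x t) hi ≠ rh v t hi ∨ lm (rh v t hi) t lo ≠ lm v t lo ∨
    (∀ y ∈ inorder t, x < y → lm y t lo < x → rh y t hi = v → lm y t lo ≠ lm v t lo) := by
  obtain ⟨A, B, h1, h2⟩ := spl_exists hb hm
  rw [h2, lm_gt hx, rh_gt hx]
  rcases TH1_spl h1 hb hB hv hx hl hr with h | h | ⟨h, _⟩ | ⟨_, h⟩ | h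
  · exact Or.inl h
  · exact Or.inr (Or.inl h)
  · exact absurd h hr
  · exact Or.inr (Or.inr (Or.inl h))
  · exact Or.inr (Or.inr (Or.inr h))

/-- **Module TH1.** -/
theorem thr_sys {T : BinaryTree ℕ} {X : ℕ → ℕ} {m top : ℕ} (hb : IsBST T)
    (hX : ∀ t, t < m → X t ∈ inorder T) (hB : Bd 0 top T) : Thr (sysOf T X m top hb hX hB) := by
  intro t y hy hv hu hl1 hl2
  set S := sysOf T X m top hb hX hB with hS
  have ht : t < S.m := hy.1
  obtain ⟨h1, h2⟩ := tr_inv hb hX t (show t ≤ m from le_of_lt ht)
  have h3 : Bd 0 top (tr T X t) := by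
    intro w hw
    rw [h2] at hw
    exact hB w hw
  have h4 : X t ∈ inorder (tr T X t) := by
    rw [h2]
    exact hX t ht
  have hmem : ∀ w, w ∈ S.K → w ∈ inorder (tr T X t) := by
    intro w hw
    rw [h2]
    exact List.mem_toFinset.1 hw
  obtain ⟨v, hvd⟩ : ∃ v, v = S.rho t y := ⟨_, rfl⟩
  rw [← hvd] at hv hu hl1 hl2 ⊢
  have hne : rh v (tr T X t) top ≠ top := by
    have := (S.key _ hu.2.1).2
    exact this.ne
  have key := TH1_splay h1 h4 h3 (hmem v hv.2.1) hv.2.2.1 hv.2.2.2 hne
  have hyv : y < v := by
    rw [hvd]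
    exact S.lt_rho t ht.le y hy.2.1
  rcases key with k | k | k | k
  · -- `v` is killed
    left
    change S.lam (t + 1) v ≠ S.X t at k
    rcases S.right t ht v hv.2.1 hv.2.2.1 with c | ⟨_, c, _⟩ | ⟨c1, p, c2, c3, c4, c5, c6, c7, c8, c9, c10⟩
    · have := hv.2.2.2
      omega
    · exact absurd c k
    · have hp : S.R t p := ⟨ht, c2, c3, by omega⟩
      have hpy : p = y := by
        rcases lt_trichotomy p y with c | c | c
        · have := (Sys.R_above hp hy c).1
          omega
        · exact c
        · have := (Sys.R_above hy hp c).1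
          omega
      subst hpy
      exact ⟨hv, c3, c5⟩
  · -- `v` kills
    right
    change S.rho (t + 1) v ≠ S.rho t v at k
    rcases S.right t ht v hv.2.1 hv.2.2.1 with c | ⟨_, c, c'⟩ | ⟨c1, p, c2, c3, c4, c5, c6, _⟩
    · exact absurd c.2.2 k
    · rcases c' with c' | ⟨d1, d2, d3, d4, d5⟩
      · exact absurd c' k
      · exact ⟨hu, hv.2.2.1, d3⟩
    · exact absurd c6 k
  · exfalso
    change S.lam t (S.rho t v) ≠ S.lam t v at k
    omega
  · exfalso
    have := k y (hmem y hy.2.1) hy.2.2.1 hy.2.2.2 hvd.symm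
    change S.lam t y ≠ S.lam t v at this
    omega

/-- The alternatives for a node `v` on the left side of the path. -/
private def TH2_P (x : ℕ) (t A : BinaryTree ℕ) (lo hi v : ℕ) : Prop :=
  rh v A x ≠ x ∨ lm v A lo ≠ lm v t lo ∨ (lm v t lo = lo ∧ rh v t hi ≠ hi) ∨
  (lm v t lo ≠ lo ∧ rh (lm v t lo) t hi ≠ rh v t hi) ∨
  (∀ y ∈ inorder t, y < x → x < rh y t hi → lm y t lo = v → rh y t hi ≠ rh v t hi)

private theorem TH2_mono {x lo hi lo' hi' v : ℕ} {t L A A' : BinaryTree ℕ}
    (h : TH2_P x L A lo' hi' v) (hv : v ∈ inorder L)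
    (e1 : ∀ w ∈ inorder L, lm w t lo = lm w L lo') (e2 : ∀ w ∈ inorder L, rh w t hi = rh w L hi')
    (e3 : rh v A' x = rh v A x) (e4 : lm v A' lo = lm v A lo')
    (e5 : lm v L lo' = lo' → rh v L hi' ≠ hi' → TH2_P x t A' lo hi v)
    (e6 : lm v L lo' ≠ lo' → lm v L lo' ∈ inorder L ∧ lm v L lo' ≠ lo)
    (e7 : ∀ y ∈ inorder t, y < x → x < rh y t hi → lm y t lo = v → y ∈ inorder L) :
    TH2_P x t A' lo hi v := by
  rcases h with h | h | ⟨h, h'⟩ | ⟨h, h'⟩ | h
  · left
    rwa [e3]
  · right; left
    rwa [e4, e1 v hv]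
  · exact e5 h h'
  · right; right; right; left
    obtain ⟨h1, h2⟩ := e6 h
    rw [e1 v hv, e2 _ h1, e2 v hv]
    exact ⟨h2, h'⟩
  · right; right; right; right
    intro y hy hxy hl hr
    have hy' := e7 y hy hxy hl hr
    rw [e2 y hy'] at hl ⊢
    rw [e1 y hy'] at hr
    rw [e2 v hv]
    exact h y hy' hxy hl hr

private theorem TH2_ev {x : ℕ} {t A B : BinaryTree ℕ} (h : Ev x t A B) : IsBST t →
    ∀ lo hi, Bd lo hi t → ∀ v ∈ inorder t, v < x → x < rh v t hi → TH2_P x t A lo hi v := by
  induction h with
  | base A B =>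
    intro hb lo hi hB v hv hx hl
    obtain ⟨h1, h2, h3, h4⟩ := bst_node.1 hb
    obtain ⟨b1, b2, b3, b4⟩ := bd_node hb hB
    rcases mem_node.1 hv with hv | hv | hv
    · rw [rh_lt hx] at hl
      obtain ⟨c1, c2, c3, c4, c5, c6⟩ := ends h1 b3 hv
      omega
    · omega
    · have := h4 v hv
      omega
  | @rr p g R C D A B h1 h2 h3 ih =>
    intro hb lo hi hB v hv hx hl
    obtain ⟨a1, a2, a3, a4⟩ := bst_node.1 hb
    obtain ⟨b1, b2, b3, b4⟩ := bd_node hb hB
    obtain ⟨c1, c2, c3, c4⟩ := bst_node.1 a2
    obtain ⟨d1, d2, d3, d4⟩ := bd_node a2 b4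
    have hpg : g < p := a4 p (by simp [inorder])
    have e1 : ∀ w ∈ inorder R, lm w (.node g D (.node p C R)) lo = lm w R p := by
      intro w hw
      have := c4 w hw
      rw [lm_gt (by omega), lm_gt (by omega)]
    have e2 : ∀ w ∈ inorder R, rh w (.node g D (.node p C R)) hi = rh w R hi := by
      intro w hw
      have := c4 w hw
      rw [rh_gt (by omega), rh_gt (by omega)]
    rcases mem_node.1 hv with hv | hv | hv
    · have f0 := a3 v hv
      obtain ⟨f1, f2, f3, f4, f5, f6⟩ := ends a1 b3 hv
      rw [rh_lt f0] at hl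
      omega
    · subst hv
      left
      rw [rh_lt hpg, rh_self]
      omega
    · rcases mem_node.1 hv with hv | hv | hv
      · have f0 := c3 v hv
        have f00 := a4 v (mem_node.2 (Or.inl hv))
        obtain ⟨f1, f2, f3, f4, f5, f6⟩ := ends c1 d3 hv
        rw [rh_gt f00, rh_lt f0] at hl
        omega
      · subst hv
        right; left
        rw [lm_self, lm_gt hpg, lm_self]
        omega
      · have f0 := c4 v hv
        rw [e2 v hv] at hl
        obtain ⟨f1, f2, f3, f4, f5, f6⟩ := ends c2 d4 hv
        refine TH2_mono (ih c2 p hi d4 v hv hx hl) hv e1 e2 ?_ ?_ ?_ ?_ ?_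
        · rw [rh_gt f0]
        · rw [lm_gt f0]
        · intro k1 k2
          right; right; right; left
          rw [e1 v hv, e2 v hv, k1, rh_gt hpg, rh_self]
          exact ⟨by omega, fun k => k2 k.symm⟩
        · intro k
          rcases f5 with f5 | f5
          · exact absurd f5 k
          · exact ⟨f5, by omega⟩
        · intro y hy hxy _ hr
          rcases mem_node.1 hy with hy | hy | hy
          · obtain ⟨g1, g2, g3, g4, g5, g6⟩ := ends a1 b3 hy
            have g0 := a3 y hy
            rw [lm_lt g0] at hr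
            omega
          · subst hy
            rw [lm_self] at hr
            omega
          · rcases mem_node.1 hy with hy | hy | hy
            · obtain ⟨g1, g2, g3, g4, g5, g6⟩ := ends c1 d3 hy
              have g0 := a4 y (mem_node.2 (Or.inl hy))
              have g00 := c3 y hy
              rw [lm_gt g0, lm_lt g00] at hr
              omega
            · subst hy
              rw [lm_gt hpg, lm_self] at hr
              omega
            · exact hy
  | @rl p g L C D A B h1 h2 h3 ih =>
    intro hb lo hi hB v hv hx hl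
    obtain ⟨a1, a2, a3, a4⟩ := bst_node.1 hb
    obtain ⟨b1, b2, b3, b4⟩ := bd_node hb hB
    obtain ⟨c1, c2, c3, c4⟩ := bst_node.1 a2
    obtain ⟨d1, d2, d3, d4⟩ := bd_node a2 b4
    have hpg : g < p := a4 p (by simp [inorder])
    have e1 : ∀ w ∈ inorder L, lm w (.node g D (.node p L C)) lo = lm w L g := by
      intro w hw
      have := c3 w hw
      have := d3 w hw
      rw [lm_gt (by omega), lm_lt (by omega)]
    have e2 : ∀ w ∈ inorder L, rh w (.node g D (.node p L C)) hi = rh w L p := by
      intro w hw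
      have := c3 w hw
      have := d3 w hw
      rw [rh_gt (by omega), rh_lt (by omega)]
    have e7 : ∀ y ∈ inorder (.node g D (.node p L C)), y < x → g < y → y ∈ inorder L := by
      intro y hy hxy hyg
      rcases mem_node.1 hy with hy | hy | hy
      · have := a3 y hy
        omega
      · omega
      · rcases mem_node.1 hy with hy | hy | hy
        · exact hy
        · omega
        · have := c4 y hy
          omega
    rcases mem_node.1 hv with hv | hv | hv
    · have f0 := a3 v hv
      obtain ⟨f1, f2, f3, f4, f5, f6⟩ := ends a1 b3 hv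
      rw [rh_lt f0] at hl
      omega
    · subst hv
      right; right; right; right
      intro y hy hxy _ hr
      have hyr := (ends hb hB hy).2.1
      have hyL := e7 y hy hxy (by omega)
      rw [e2 y hyL, rh_self]
      obtain ⟨f1, f2, f3, f4, f5, f6⟩ := ends c1 d3 hyL
      omega
    · rcases mem_node.1 hv with hv | hv | hv
      · have f0 := c3 v hv
        have f00 := d3 v hv
        rw [e2 v hv] at hl
        obtain ⟨f1, f2, f3, f4, f5, f6⟩ := ends c1 d3 hv
        refine TH2_mono (ih c1 g p d3 v hv hx hl) hv e1 e2 ?_ ?_ ?_ ?_ ?_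
        · rw [rh_gt f00.1]
        · rw [lm_gt f00.1]
        · intro k1 k2
          right; right; right; left
          rw [e1 v hv, e2 v hv, k1, rh_self]
          exact ⟨by omega, by omega⟩
        · intro k
          rcases f5 with f5 | f5
          · exact absurd f5 k
          · exact ⟨f5, by omega⟩
        · intro y hy hxy _ hr
          have hyr : lm y (.node g D (.node p L C)) lo < y := (ends hb hB hy).2.1
          exact e7 y hy hxy (by omega)
      · omega
      · have := c4 v hv
        omega
  | @ll p g L C D A B h1 h2 h3 ih =>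
    intro hb lo hi hB v hv hx hl
    obtain ⟨a1, a2, a3, a4⟩ := bst_node.1 hb
    obtain ⟨b1, b2, b3, b4⟩ := bd_node hb hB
    obtain ⟨c1, c2, c3, c4⟩ := bst_node.1 a1
    obtain ⟨d1, d2, d3, d4⟩ := bd_node a1 b3
    have hpg : p < g := a3 p (by simp [inorder])
    have e1 : ∀ w ∈ inorder L, lm w (.node g (.node p L C) D) lo = lm w L lo := by
      intro w hw
      have := c3 w hw
      rw [lm_lt (by omega), lm_lt (by omega)]
    have e2 : ∀ w ∈ inorder L, rh w (.node g (.node p L C) D) hi = rh w L p := by
      intro w hw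
      have := c3 w hw
      rw [rh_lt (by omega), rh_lt (by omega)]
    have e7 : ∀ y ∈ inorder (.node g (.node p L C) D), y < x → y ∈ inorder L := by
      intro y hy hxy
      rcases mem_node.1 hy with hy | hy | hy
      · rcases mem_node.1 hy with hy | hy | hy
        · exact hy
        · omega
        · have := c4 y hy
          omega
      · omega
      · have := a4 y hy
        omega
    have hv := e7 v hv hx
    rw [e2 v hv] at hl
    obtain ⟨f1, f2, f3, f4, f5, f6⟩ := ends c1 d3 hv
    refine TH2_mono (ih c1 lo p d3 v hv hx hl) hv e1 e2 rfl rfl ?_ ?_ ?_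
    · intro k1 k2
      right; right; left
      rw [e1 v hv, e2 v hv]
      exact ⟨k1, by omega⟩
    · intro k
      rcases f5 with f5 | f5
      · exact absurd f5 k
      · exact ⟨f5, k⟩
    · intro y hy hxy _ _
      exact e7 y hy hxy
  | @lr p g R C D A B h1 h2 h3 ih =>
    intro hb lo hi hB v hv hx hl
    obtain ⟨a1, a2, a3, a4⟩ := bst_node.1 hb
    obtain ⟨b1, b2, b3, b4⟩ := bd_node hb hB
    obtain ⟨c1, c2, c3, c4⟩ := bst_node.1 a1
    obtain ⟨d1, d2, d3, d4⟩ := bd_node a1 b3
    have hpg : p < g := a3 p (by simp [inorder])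
    have e1 : ∀ w ∈ inorder R, lm w (.node g (.node p C R) D) lo = lm w R p := by
      intro w hw
      have := c4 w hw
      have := d4 w hw
      rw [lm_lt (by omega), lm_gt (by omega)]
    have e2 : ∀ w ∈ inorder R, rh w (.node g (.node p C R) D) hi = rh w R g := by
      intro w hw
      have := c4 w hw
      have := d4 w hw
      rw [rh_lt (by omega), rh_gt (by omega)]
    have e7 : ∀ y ∈ inorder (.node g (.node p C R) D), y < x → p < y → y ∈ inorder R := by
      intro y hy hxy hyp
      rcases mem_node.1 hy with hy | hy | hy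
      · rcases mem_node.1 hy with hy | hy | hy
        · have := c3 y hy
          omega
        · omega
        · exact hy
      · omega
      · have := a4 y hy
        omega
    rcases mem_node.1 hv with hv | hv | hv
    · rcases mem_node.1 hv with hv | hv | hv
      · have f0 := c3 v hv
        obtain ⟨f1, f2, f3, f4, f5, f6⟩ := ends c1 d3 hv
        rw [rh_lt (show v < g by omega), rh_lt f0] at hl
        omega
      · subst hv
        right; right; left
        rw [lm_lt hpg, lm_self, rh_lt hpg, rh_self]
        exact ⟨rfl, by omega⟩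
      · have f0 := c4 v hv
        have f00 := d4 v hv
        rw [e2 v hv] at hl
        obtain ⟨f1, f2, f3, f4, f5, f6⟩ := ends c2 d4 hv
        refine TH2_mono (ih c2 p g d4 v hv hx hl) hv e1 e2 ?_ ?_ ?_ ?_ ?_
        · rw [rh_gt f0]
        · rw [lm_gt f0]
        · intro k1 k2
          right; right; right; left
          rw [e1 v hv, e2 v hv, k1, rh_lt hpg, rh_self]
          exact ⟨by omega, by omega⟩
        · intro k
          rcases f5 with f5 | f5
          · exact absurd f5 k
          · exact ⟨f5, by omega⟩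
        · intro y hy hxy _ hr
          have hyr : lm y (.node g (.node p C R) D) lo < y := (ends hb hB hy).2.1
          exact e7 y hy hxy (by omega)
    · omega
    · have := a4 v hv
      omega

private theorem TH2_spl {x : ℕ} {t A B : BinaryTree ℕ} (h : Spl x t A B) (hb : IsBST t) {lo hi : ℕ}
    (hB : Bd lo hi t) {v : ℕ} (hv : v ∈ inorder t) (hx : v < x) (hl : x < rh v t hi)
    (hr : lm v t lo ≠ lo) : TH2_P x t A lo hi v := by
  cases h with
  | ev h => exact TH2_ev h hb lo hi hB v hv hx hl
  | @zr g R D A B h1 h2 =>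
    obtain ⟨a1, a2, a3, a4⟩ := bst_node.1 hb
    obtain ⟨b1, b2, b3, b4⟩ := bd_node hb hB
    have e1 : ∀ w ∈ inorder R, lm w (.node g D R) lo = lm w R g := by
      intro w hw
      rw [lm_gt (a4 w hw)]
    have e2 : ∀ w ∈ inorder R, rh w (.node g D R) hi = rh w R hi := by
      intro w hw
      rw [rh_gt (a4 w hw)]
    rcases mem_node.1 hv with hv | hv | hv
    · have f0 := a3 v hv
      obtain ⟨f1, f2, f3, f4, f5, f6⟩ := ends a1 b3 hv
      rw [rh_lt f0] at hl
      omega
    · subst hv
      rw [lm_self] at hr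
      exact absurd rfl hr
    · have f0 := a4 v hv
      rw [e2 v hv] at hl
      obtain ⟨f1, f2, f3, f4, f5, f6⟩ := ends a2 b4 hv
      refine TH2_mono (TH2_ev h2 a2 g hi b4 v hv hx hl) hv e1 e2 ?_ ?_ ?_ ?_ ?_
      · rw [rh_gt f0]
      · rw [lm_gt f0]
      · intro k1 k2
        right; right; right; left
        rw [e1 v hv, e2 v hv, k1, rh_self]
        exact ⟨by omega, fun k => k2 k.symm⟩
      · intro k
        rcases f5 with f5 | f5
        · exact absurd f5 k
        · exact ⟨f5, by omega⟩
      · intro y hy hxy _ hr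
        have hyr : lm y (.node g D R) lo < y := (ends hb hB hy).2.1
        rcases mem_node.1 hy with hy | hy | hy
        · have := a3 y hy
          omega
        · omega
        · exact hy
  | @zl g L D A B h1 h2 =>
    obtain ⟨a1, a2, a3, a4⟩ := bst_node.1 hb
    obtain ⟨b1, b2, b3, b4⟩ := bd_node hb hB
    have e1 : ∀ w ∈ inorder L, lm w (.node g L D) lo = lm w L lo := by
      intro w hw
      rw [lm_lt (a3 w hw)]
    have e2 : ∀ w ∈ inorder L, rh w (.node g L D) hi = rh w L g := by
      intro w hw
      rw [rh_lt (a3 w hw)]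
    have e7 : ∀ y ∈ inorder (.node g L D), y < x → y ∈ inorder L := by
      intro y hy hxy
      rcases mem_node.1 hy with hy | hy | hy
      · exact hy
      · omega
      · have := a4 y hy
        omega
    have hv := e7 v hv hx
    rw [e2 v hv] at hl
    obtain ⟨f1, f2, f3, f4, f5, f6⟩ := ends a1 b3 hv
    refine TH2_mono (TH2_ev h2 a1 lo g b3 v hv hx hl) hv e1 e2 rfl rfl ?_ ?_ ?_
    · intro k1 k2
      right; right; left
      rw [e1 v hv, e2 v hv]
      exact ⟨k1, by omega⟩
    · intro k
      rcases f5 with f5 | f5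
      · exact absurd f5 k
      · exact ⟨f5, k⟩
    · intro y hy hxy _ _
      exact e7 y hy hxy

private theorem TH2_splay {x : ℕ} {t : BinaryTree ℕ} (hb : IsBST t) (hm : x ∈ inorder t) {lo hi : ℕ}
    (hB : Bd lo hi t) {v : ℕ} (hv : v ∈ inorder t) (hx : v < x) (hl : x < rh v t hi)
    (hr : lm v t lo ≠ lo) :
    rh v (splay x t) hi ≠ x ∨ lm v (splay x t) lo ≠ lm v t lo ∨ rh (lm v t lo) t hi ≠ rh v t hi ∨
    (∀ y ∈ inorder t, y < x → x < rh y t hi → lm y t lo = v → rh y t hi ≠ rh v t hi) := by
  obtain ⟨A, B, h1, h2⟩ := spl_exists hb hm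
  rw [h2, lm_lt hx, rh_lt hx]
  rcases TH2_spl h1 hb hB hv hx hl hr with h | h | ⟨h, _⟩ | ⟨_, h⟩ | h
  · exact Or.inl h
  · exact Or.inr (Or.inl h)
  · exact absurd h hr
  · exact Or.inr (Or.inr (Or.inl h))
  · exact Or.inr (Or.inr (Or.inr h))

/-- **Module TH2.** -/
theorem thr_mir {T : BinaryTree ℕ} {X : ℕ → ℕ} {m top : ℕ} (hb : IsBST T)
    (hX : ∀ t, t < m → X t ∈ inorder T) (hB : Bd 0 top T) : Thr (sysOf T X m top hb hX hB).mir := by
  intro t y' hy' hv' hu' hl1 hl2
  set S := sysOf T X m top hb hX hB with hS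
  obtain ⟨y, hyK, rfl⟩ := Sys.mir_mem.1 hy'.2.1
  have ht : t < S.m := hy'.1
  have hy : S.L t y := (Sys.mir_R hyK).1 hy'
  rw [Sys.mir_rho hyK] at hv' hu' hl1 hl2 ⊢
  have hlamK : ∀ w ∈ S.K, S.mir.R t (S.top - S.lam t w) → S.lam t w ∈ S.K := by
    intro w hw h
    rcases S.lam_mem t ht.le w hw with k | k
    · exfalso
      have := (S.mir.key _ h.2.1).2
      rw [k] at this
      change S.top - 0 < S.top at this
      omega
    · exact k
  have hvK := hlamK y hyK hv'
  obtain ⟨v, hvd⟩ : ∃ v, v = S.lam t y := ⟨_, rfl⟩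
  rw [← hvd] at hv' hu' hl1 hl2 hvK ⊢
  have hv : S.L t v := (Sys.mir_R hvK).1 hv'
  rw [Sys.mir_rho hvK] at hu' hl2 ⊢
  have huK := hlamK v hvK hu'
  obtain ⟨u, hud⟩ : ∃ u, u = S.lam t v := ⟨_, rfl⟩
  rw [← hud] at hu' hl2 huK ⊢
  have hu : S.L t u := (Sys.mir_R huK).1 hu'
  rw [Sys.mir_lam hvK, Sys.mir_lam hyK] at hl1
  rw [Sys.mir_lam huK, Sys.mir_lam hyK] at hl2
  have r1 := S.rho_le_top ht.le hyK
  have r2 := S.rho_le_top ht.le hvK
  have r3 := S.rho_le_top ht.le huK
  have q1 := S.key y hyK
  have q2 := S.key v hvK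
  have q3 := S.key u huK
  obtain ⟨h1, h2⟩ := tr_inv hb hX t (show t ≤ m from le_of_lt ht)
  have h3 : Bd 0 top (tr T X t) := by
    intro w hw
    rw [h2] at hw
    exact hB w hw
  have h4 : X t ∈ inorder (tr T X t) := by
    rw [h2]
    exact hX t ht
  have hmem : ∀ w, w ∈ S.K → w ∈ inorder (tr T X t) := by
    intro w hw
    rw [h2]
    exact List.mem_toFinset.1 hw
  have hne : lm v (tr T X t) 0 ≠ 0 := by
    change S.lam t v ≠ 0
    omega
  have key := TH2_splay h1 h4 h3 (hmem v hvK) hv.2.2.1 hv.2.2.2 hne
  have hxt : S.X t < S.top := (S.key _ (S.req t ht)).2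
  rcases key with k | k | k | k
  · -- `v` is killed
    left
    change S.rho (t + 1) v ≠ S.X t at k
    rcases S.left t ht v hvK hv.2.2.1 with c | ⟨_, c, _⟩ | ⟨c1, p, c2, c3, c4, c5, c6, c7, c8, c9, c10⟩
    · have := hv.2.2.2
      omega
    · exact absurd c k
    · have hp : S.L t p := ⟨ht, c2, c3, by omega⟩
      have hpy : p = y := by
        rcases lt_trichotomy p y with c | c | c
        · have := (Sys.L_above hp hy c).1
          omega
        · exact c
        · have := (Sys.L_above hy hp c).1
          have := S.lam_lt t ht.le y hyK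
          omega
      subst hpy
      refine ⟨hv', ?_, ?_⟩
      · change S.top - S.X t < _
        have := hy.2.2.1
        omega
      · rw [Sys.mir_lam hvK, c5]
  · -- `v` kills
    right
    change S.lam (t + 1) v ≠ S.lam t v at k
    rcases S.left t ht v hvK hv.2.2.1 with c | ⟨_, c, c'⟩ | ⟨c1, p, c2, c3, c4, c5, c6, _⟩
    · exact absurd c.2.1 k
    · rcases c' with c' | ⟨d1, d2, d3, d4, d5⟩
      · exact absurd c' k
      · refine ⟨hu', ?_, ?_⟩
        · change S.top - S.X t < _
          have := hv.2.2.1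
          omega
        · rw [Sys.mir_lam huK]
          rw [hud, d3]
    · exact absurd c6 k
  · exfalso
    change S.rho t (S.lam t v) ≠ S.rho t v at k
    rw [← hud] at k
    omega
  · exfalso
    have := k y (hmem y hyK) hy.2.2.1 hy.2.2.2 hvd.symm
    change S.rho t y ≠ S.rho t v at this
    omega

end Pool.Agent.SplLs
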