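import Pool.Agent.SplLs.Lvl
import Pool.Agent.SplLs.Thr
import Pool.Agent.SplLog.Final
import Pool.Agent.SplPat.Final

set_option autoImplicit false

/-!
# Splaying pattern-avoiding sequences costs `O((n + m) log* n)`
-/

namespace Pool.Agent.SplLs

open BinaryTree Pool.Agent.MP_c42954_lc.Scan Pool.Agent.SplLog Pool.Agent.SplPat

open scoped Classical in
/-- **Module FI1.**  HINT.  `onP_iff` / `mem_ancs` (SplLog.Touch, SplAll): the proper ancestors of `X t` in the tree of time `t` are the touched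
nodes `≠ X t`, the depth is their number (`ancs` has length `depth`; it has no duplicates).  See `Final.final_dirs`, `run_cost`. -/
theorem depth_le {T : BinaryTree ℕ} {X : ℕ → ℕ} {m top : ℕ} (hb : IsBST T)
    (hX : ∀ t, t < m → X t ∈ inorder T) (hB : Bd 0 top T) {t : ℕ} (ht : t < m) :
    depth (X t) (tr T X t) ≤
      ((sysOf T X m top hb hX hB).K.filter (fun v => v ≠ X t ∧
        (sysOf T X m top hb hX hB).E t v)).card := by
  obtain ⟨h1, h2⟩ := tr_inv hb hX t ht.le
  have h3 : Bd 0 top (tr T X t) := by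
    intro w hw
    rw [h2] at hw
    exact hB w hw
  have h5 : X t ∈ inorder (tr T X t) := by
    rw [h2]
    exact hX t ht
  rw [← ancs_length, ← List.toFinset_card_of_nodup (ancs_nodup h1 h5)]
  apply Finset.card_le_card
  intro v hv
  rw [List.mem_toFinset] at hv
  obtain ⟨h6, h7⟩ := (mem_ancs h1 h5).1 hv
  have h8 : v ∈ inorder (tr T X t) := onP_mem h6
  have h9 : v ∈ (inorder T).toFinset := by
    rw [List.mem_toFinset, ← h2]
    exact h8
  rw [Finset.mem_filter]
  refine ⟨h9, h7, ?_⟩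
  have h10 := (onP_iff h1 h3 h8 h5).1 h6
  rcases lt_trichotomy v (X t) with h | h | h
  · exact Or.inr (Or.inl ⟨ht, h9, h, h10.2⟩)
  · exact absurd h h7
  · exact Or.inl ⟨ht, h9, h, h10.1⟩

/-- **Module FI2.**  HINT.  Run on the keys of `[2^A, 2^(A+1))`: `S = sysOf …` satisfies `Thr S`, `Thr S.mir` (`thr_sys`, `thr_mir`), `Rng S A`
(top = 2^(A+1)); `cells_le` gives `D = c * (m + 3 * 2^A)` (`X t < 2^(A+1)`, `2^j ≤ 2^A`); all keys have `v / 2^A = 1`; `levels` with
`a = A`. -/
theorem run_total (k : ℕ) : ∃ C : ℕ, ∀ (π : Equiv.Perm (Fin k)) (T : BinaryTree ℕ) (X : ℕ → ℕ)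
    (m A : ℕ), IsBST T → (∀ t, t < m → X t ∈ inorder T) →
    (∀ v ∈ inorder T, 2 ^ A ≤ v ∧ v < 2 ^ (A + 1)) → Avoids π m X →
    ∑ t ∈ Finset.range m, depth (X t) (tr T X t) ≤ C * (m + 2 ^ A) * lev A := by
  classical
  obtain ⟨c, hc⟩ := cells_le k
  refine ⟨96 + 2400000 * c, ?_⟩
  intro π T X m A hb hX hA hav
  have hB : Bd 0 (2 ^ (A + 1)) T := by
    intro v hv
    have h1 := hA v hv
    have h2 : 0 < 2 ^ A := by positivity
    exact ⟨by omega, h1.2⟩
  set S := sysOf T X m (2 ^ (A + 1)) hb hX hB with hS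
  have hT : Thr S := thr_sys hb hX hB
  have hT' : Thr S.mir := thr_mir hb hX hB
  have hR : Rng S A := ⟨rfl, fun v hv => (hA v (List.mem_toFinset.1 hv)).1⟩
  have hD : ∀ j, j ≤ A → 2 ^ j * (cells (2 ^ j) S.m S.X).card ≤ c * (m + 3 * 2 ^ A) := by
    intro j hj
    have h1 := hc π X m (2 ^ (A + 1)) (2 ^ j) (by positivity) hav
      (fun t ht => (hA _ (hX t ht)).2)
    refine h1.trans (Nat.mul_le_mul_left _ ?_)
    have h2 : 2 ^ j ≤ 2 ^ A := Nat.pow_le_pow_right (by norm_num) hj
    have h3 : 2 ^ (A + 1) = 2 * 2 ^ A := by ring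
    omega
  have h1 := levels hT hT' hR le_rfl hD
  have hkey : ∀ v ∈ S.K, v / 2 ^ A = 1 := by
    intro v hv
    have h2 := hA v (List.mem_toFinset.1 hv)
    have h3 : 2 ^ (A + 1) = 2 ^ A * 2 := by ring
    have h4 : 0 < 2 ^ A := by positivity
    apply Nat.div_eq_of_lt_le
    · omega
    · omega
  have h2 : ∑ t ∈ Finset.range m, depth (X t) (tr T X t) ≤
      ∑ t ∈ Finset.range S.m, (lvl S A 0 t).card := by
    apply Finset.sum_le_sum
    intro t ht
    rw [Finset.mem_range] at ht
    refine (depth_le hb hX hB ht).trans (Finset.card_le_card ?_)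
    intro v hv
    rw [Finset.mem_filter] at hv
    obtain ⟨hv1, hv2, hv3⟩ := hv
    unfold lvl
    rw [Finset.mem_filter]
    refine ⟨hv1, hv3, ?_, ?_⟩
    · rw [hkey v hv1, hkey (S.X t) (S.req t ht)]
    · rw [pow_zero, Nat.div_one, Nat.div_one]
      exact hv2
  refine (h2.trans h1).trans ?_
  rw [Nat.mul_comm (lev A)]
  apply Nat.mul_le_mul_right
  have h3 : S.m = m := rfl
  rw [h3]
  nlinarith [Nat.zero_le (c * 2 ^ A), Nat.zero_le (c * m), Nat.zero_le (2 ^ A), Nat.zero_le m]

private theorem Fin_logStar_le {n : ℕ} (hn : 1 ≤ n) :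
    lev (Nat.log 2 n + 1) ≤ 1 + logStar n := by
  have h1 := lev_le (a := Nat.log 2 n + 1) (x := Nat.log 2 n) (by omega)
  have h2 : logStar (Nat.log 2 n) ≤ logStar n := by
    rcases Nat.lt_or_ge 1 n with h | h
    · rw [logStar.eq_def n, dif_neg (by omega)]
      omega
    · have : n = 1 := by omega
      subst this
      simp [logStar]
  omega

/-- **Module FI3.**  HINT.  As `splay_total` in SplPat.Final: relabel the keys by `2^A + rank`, `A = Nat.log 2 n + 1` (`mapT`, `REL_rank`,
`REL_cost`, ...), `cost_eq`, `lev_le` with `x = Nat.log 2 n` (`A ≤ x + 2`, `logStar n = 1 + logStar (Nat.log 2 n)` for `n ≥ 2`),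
`2^A ≤ 2 n`. -/
theorem splay_logStar (k : ℕ) : ∃ C : ℕ, ∀ (π : Equiv.Perm (Fin k)) (T : BinaryTree ℕ) (X : List ℕ),
    IsBST T → (∀ x ∈ X, x ∈ inorder T) → AvoidsL π X →
    splayCost X T ≤ C * (X.length + (inorder T).length) *
      (1 + logStar (inorder T).length) := by
  obtain ⟨C, hC⟩ := run_total k
  refine ⟨2 * C + 1, fun π T X hb hX hav => ?_⟩
  rcases Nat.eq_zero_or_pos X.length with h0 | h0
  · have : X = [] := List.length_eq_zero_iff.mp h0
    subst this
    simp [splayCost]
  set K := inorder T with hK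
  have hn : 1 ≤ K.length := by
    obtain ⟨x, hx⟩ := List.exists_mem_of_length_pos h0
    exact List.length_pos_of_mem (hX x hx)
  set n := K.length with hnd
  set A := Nat.log 2 n + 1 with hA
  set f : ℕ → ℕ := fun v => 2 ^ A + REL_rank K v with hf
  have hnA : n < 2 ^ A := Nat.lt_pow_succ_log_self (by norm_num) n
  have hAn : 2 ^ A ≤ 2 * n := by
    have h1 : 2 ^ Nat.log 2 n ≤ n := Nat.pow_log_le_self 2 (by omega)
    rw [hA, pow_succ]
    omega
  set X' := X.map f with hX'
  set T' := mapT f T with hT'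
  have hlen : X'.length = X.length := List.length_map _
  have hfl : ∀ a ∈ K, ∀ b, a < b → f a < f b := by
    intro a ha b hab
    have := REL_rank_lt K ha hab
    simp only [hf]
    omega
  have hb' : IsBST T' := by
    have h1 : (K.map f).Pairwise (· < ·) := by
      rw [List.pairwise_map]
      have hpw : K.Pairwise (· < ·) := hb
      refine List.Pairwise.imp_of_mem (fun {a b} ha hb' hab => ?_) hpw
      exact hfl a ha b hab
    unfold IsBST
    rw [hT', mapT_inorder]
    exact h1
  have hmem' : ∀ x ∈ X', x ∈ inorder T' := by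
    intro x hx
    rw [hX', List.mem_map] at hx
    obtain ⟨y, hy, rfl⟩ := hx
    rw [hT', mapT_inorder]
    exact List.mem_map_of_mem (hX y hy)
  have hcost : splayCost X' T' = splayCost X T :=
    REL_cost (fun x hx a ha => ⟨fun h => hfl _ hx _ h, fun h => hfl _ ha _ h⟩) X T hb rfl hX
  have hrng : ∀ v ∈ inorder T', 2 ^ A ≤ v ∧ v < 2 ^ (A + 1) := by
    intro v hv
    rw [hT', mapT_inorder, List.mem_map] at hv
    obtain ⟨y, hy, rfl⟩ := hv
    have h1 := REL_rank_len K hy
    have h2 : 2 ^ (A + 1) = 2 * 2 ^ A := by ring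
    simp only [hf]
    omega
  have hav' : Avoids π X'.length (fun i => X'.getD i 0) := by
    rw [hlen]
    rintro ⟨g, hg, hm, hp⟩
    apply hav
    refine ⟨fun i => ⟨g i, hm i⟩, fun i j hij => hg hij, fun i j hij => ?_⟩
    have h1 := hp i j hij
    have h2 : ∀ i, X'.getD (g i) 0 = f (X.get ⟨g i, hm i⟩) := by
      intro i
      rw [List.getD_eq_getElem _ 0 (by rw [List.length_map]; exact hm i), List.getElem_map]
      rfl
    simp only [h2] at h1
    by_contra h3
    have h3' : X.get ⟨g j, hm j⟩ ≤ X.get ⟨g i, hm i⟩ := not_lt.mp h3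
    have h4 := REL_rank_mono K h3'
    simp only [hf] at h1
    omega
  have h5 := hC π T' (fun i => X'.getD i 0) X'.length A hb' (getD_mem hmem') hrng hav'
  have h6 := cost_eq X' T'
  rw [hcost] at h6
  rw [h6, hlen]
  rw [hlen] at h5
  have h7 := Fin_logStar_le hn
  have h8 : C * (X.length + 2 ^ A) * lev A ≤
      C * (2 * (X.length + n)) * (1 + logStar n) := by
    apply Nat.mul_le_mul
    · apply Nat.mul_le_mul_left
      omega
    · exact h7
  have h9 : X.length ≤ (X.length + n) * (1 + logStar n) := by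
    calc X.length ≤ (X.length + n) * 1 := by omega
      _ ≤ (X.length + n) * (1 + logStar n) := Nat.mul_le_mul_left _ (by omega)
  calc X.length + ∑ t ∈ Finset.range X.length,
        depth (X'.getD t 0) (tr T' (fun s => X'.getD s 0) t)
      ≤ (X.length + n) * (1 + logStar n) + C * (2 * (X.length + n)) * (1 + logStar n) :=
        Nat.add_le_add h9 (h5.trans h8)
    _ = (2 * C + 1) * (X.length + n) * (1 + logStar n) := by ring

end Pool.Agent.SplLs
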