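import Pool.Agent.SplLog.Mir

set_option autoImplicit false

/-!
# Structures on intervals of keys: definitions

`S : Sys` is the system of subtree intervals of a run of splays.  The interval `[l, r)` consists of
the keys `v` with `l ≤ v < r`; always `1 ≤ l` and `r ≤ S.top`.  The mirror image of `[l, r)` is
`[S.top + 1 - r, S.top + 1 - l)`, see `ml`.  A request `X t < l` touches the nodes of `[l, r)` on
the right side only (`S.R`).

* `gR S t l r`: the lower nodes `v` of the GOOD pairs `(v, rho v)` of touched nodes of `[l, r)`: `v`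
  kills `rho v`, or the search path turns between them.
* `StR S t l r c a b`: the step inequality of a structure with constant `c`, potential `a` before
  and `b` after the request `t`.
* `cp S t l r Λ lo hi c`: the potential of the composition of the pieces `[lo k, hi k)`, `k ∈ Λ`.
-/

namespace Pool.Agent.SplLs

open Pool.Agent.SplLog
open scoped Classical

/-- Of three consecutive nodes on the right side of the search path, with no turn between them,
the middle one is killed or kills. -/
def Thr (S : Sys) : Prop :=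
  ∀ t y, S.R t y → S.R t (S.rho t y) → S.R t (S.rho t (S.rho t y)) →
    S.lam t (S.rho t y) = S.lam t y → S.lam t (S.rho t (S.rho t y)) = S.lam t y →
    S.Kl t (S.rho t y) y ∨ S.Kl t (S.rho t (S.rho t y)) (S.rho t y)

/-- The nodes of `[l, r)` touched on the right side. -/
noncomputable def tR (S : Sys) (t l r : ℕ) : Finset ℕ :=
  S.K.filter (fun v => l ≤ v ∧ v < r ∧ S.R t v)

/-- The nodes of `[l, r)` touched (on any side). -/
noncomputable def tE (S : Sys) (t l r : ℕ) : Finset ℕ :=
  S.K.filter (fun v => l ≤ v ∧ v < r ∧ S.E t v)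

/-- The lower nodes of the good pairs of `[l, r)` on the right side. -/
noncomputable def gR (S : Sys) (t l r : ℕ) : Finset ℕ :=
  S.K.filter (fun v => l ≤ v ∧ S.R t v ∧ S.rho t v < r ∧
    (S.Kl t (S.rho t v) v ∨ S.lam t (S.rho t v) ≠ S.lam t v))

/-- `1` if the killed node or the killer of some kill on the right side lies in `[l, r)`. -/
noncomputable def kR (S : Sys) (t l r : ℕ) : ℕ :=
  if ∃ g p, S.Kl t g p ∧ ((l ≤ g ∧ g < r) ∨ (l ≤ p ∧ p < r)) then 1 else 0

/-- The step inequality of a structure on `[l, r)`, for requests on the left of `[l, r)`. -/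
def StR (S : Sys) (t l r c a b : ℕ) : Prop :=
  S.X t < l → (gR S t l r).card + b ≤ a + c * kR S t l r

/-- The left end of the mirror image of `[l, r)` (its right end is `ml S l`). -/
def ml (S : Sys) (r : ℕ) : ℕ := S.top + 1 - r

/-- The step inequality of a structure on `[l, r)`, for both sides. -/
def St (S : Sys) (t l r c a b : ℕ) : Prop :=
  StR S t l r c a b ∧ StR S.mir t (ml S r) (ml S l) c a b

/-- The nodes of `[a, b)` which are exposed on the left of `l`. -/
noncomputable def exL (S : Sys) (t l a b : ℕ) : Finset ℕ :=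
  S.K.filter (fun v => a ≤ v ∧ v < b ∧ S.lam t v < l)

/-- The nodes of `[a, b)` which are exposed on the right of `r`. -/
noncomputable def exR (S : Sys) (t r a b : ℕ) : Finset ℕ :=
  S.K.filter (fun v => a ≤ v ∧ v < b ∧ r ≤ S.rho t v)

/-- `u` and `v` lie in the same piece. -/
def Same {ι : Type*} (Λ : Finset ι) (lo hi : ι → ℕ) (u v : ℕ) : Prop :=
  ∃ k ∈ Λ, (lo k ≤ u ∧ u < hi k) ∧ (lo k ≤ v ∧ v < hi k)

/-- The nodes `v` of `[l, r)` exposed on the left whose right end `rho v` lies in another piece of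
`[l, r)`, with a turn between `v` and `rho v`. -/
noncomputable def dL (S : Sys) (t l r : ℕ) {ι : Type*} (Λ : Finset ι) (lo hi : ι → ℕ) :
    Finset ℕ :=
  S.K.filter (fun v => l ≤ v ∧ S.lam t v < l ∧ S.rho t v < r ∧ ¬ Same Λ lo hi v (S.rho t v) ∧
    S.lam t (S.rho t v) ≠ S.lam t v)

/-- The mirror image of `dL`. -/
noncomputable def dR (S : Sys) (t l r : ℕ) {ι : Type*} (Λ : Finset ι) (lo hi : ι → ℕ) :
    Finset ℕ :=
  S.K.filter (fun v => v < r ∧ r ≤ S.rho t v ∧ l ≤ S.lam t v ∧ ¬ Same Λ lo hi v (S.lam t v) ∧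
    S.rho t (S.lam t v) ≠ S.rho t v)

/-- `[l, r)` is the disjoint union of the nonempty intervals `[lo k, hi k)`, `k ∈ Λ`. -/
structure Cut (l r : ℕ) {ι : Type*} (Λ : Finset ι) (lo hi : ι → ℕ) : Prop where
  lt : ∀ k ∈ Λ, lo k < hi k
  left : ∀ k ∈ Λ, l ≤ lo k
  right : ∀ k ∈ Λ, hi k ≤ r
  cov : ∀ v, l ≤ v → v < r → ∃ k ∈ Λ, lo k ≤ v ∧ v < hi k
  disj : ∀ k ∈ Λ, ∀ k' ∈ Λ, k ≠ k' → hi k ≤ lo k' ∨ hi k' ≤ lo k

/-- The capped numbers of exposed nodes of the pieces. -/
noncomputable def cx (S : Sys) (t l r : ℕ) {ι : Type*} (Λ : Finset ι) (lo hi : ι → ℕ) (K : ℕ) : ℕ :=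
  ∑ k ∈ Λ, (min K (exL S t l (lo k) (hi k)).card + min K (exR S t r (lo k) (hi k)).card)

/-- The potential of a composition (without the potentials of the pieces). -/
noncomputable def cp (S : Sys) (t l r : ℕ) {ι : Type*} (Λ : Finset ι) (lo hi : ι → ℕ) (c : ℕ) : ℕ :=
  (4 * c + 1) * cx S t l r Λ lo hi (8 * c + 5) + (dL S t l r Λ lo hi).card +
    (dR S t l r Λ lo hi).card

/-- The potential of a block: the composition of its keys. -/
noncomputable def Psi (S : Sys) (t l r : ℕ) : ℕ :=
  cp S t l r (Finset.Ico l r) (fun v => v) (fun v => v + 1) 0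

end Pool.Agent.SplLs
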