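import Pool.Agent.SplPat.Final

set_option autoImplicit false

/-!
# Preorders of search trees avoid the pattern 231
-/

namespace Pool.Agent.SplLs

open BinaryTree Pool.Agent.MP_c42954_lc.Scan Pool.Agent.SplPat

/-- The keys of a tree in preorder: root, left subtree, right subtree. -/
def preorder : BinaryTree ℕ → List ℕ
  | .nil => []
  | .node a l r => a :: (preorder l ++ preorder r)

theorem mem_preorder {v : ℕ} : ∀ {t : BinaryTree ℕ}, v ∈ preorder t ↔ v ∈ inorder t
  | .nil => by simp [preorder, inorder]
  | .node a l r => by
      simp only [preorder, inorder, List.mem_cons, List.mem_append, mem_preorder (t := l),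
        mem_preorder (t := r)]
      tauto

theorem length_preorder : ∀ t : BinaryTree ℕ, (preorder t).length = (inorder t).length
  | .nil => rfl
  | .node a l r => by
      simp only [preorder, inorder, List.length_cons, List.length_append, length_preorder l,
        length_preorder r]
      omega

/-- No `x, y, z` in this order with `z < x < y`. -/
theorem preorder_sub : ∀ {t : BinaryTree ℕ}, IsBST t → ∀ {x y z : ℕ},
    List.Sublist [x, y, z] (preorder t) → z < x → ¬ x < y
  | .nil, _, x, y, z, h => by simp [preorder] at h
  | .node a l r, hb, x, y, z, h => by
      obtain ⟨h1, h2, h3, h4⟩ := bst_node.1 hb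
      intro hzx hxy
      have hl : ∀ v ∈ preorder l, v < a := fun v hv => h3 v (mem_preorder.1 hv)
      have hr : ∀ v ∈ preorder r, a < v := fun v hv => h4 v (mem_preorder.1 hv)
      rw [preorder, List.sublist_cons_iff] at h
      rcases h with h | ⟨q, hq, h⟩
      · rw [List.sublist_append_iff] at h
        obtain ⟨p, q, hpq, hp, hq⟩ := h
        rcases p with _ | ⟨p1, _ | ⟨p2, _ | ⟨p3, p⟩⟩⟩
        · simp only [List.nil_append] at hpq
          rw [← hpq] at hq
          exact preorder_sub h2 hq hzx hxy
        · simp only [List.cons_append, List.nil_append, List.cons.injEq] at hpq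
          obtain ⟨rfl, rfl⟩ := hpq
          have := hl x (hp.subset (by simp))
          have := hr z (hq.subset (by simp))
          omega
        · simp only [List.cons_append, List.nil_append, List.cons.injEq] at hpq
          obtain ⟨rfl, rfl, rfl⟩ := hpq
          have := hl x (hp.subset (by simp))
          have := hr z (hq.subset (by simp))
          omega
        · simp only [List.cons_append, List.cons.injEq] at hpq
          obtain ⟨rfl, rfl, rfl, hpq⟩ := hpq
          have : p = [] := by
            have := congrArg List.length hpq
            simp only [List.length_nil, List.length_append] at this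
            exact List.length_eq_zero_iff.1 (by omega)
          subst this
          exact preorder_sub h1 hp hzx hxy
      · simp only [List.cons.injEq] at hq
        obtain ⟨rfl, rfl⟩ := hq
        -- now `[y, z]` is a sublist of `preorder l ++ preorder r` and `x = a`
        rw [List.sublist_append_iff] at h
        obtain ⟨p, q, hpq, hp, hq⟩ := h
        rcases p with _ | ⟨p1, p⟩
        · simp only [List.nil_append] at hpq
          subst hpq
          have := hr z (hq.subset (by simp))
          omega
        · simp only [List.cons_append, List.cons.injEq] at hpq
          obtain ⟨rfl, _⟩ := hpq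
          have := hl y (hp.subset (by simp))
          omega

/-- The pattern 231. -/
def p231 : Equiv.Perm (Fin 3) := finRotate 3

theorem preorder_avoids {t : BinaryTree ℕ} (hb : IsBST t) : AvoidsL p231 (preorder t) := by
  rintro ⟨f, hf, h⟩
  have hsub : List.Sublist [(preorder t).get (f 0), (preorder t).get (f 1), (preorder t).get (f 2)]
      (preorder t) := by
    rw [List.sublist_iff_exists_fin_orderEmbedding_get_eq]
    refine ⟨OrderEmbedding.ofStrictMono (fun i => f i) ?_, ?_⟩
    · intro i j hij
      exact hf hij
    · intro i
      fin_cases i <;> rfl
  refine preorder_sub hb hsub ?_ ?_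
  · exact h 2 0 (by decide)
  · exact h 0 1 (by decide)

end Pool.Agent.SplLs
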