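import Pool.Agent.SplLs.Defs
import Pool.Agent.SplPat.Defs

set_option autoImplicit false

/-!
# Active blocks, items and idle runs: definitions

`X : ℕ → ℕ` are the requests at the times `< m`.  The block `i` of scale `j` is `[i 2^j, (i+1) 2^j)`, the
window `w` of scale `j` consists of the times `t` with `t / 2^j = w`.
-/

namespace Pool.Agent.SplLs

open Pool.Agent.SplLog

/-- The blocks of scale `j` which are requested in the window of scale `j` of the time `t`. -/
def act (m : ℕ) (X : ℕ → ℕ) (j t : ℕ) : Finset ℕ :=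
  ((Finset.range m).filter (fun s => s / 2 ^ j = t / 2 ^ j)).image (fun s => X s / 2 ^ j)

/-- The idle blocks of scale `j` whose parent (scale `j + 1`) is active. -/
def itm (m : ℕ) (X : ℕ → ℕ) (j t : ℕ) : Finset ℕ :=
  ((act m X (j + 1) t).biUnion (fun i => {2 * i, 2 * i + 1})) \ act m X j t

/-- The items at the time `t` between the scales `b` and `a`: pairs (scale, block). -/
def items (m : ℕ) (X : ℕ → ℕ) (a b t : ℕ) : Finset (ℕ × ℕ) :=
  (Finset.Ico b a).biUnion (fun j => (itm m X j t).image (fun i => (j, i)))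

/-- The blocks of scale `b` in the active blocks of scale `a`. -/
def blk (m : ℕ) (X : ℕ → ℕ) (a b t : ℕ) : Finset ℕ :=
  (act m X a t).biUnion (fun i => Finset.Ico (i * 2 ^ (a - b)) ((i + 1) * 2 ^ (a - b)))

/-- The maximal runs `q.1, ..., q.2` of idle blocks of scale `b` in an active block of scale `a`. -/
def runs (m : ℕ) (X : ℕ → ℕ) (a b t : ℕ) : Finset (ℕ × ℕ) :=
  (blk m X a b t ×ˢ blk m X a b t).filter (fun q => q.1 ≤ q.2 ∧
    q.1 / 2 ^ (a - b) = q.2 / 2 ^ (a - b) ∧ (∀ i ∈ Finset.Icc q.1 q.2, i ∉ act m X b t) ∧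
    (2 ^ (a - b) ∣ q.1 ∨ q.1 - 1 ∈ act m X b t) ∧ (2 ^ (a - b) ∣ q.2 + 1 ∨ q.2 + 1 ∈ act m X b t))

/-- The items in the run `q`. -/
def pcs (m : ℕ) (X : ℕ → ℕ) (a b t : ℕ) (q : ℕ × ℕ) : Finset (ℕ × ℕ) :=
  (items m X a b t).filter (fun p => q.1 ≤ p.2 * 2 ^ (p.1 - b) ∧ p.2 * 2 ^ (p.1 - b) ≤ q.2)

/-- The potential of an item `p` (scale, block) in the tree of time `s`: composition of blocks. -/
noncomputable def ph1 (S : Sys) (b s : ℕ) (p : ℕ × ℕ) : ℕ :=
  cp S s (p.2 * 2 ^ p.1) ((p.2 + 1) * 2 ^ p.1)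
    (Finset.Ico (p.2 * 2 ^ (p.1 - b)) ((p.2 + 1) * 2 ^ (p.1 - b)))
    (fun i => i * 2 ^ b) (fun i => (i + 1) * 2 ^ b) 3

/-- The potential of a run `q` of the time `t` in the tree of time `s`: composition of items. -/
noncomputable def ph2 (S : Sys) (a b t s : ℕ) (q : ℕ × ℕ) : ℕ :=
  cp S s (q.1 * 2 ^ b) ((q.2 + 1) * 2 ^ b) (pcs S.m S.X a b t q)
    (fun p => p.2 * 2 ^ p.1) (fun p => (p.2 + 1) * 2 ^ p.1) 27

/-- The total potential, with the items and runs of the time `t`, in the tree of time `s`. -/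
noncomputable def Pot (S : Sys) (a b t s : ℕ) : ℕ :=
  8 * ∑ i ∈ blk S.m S.X a b t, Psi S s (i * 2 ^ b) ((i + 1) * 2 ^ b) +
    4 * ∑ p ∈ items S.m S.X a b t, ph1 S b s p + 2 * ∑ q ∈ runs S.m S.X a b t, ph2 S a b t s q

open scoped Classical in
/-- The touched nodes of the level `(a, b)`: in the block of scale `a` of the request, not in its
block of scale `b`. -/
noncomputable def lvl (S : Sys) (a b t : ℕ) : Finset ℕ :=
  S.K.filter (fun v => S.E t v ∧ v / 2 ^ a = S.X t / 2 ^ a ∧ v / 2 ^ b ≠ S.X t / 2 ^ b)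

/-- The keys lie in `[2^A, 2^(A+1))`. -/
structure Rng (S : Sys) (A : ℕ) : Prop where
  top : S.top = 2 ^ (A + 1)
  low : ∀ v ∈ S.K, 2 ^ A ≤ v

/-- The cost of the re-initialisation at the time `s`. -/
def rei (m : ℕ) (X : ℕ → ℕ) (a b s : ℕ) : ℕ :=
  (if 2 ^ a ∣ s then 32 * 2 ^ a * (act m X a s).card else 0) +
    ∑ j ∈ Finset.Ico b a, (if 2 ^ j ∣ s then 6048 * 2 ^ (j - b) * (act m X (j + 1) s).card else 0) +
    (if 2 ^ b ∣ s then 192720 * ∑ j ∈ Finset.Ico b a, (act m X (j + 1) s).card else 0)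

/-- The iterated logarithm. -/
def logStar (n : ℕ) : ℕ := if h : n ≤ 1 then 0 else 1 + logStar (Nat.log 2 n)
termination_by n
decreasing_by exact Nat.log_lt_self 2 (by omega)

/-- The next scale. -/
def nxt (a : ℕ) : ℕ := if a ≤ 4 then 0 else Nat.log 2 a + 1

theorem nxt_lt {a : ℕ} (h : 0 < a) : nxt a < a := by
  unfold nxt
  split_ifs with h1
  · exact h
  · have h2 : Nat.log 2 a < a - 1 := by
      apply Nat.log_lt_of_lt_pow (by omega)
      obtain ⟨k, rfl⟩ : ∃ k, a = k + 5 := ⟨a - 5, by omega⟩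
      clear h h1
      show k + 5 < 2 ^ (k + 4)
      induction k with
      | zero => norm_num
      | succ k ih =>
        have : 2 ^ (k + 1 + 4) = 2 * 2 ^ (k + 4) := by ring
        omega
    omega

/-- The number of levels. -/
def lev (a : ℕ) : ℕ := if h : a = 0 then 0 else 1 + lev (nxt a)
termination_by a
decreasing_by exact nxt_lt (by omega)

end Pool.Agent.SplLs
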