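import Pool.Agent.SplLs.ADef

set_option autoImplicit false

/-!
# Active blocks: basic facts and counting
-/

namespace Pool.Agent.SplLs

open Pool.Agent.SplLog Pool.Agent.SplPat

variable {m : ℕ} {X : ℕ → ℕ} {a b i j s t : ℕ}

/-- **Module AC.** -/
theorem mem_act : i ∈ act m X j t ↔ ∃ s, s < m ∧ s / 2 ^ j = t / 2 ^ j ∧ X s / 2 ^ j = i := by
  simp only [act, Finset.mem_image, Finset.mem_filter, Finset.mem_range, and_assoc]

/-- **Module AC.** -/
theorem act_own (ht : t < m) : X t / 2 ^ j ∈ act m X j t := by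
  exact mem_act.2 ⟨t, ht, rfl, rfl⟩

/-- **Module AC.**  HINT.  `s / 2^j = t / 2^j → s / 2^(j+k) = t / 2^(j+k)`, `X s / 2^(j+k) = X s / 2^j / 2^k`
(`Nat.div_div_eq_div_mul`, `pow_add`). -/
theorem act_up (k : ℕ) (h : i ∈ act m X j t) : i / 2 ^ k ∈ act m X (j + k) t := by
  obtain ⟨s, h1, h2, h3⟩ := mem_act.1 h
  refine mem_act.2 ⟨s, h1, ?_, ?_⟩
  · rw [pow_add, ← Nat.div_div_eq_div_mul, ← Nat.div_div_eq_div_mul, h2]
  · rw [pow_add, ← Nat.div_div_eq_div_mul, h3]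

/-- **Module AC.** -/
theorem act_const (h : s / 2 ^ j = t / 2 ^ j) : act m X j s = act m X j t := by
  unfold act
  rw [h]

/-- **Module AC.**  HINT.  `(t + 1) / 2^j = t / 2^j` unless `2^j ∣ t + 1` (`Nat.succ_div`). -/
theorem act_succ (h : ¬ 2 ^ j ∣ t + 1) : act m X j (t + 1) = act m X j t := by
  exact act_const (Nat.succ_div_of_not_dvd h)

/-- **Module AC.**  HINT.  `2^j ∣ 2^k` for `j ≤ k`. -/
theorem itm_succ (h : ¬ 2 ^ j ∣ t + 1) : itm m X j (t + 1) = itm m X j t := by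
  have h' : ¬ 2 ^ (j + 1) ∣ t + 1 := fun h1 => h (dvd_trans (pow_dvd_pow 2 (Nat.le_succ j)) h1)
  unfold itm
  rw [act_succ h, act_succ h']

/-- **Module AC.** -/
theorem itm_card : (itm m X j t).card ≤ 2 * (act m X (j + 1) t).card := by
  unfold itm
  refine (Finset.card_le_card Finset.sdiff_subset).trans ?_
  refine Finset.card_biUnion_le.trans ?_
  calc ∑ i ∈ act m X (j + 1) t, ({2 * i, 2 * i + 1} : Finset ℕ).card
      ≤ ∑ _i ∈ act m X (j + 1) t, 2 := Finset.sum_le_sum fun i _ => Finset.card_le_two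
    _ = 2 * (act m X (j + 1) t).card := by
        rw [Finset.sum_const, smul_eq_mul, mul_comm]

private theorem AC_mem_itm : i ∈ itm m X j t ↔ i / 2 ∈ act m X (j + 1) t ∧ i ∉ act m X j t := by
  unfold itm
  rw [Finset.mem_sdiff, Finset.mem_biUnion]
  refine and_congr_left fun _ => ?_
  constructor
  · rintro ⟨k, hk, h⟩
    have : i / 2 = k := by
      simp only [Finset.mem_insert, Finset.mem_singleton] at h
      omega
    rwa [this]
  · intro h
    refine ⟨i / 2, h, ?_⟩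
    simp only [Finset.mem_insert, Finset.mem_singleton]
    omega

/-- **Module AC.**  HINT.  `i ∈ items` means: `b ≤ p.1 < a`, `p.2 / 2 ∈ act (p.1+1)`, `p.2 ∉ act p.1`. -/
theorem mem_items {p : ℕ × ℕ} : p ∈ items m X a b t ↔
    b ≤ p.1 ∧ p.1 < a ∧ p.2 / 2 ∈ act m X (p.1 + 1) t ∧ p.2 ∉ act m X p.1 t := by
  unfold items
  rw [Finset.mem_biUnion]
  constructor
  · rintro ⟨j, hj, h⟩
    rw [Finset.mem_image] at h
    obtain ⟨i, hi, rfl⟩ := h
    rw [Finset.mem_Ico] at hj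
    exact ⟨hj.1, hj.2, AC_mem_itm.1 hi⟩
  · rintro ⟨h1, h2, h3⟩
    exact ⟨p.1, Finset.mem_Ico.2 ⟨h1, h2⟩, Finset.mem_image.2 ⟨p.2, AC_mem_itm.2 h3, rfl⟩⟩

/-- **Module AC.** -/
theorem mem_blk : i ∈ blk m X a b t ↔ i / 2 ^ (a - b) ∈ act m X a t := by
  have hpos : 0 < 2 ^ (a - b) := by positivity
  unfold blk
  rw [Finset.mem_biUnion]
  constructor
  · rintro ⟨k, hk, h⟩
    rw [Finset.mem_Ico] at h
    have : i / 2 ^ (a - b) = k := Nat.div_eq_of_lt_le h.1 h.2
    rwa [this]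
  · intro h
    refine ⟨_, h, Finset.mem_Ico.2 ⟨Nat.div_mul_le_self _ _, ?_⟩⟩
    exact (Nat.div_lt_iff_lt_mul hpos).1 (Nat.lt_succ_self _)

/-- **Module AC.** -/
theorem blk_card : (blk m X a b t).card ≤ 2 ^ (a - b) * (act m X a t).card := by
  unfold blk
  refine Finset.card_biUnion_le.trans ?_
  rw [mul_comm, ← smul_eq_mul, ← Finset.sum_const]
  refine Finset.sum_le_sum fun i _ => ?_
  rw [Nat.card_Ico, Nat.succ_mul, Nat.add_sub_cancel_left]

/-- **Module CO.**  HINT.  The pairs `(t, i)` with `t < m`, `2^k ∣ t`, `i ∈ act j t` are mapped to the cell `(t / 2^j, i)` (a cell: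
`mem_act`, the request `s` has `s / 2^j = t / 2^j`), and every cell has at most `2^(j-k)` preimages: the multiples `t` of `2^k`
with `t / 2^j` given (`k ≤ j`).  E.g. `Finset.sum_comm` / `Finset.card_sigma` + `Finset.card_le_mul_card_image`. -/
theorem act_sum {k : ℕ} (hk : k ≤ j) :
    ∑ t ∈ (Finset.range m).filter (fun t => 2 ^ k ∣ t), (act m X j t).card ≤
      2 ^ (j - k) * (cells (2 ^ j) m X).card := by
  classical
  rw [← Finset.card_sigma]
  refine Finset.card_le_mul_card_image_of_maps_to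
    (f := fun q : (_ : ℕ) × ℕ => (q.1 / 2 ^ j, q.2)) ?_ _ ?_
  · rintro ⟨t, i⟩ h
    rw [Finset.mem_sigma] at h
    obtain ⟨s, h1, h2, h3⟩ := mem_act.1 h.2
    refine Finset.mem_image.2 ⟨s, Finset.mem_range.2 h1, ?_⟩
    simp only [h2, h3]
  · rintro ⟨w, i⟩ _
    have hkj : 2 ^ j = 2 ^ k * 2 ^ (j - k) := by
      rw [← pow_add, Nat.add_sub_cancel' hk]
    have hdiv : ∀ t : ℕ, t / 2 ^ j = t / 2 ^ k / 2 ^ (j - k) := by
      intro t
      rw [hkj, Nat.div_div_eq_div_mul]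
    have hpos : 0 < 2 ^ (j - k) := by positivity
    have hcard : (Finset.Ico (w * 2 ^ (j - k)) ((w + 1) * 2 ^ (j - k))).card = 2 ^ (j - k) := by
      rw [Nat.card_Ico, Nat.succ_mul, Nat.add_sub_cancel_left]
    rw [← hcard]
    refine Finset.card_le_card_of_injOn (fun q => q.1 / 2 ^ k) ?_ ?_
    · rintro ⟨t, i'⟩ h
      rw [Finset.mem_coe, Finset.mem_filter] at h
      obtain ⟨_, h2⟩ := h
      simp only [Prod.mk.injEq] at h2
      rw [Finset.mem_coe, Finset.mem_Ico]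
      have h3 : t / 2 ^ k / 2 ^ (j - k) = w := by
        rw [← hdiv]
        exact h2.1
      refine ⟨?_, ?_⟩
      · rw [← h3]
        exact Nat.div_mul_le_self _ _
      · rw [← h3]
        exact (Nat.div_lt_iff_lt_mul hpos).1 (Nat.lt_succ_self _)
    · rintro ⟨t, i1⟩ h ⟨t', i2⟩ h' he
      rw [Finset.mem_coe, Finset.mem_filter, Finset.mem_sigma, Finset.mem_filter] at h h'
      simp only [Prod.mk.injEq] at h h' he
      obtain ⟨⟨⟨_, h1⟩, _⟩, _, h2⟩ := h
      obtain ⟨⟨⟨_, h1'⟩, _⟩, _, h2'⟩ := h'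
      have e1 : t = t' := by
        rw [← Nat.div_mul_cancel h1, ← Nat.div_mul_cancel h1', he]
      have e2 : i1 = i2 := by rw [h2, h2']
      subst e1 e2
      rfl

end Pool.Agent.SplLs
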