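import Pool.Agent.SplLs.Fct

set_option autoImplicit false

namespace Pool.Agent.SplLs

open Pool.Agent.SplLog

variable {S : Sys} {t l r : ℕ}

/-- **Module CT.**  HINT.  Every `v ∈ tR` with `rho v < r` (so `rho v ∈ tR`) which is not the smallest
element of `tR` is `rho y` for some `y ∈ tR` (`exists_below`), and then by `Thr` `v ∈ gR` or `y ∈ gR`
(i.e. `v ∈ (gR).image rho`).  At most one `v ∈ tR` has `r ≤ rho v` (two touched nodes `v < w`: `R_up_le`:
`rho v ≤ w < r`).  So `tR ⊆ {min} ∪ {top one} ∪ gR ∪ gR.image (S.rho t)`. -/
theorem tR_le (hT : Thr S) (hr : r ≤ S.top) :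
    (tR S t l r).card ≤ 2 * (gR S t l r).card + 2 := by
  classical
  by_cases hne : (tR S t l r).Nonempty
  · set a := (tR S t l r).min' hne with ha
    set b := (tR S t l r).max' hne with hb
    have ha' := mem_tR.1 (Finset.min'_mem _ hne)
    have hb' := mem_tR.1 (Finset.max'_mem _ hne)
    rw [← ha] at ha'
    rw [← hb] at hb'
    have hs : tR S t l r ⊆ ({a} ∪ {b}) ∪ (gR S t l r ∪ (gR S t l r).image (S.rho t)) := by
      intro v hv
      have h1 : a ≤ v := Finset.min'_le _ _ hv
      have h2 : v ≤ b := Finset.le_max' _ _ hv
      rw [mem_tR] at hv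
      by_cases h3 : v = a
      · simp [h3]
      · by_cases h4 : v = b
        · simp [h4]
        · have h5 : a < v := lt_of_le_of_ne h1 (Ne.symm h3)
          have h6 : v < b := lt_of_le_of_ne h2 h4
          obtain ⟨h7, h8⟩ := R_up_le hv.2.2 hb'.2.2 h6
          obtain ⟨z, z1, z2, z3, z4⟩ := exists_below ha'.2.2 hv.2.2 h5
          apply Finset.mem_union_right
          by_cases h9 : S.lam t v = S.lam t z
          · by_cases h10 : S.lam t (S.rho t v) = S.lam t v
            · rcases hT t z z1 (by rw [z4]; exact hv.2.2) (by rw [z4]; exact h7)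
                (by rw [z4]; exact h9) (by rw [z4, h10, h9]) with h11 | h11
              · apply Finset.mem_union_right
                rw [Finset.mem_image]
                refine ⟨z, mem_gR.2 ⟨by omega, z1, by omega, Or.inl h11⟩, z4⟩
              · apply Finset.mem_union_left
                rw [z4] at h11
                exact mem_gR.2 ⟨hv.1, hv.2.2, by omega, Or.inl h11⟩
            · apply Finset.mem_union_left
              exact mem_gR.2 ⟨hv.1, hv.2.2, by omega, Or.inr h10⟩
          · apply Finset.mem_union_right
            rw [Finset.mem_image]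
            refine ⟨z, mem_gR.2 ⟨by omega, z1, by omega, Or.inr ?_⟩, z4⟩
            rw [z4]
            exact h9
    have h1 := Finset.card_le_card hs
    have h2 := Finset.card_union_le (({a} : Finset ℕ) ∪ {b})
      (gR S t l r ∪ (gR S t l r).image (S.rho t))
    have h3 := Finset.card_union_le ({a} : Finset ℕ) {b}
    have h4 := Finset.card_union_le (gR S t l r) ((gR S t l r).image (S.rho t))
    have h5 : ((gR S t l r).image (S.rho t)).card ≤ (gR S t l r).card := Finset.card_image_le
    rw [Finset.card_singleton, Finset.card_singleton] at h3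
    omega
  · rw [Finset.not_nonempty_iff_eq_empty] at hne
    rw [hne]
    simp

end Pool.Agent.SplLs
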