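import Pool.Agent.SplLs.Fct

set_option autoImplicit false

/-!
# Mirror images of the potentials
-/

namespace Pool.Agent.SplLs

open Pool.Agent.SplLog
open scoped Classical

variable {S : Sys} {t l r a b : ℕ} {ι : Type*} {Λ : Finset ι} {lo hi : ι → ℕ}

/-- Sets which correspond to each other in the mirror have the same size. -/
private theorem MC1_card {A B : Finset ℕ} (hA : A ⊆ S.mir.K) (hB : B ⊆ S.K)
    (h : ∀ u ∈ S.K, S.top - u ∈ A ↔ u ∈ B) : A.card = B.card := by
  have e : A = B.image (fun u => S.top - u) := by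
    ext v
    rw [Finset.mem_image]
    constructor
    · intro hv
      obtain ⟨u, hu, rfl⟩ := Sys.mir_mem.1 (hA hv)
      exact ⟨u, (h u hu).1 hv, rfl⟩
    · rintro ⟨u, hu, rfl⟩
      exact (h u (hB hu)).2 hu
  rw [e, Finset.card_image_of_injOn]
  intro u hu u' hu' he
  have h1 := S.key u (hB hu)
  have h2 := S.key u' (hB hu')
  simp only at he
  omega

/-- `Same` in the mirror. -/
private theorem MC2_same {u v : ℕ} (hl : 1 ≤ l) (hr : r ≤ S.top) (hC : Cut l r Λ lo hi)
    (hu : u < S.top) (hv : v < S.top) :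
    Same Λ (fun k => ml S (hi k)) (fun k => ml S (lo k)) (S.top - u) (S.top - v) ↔
      Same Λ lo hi u v := by
  unfold Same ml
  beta_reduce
  constructor
  · rintro ⟨k, hk, ⟨h1, h2⟩, h3, h4⟩
    have a1 := hC.lt k hk
    have a2 := hC.left k hk
    have a3 := hC.right k hk
    exact ⟨k, hk, ⟨by omega, by omega⟩, by omega, by omega⟩
  · rintro ⟨k, hk, ⟨h1, h2⟩, h3, h4⟩
    have a1 := hC.lt k hk
    have a2 := hC.left k hk
    have a3 := hC.right k hk
    exact ⟨k, hk, ⟨by omega, by omega⟩, by omega, by omega⟩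

/-- **Module MC1.** -/
theorem cut_mir (hl : 1 ≤ l) (hr : r ≤ S.top) (hC : Cut l r Λ lo hi) :
    Cut (ml S r) (ml S l) Λ (fun k => ml S (hi k)) (fun k => ml S (lo k)) := by
  constructor
  · intro k hk
    have a1 := hC.lt k hk
    have a2 := hC.left k hk
    have a3 := hC.right k hk
    simp only [ml]
    omega
  · intro k hk
    have a3 := hC.right k hk
    simp only [ml]
    omega
  · intro k hk
    have a2 := hC.left k hk
    simp only [ml]
    omega
  · intro v h1 h2
    simp only [ml] at h1 h2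
    obtain ⟨k, hk, h3, h4⟩ := hC.cov (S.top - v) (by omega) (by omega)
    have a1 := hC.lt k hk
    have a2 := hC.left k hk
    have a3 := hC.right k hk
    refine ⟨k, hk, ?_, ?_⟩
    · simp only [ml]
      omega
    · simp only [ml]
      omega
  · intro k hk k' hk' hne
    have a1 := hC.lt k hk
    have a2 := hC.left k hk
    have a3 := hC.right k hk
    have b1 := hC.lt k' hk'
    have b2 := hC.left k' hk'
    have b3 := hC.right k' hk'
    simp only [ml]
    rcases hC.disj k hk k' hk' hne with h | h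
    · right
      omega
    · left
      omega

/-- **Module MC1.**  HINT.  Bijection `v ↦ S.top - v`; `Sys.mir_lam`, `Sys.mir_rho` (S.mir.lam t (top - u) = top - rho t u, ...);
`S.mir.K = S.K.image (top - ·)`; keys are in `(0, top)`; `lam t v < top`, `rho t v ≤ top`: `Sys.lam_lt_top`, `Sys.rho_le_top`. -/
theorem exL_mir (ht : t ≤ S.m) (hr : r ≤ S.top) (ha : 1 ≤ a) (hb : b ≤ S.top) :
    (exL S.mir t (ml S r) (ml S b) (ml S a)).card = (exR S t r a b).card := by
  apply MC1_card (S := S) (Finset.filter_subset _ _) (Finset.filter_subset _ _)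
  intro u hu
  rw [Finset.mem_filter, Finset.mem_filter, Sys.mir_lam hu]
  have h1 := S.key u hu
  have h2 := S.rho_le_top ht hu
  have h3 := S.lt_rho t ht u hu
  have h4 : S.top - u ∈ S.mir.K := Sys.mir_mem.2 ⟨u, hu, rfl⟩
  simp only [hu, h4, true_and, ml]
  omega

/-- **Module MC1.** -/
theorem exR_mir (ht : t ≤ S.m) (hl : 1 ≤ l) (ha : 1 ≤ a) (hb : b ≤ S.top) :
    (exR S.mir t (ml S l) (ml S b) (ml S a)).card = (exL S t l a b).card := by
  apply MC1_card (S := S) (Finset.filter_subset _ _) (Finset.filter_subset _ _)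
  intro u hu
  rw [Finset.mem_filter, Finset.mem_filter, Sys.mir_rho hu]
  have h1 := S.key u hu
  have h2 := S.lam_lt_top ht hu
  have h4 : S.top - u ∈ S.mir.K := Sys.mir_mem.2 ⟨u, hu, rfl⟩
  simp only [hu, h4, true_and, ml]
  omega

/-- **Module MC2.** -/
theorem dL_mir (ht : t ≤ S.m) (hl : 1 ≤ l) (hr : r ≤ S.top) (hC : Cut l r Λ lo hi) :
    (dL S.mir t (ml S r) (ml S l) Λ (fun k => ml S (hi k)) (fun k => ml S (lo k))).card =
      (dR S t l r Λ lo hi).card := by
  apply MC1_card (S := S) (Finset.filter_subset _ _) (Finset.filter_subset _ _)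
  intro u hu
  have h1 := S.key u hu
  have h2 := S.lam_lt_top ht hu
  have h3 := S.rho_le_top ht hu
  have h4 : S.top - u ∈ S.mir.K := Sys.mir_mem.2 ⟨u, hu, rfl⟩
  simp only [Finset.mem_filter, hu, h4, true_and, Sys.mir_rho hu, Sys.mir_lam hu]
  by_cases h5 : l ≤ S.lam t u
  · have h6 := lam_mem_of_le ht hu h5 hl
    have h7 := S.rho_le_top ht h6
    rw [Sys.mir_lam h6, MC2_same hl hr hC h1.2 h2]
    have e1 : (S.top - S.rho t (S.lam t u) ≠ S.top - S.rho t u) ↔
        (S.rho t (S.lam t u) ≠ S.rho t u) := by omega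
    rw [e1]
    constructor
    · rintro ⟨c1, c2, c3, c4, c5⟩
      simp only [ml] at c1 c2 c3
      exact ⟨by omega, by omega, h5, c4, c5⟩
    · rintro ⟨c1, c2, c3, c4, c5⟩
      refine ⟨?_, ?_, ?_, c4, c5⟩
      · simp only [ml]
        omega
      · simp only [ml]
        omega
      · simp only [ml]
        omega
  · constructor
    · rintro ⟨c1, c2, c3, c4, c5⟩
      exfalso
      simp only [ml] at c3
      omega
    · rintro ⟨c1, c2, c3, c4, c5⟩
      exact absurd c3 h5

/-- **Module MC2.** -/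
theorem dR_mir (ht : t ≤ S.m) (hl : 1 ≤ l) (hr : r ≤ S.top) (hC : Cut l r Λ lo hi) :
    (dR S.mir t (ml S r) (ml S l) Λ (fun k => ml S (hi k)) (fun k => ml S (lo k))).card =
      (dL S t l r Λ lo hi).card := by
  apply MC1_card (S := S) (Finset.filter_subset _ _) (Finset.filter_subset _ _)
  intro u hu
  have h1 := S.key u hu
  have h2 := S.lam_lt_top ht hu
  have h3 := S.rho_le_top ht hu
  have h4 : S.top - u ∈ S.mir.K := Sys.mir_mem.2 ⟨u, hu, rfl⟩
  simp only [Finset.mem_filter, hu, h4, true_and, Sys.mir_rho hu, Sys.mir_lam hu]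
  by_cases h5 : S.rho t u < r
  · have h6 := rho_mem_of_lt ht hu h5 hr
    have h7 := S.lam_lt_top ht h6
    have h8 := S.key _ h6
    rw [Sys.mir_rho h6, MC2_same hl hr hC h1.2 h8.2]
    have e1 : (S.top - S.lam t (S.rho t u) ≠ S.top - S.lam t u) ↔
        (S.lam t (S.rho t u) ≠ S.lam t u) := by omega
    rw [e1]
    constructor
    · rintro ⟨c1, c2, c3, c4, c5⟩
      simp only [ml] at c1 c2 c3
      exact ⟨by omega, by omega, h5, c4, c5⟩
    · rintro ⟨c1, c2, c3, c4, c5⟩
      refine ⟨?_, ?_, ?_, c4, c5⟩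
      · simp only [ml]
        omega
      · simp only [ml]
        omega
      · simp only [ml]
        omega
  · constructor
    · rintro ⟨c1, c2, c3, c4, c5⟩
      exfalso
      simp only [ml] at c3
      omega
    · rintro ⟨c1, c2, c3, c4, c5⟩
      exact absurd c3 h5

/-- The potential of a composition is symmetric (assembly of the lemmas above). -/
theorem cp_mir (ht : t ≤ S.m) (hl : 1 ≤ l) (hr : r ≤ S.top) (hC : Cut l r Λ lo hi) (c : ℕ) :
    cp S.mir t (ml S r) (ml S l) Λ (fun k => ml S (hi k)) (fun k => ml S (lo k)) c =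
      cp S t l r Λ lo hi c := by
  unfold cp cx
  rw [dL_mir ht hl hr hC, dR_mir ht hl hr hC]
  have h : ∀ k ∈ Λ,
      min (8 * c + 5) (exL S.mir t (ml S r) (ml S (hi k)) (ml S (lo k))).card +
        min (8 * c + 5) (exR S.mir t (ml S l) (ml S (hi k)) (ml S (lo k))).card =
      min (8 * c + 5) (exL S t l (lo k) (hi k)).card +
        min (8 * c + 5) (exR S t r (lo k) (hi k)).card := by
    intro k hk
    have h1 := hC.left k hk
    have h2 := hC.right k hk
    rw [exL_mir ht hr (by omega) (by omega), exR_mir ht hl (by omega) (by omega), Nat.add_comm]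
  rw [Finset.sum_congr rfl h]
  ring

end Pool.Agent.SplLs
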