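import Pool.Agent.SplLs.Pc
import Pool.Agent.SplLs.MirC

set_option autoImplicit false

/-!
# The composition lemma
-/

namespace Pool.Agent.SplLs

open Pool.Agent.SplLog
open scoped Classical

variable {S : Sys} {t l r c : ℕ} {ι : Type*} {Λ : Finset ι} {lo hi : ι → ℕ}

/-- **Module CR.**  HINT.  Sum `piece` over the pieces (`a = lo k`, `b = hi k`, `A = A k`, `B = B k`); `sum_yK`, `sum_nK`, `gR_sum`, `dL_step`,
`dR_step`, `exR_step` (`K = 8c+5`, times `4c+1`); `kR ≤ 1` is not needed, everything is linear in `kR S t l r`: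
2c + 2c + (4c+1) + 1 + 1 = 8c+3.  (`cp`, `cx`: `Finset.sum_add_distrib`, `Finset.mul_sum`.) -/
theorem comp_R (hT : Thr S) (ht : t < S.m) (hl : 1 ≤ l) (hr : r ≤ S.top) (hC : Cut l r Λ lo hi)
    (A B : ι → ℕ) (h : ∀ k ∈ Λ, StR S t (lo k) (hi k) c (A k) (B k)) :
    StR S t l r (8 * c + 3) (2 * ∑ k ∈ Λ, A k + cp S t l r Λ lo hi c)
      (2 * ∑ k ∈ Λ, B k + cp S (t + 1) l r Λ lo hi c) := by
  intro hx
  have e1 : ∑ k ∈ Λ, ((gR S t (lo k) (hi k)).card + (2 * c + 1) * xK S t l (lo k) (hi k) + 2 * B k +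
        (4 * c + 1) * min (8 * c + 5) (exL S (t + 1) l (lo k) (hi k)).card) ≤
      ∑ k ∈ Λ, (2 * A k + (4 * c + 1) * min (8 * c + 5) (exL S t l (lo k) (hi k)).card +
        2 * c * (yK S t (lo k) (hi k) + nK S t l (lo k) (hi k))) := by
    apply Finset.sum_le_sum
    intro k hk
    exact piece hT ht hx (hC.left k hk) (hC.right k hk) hr (h k hk)
  simp only [Finset.sum_add_distrib, ← Finset.mul_sum] at e1
  have e2 := gR_sum (S := S) (t := t) ht hr hC
  have e3 := sum_yK (S := S) (t := t) ht hx hr hC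
  have e4 := sum_nK (S := S) (t := t) hC
  have e5 := dL_step (S := S) (t := t) (Λ := Λ) (lo := lo) (hi := hi) ht hx hr
  have e6 := dR_step (S := S) (t := t) (Λ := Λ) (lo := lo) (hi := hi) ht hl hx hr
  have e7 := exR_step (S := S) (t := t) ht hx hr hC (8 * c + 5)
  have e3' := Nat.mul_le_mul_left (2 * c) e3
  have e4' := Nat.mul_le_mul_left (2 * c) e4
  have e7' := Nat.mul_le_mul_left (4 * c + 1) e7
  unfold cp cx
  simp only [Finset.sum_add_distrib]
  generalize ∑ k ∈ Λ, (gR S t (lo k) (hi k)).card = v1 at *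
  generalize ∑ k ∈ Λ, xK S t l (lo k) (hi k) = v2 at *
  generalize ∑ k ∈ Λ, yK S t (lo k) (hi k) = v3 at *
  generalize ∑ k ∈ Λ, nK S t l (lo k) (hi k) = v4 at *
  generalize ∑ k ∈ Λ, min (8 * c + 5) (exL S (t + 1) l (lo k) (hi k)).card = v5 at *
  generalize ∑ k ∈ Λ, min (8 * c + 5) (exL S t l (lo k) (hi k)).card = v6 at *
  generalize ∑ k ∈ Λ, min (8 * c + 5) (exR S (t + 1) r (lo k) (hi k)).card = v7 at *
  generalize ∑ k ∈ Λ, min (8 * c + 5) (exR S t r (lo k) (hi k)).card = v8 at *
  nlinarith [e1, e2, e3', e4', e5, e6, e7']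

/-- **Module CM.**  HINT.  `comp_R` for `S` and for `S.mir` with `lo' k = ml S (hi k)`, `hi' k = ml S (lo k)`, `MirC.cut_mir`,
`MirC.cp_mir`. -/
theorem comp (hT : Thr S) (hT' : Thr S.mir) (ht : t < S.m) (hl : 1 ≤ l) (hr : r ≤ S.top)
    (hC : Cut l r Λ lo hi) (A B : ι → ℕ) (h : ∀ k ∈ Λ, St S t (lo k) (hi k) c (A k) (B k)) :
    St S t l r (8 * c + 3) (2 * ∑ k ∈ Λ, A k + cp S t l r Λ lo hi c)
      (2 * ∑ k ∈ Λ, B k + cp S (t + 1) l r Λ lo hi c) := by
  refine ⟨comp_R hT ht hl hr hC A B (fun k hk => (h k hk).1), ?_⟩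
  have htop : S.mir.top = S.top := rfl
  have hC' := cut_mir hl hr hC
  have h1 := comp_R (S := S.mir) (t := t) (c := c) hT' ht
    (show 1 ≤ ml S r by unfold ml; omega) (show ml S l ≤ S.mir.top by rw [htop]; unfold ml; omega)
    hC' A B (fun k hk => (h k hk).2)
  rw [cp_mir ht.le hl hr hC c, cp_mir (t := t + 1) ht hl hr hC c] at h1
  exact h1

/-- A set of at most one key holds no good pair. -/
theorem BA_gR {a b : ℕ} (hab : b ≤ a + 1) : gR S t a b = ∅ := by
  rw [Finset.eq_empty_iff_forall_notMem]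
  intro v hv
  rw [mem_gR] at hv
  obtain ⟨h1, h2, h3, -⟩ := hv
  have := R_rho h2
  omega

/-- **Module BA.**  HINT.  `comp` with the pieces `[v, v+1)`, `v ∈ Ico l r`, `A = B = 0`, `c = 0`: `gR S t v (v+1) = ∅` (`v < rho v`). -/
theorem base (hT : Thr S) (hT' : Thr S.mir) (ht : t < S.m) (hl : 1 ≤ l) (hr : r ≤ S.top) :
    St S t l r 3 (Psi S t l r) (Psi S (t + 1) l r) := by
  have hC : Cut l r (Finset.Ico l r) (fun v => v) (fun v => v + 1) := by
    constructor
    · intro k _
      simp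
    · intro k hk
      exact (Finset.mem_Ico.1 hk).1
    · intro k hk
      have := (Finset.mem_Ico.1 hk).2
      show k + 1 ≤ r
      omega
    · intro v h1 h2
      exact ⟨v, Finset.mem_Ico.2 ⟨h1, h2⟩, le_rfl, Nat.lt_succ_self v⟩
    · intro k _ k' _ hkk
      show k + 1 ≤ k' ∨ k' + 1 ≤ k
      omega
  have h := comp hT hT' ht hl hr hC (c := 0) (fun _ => 0) (fun _ => 0) (by
    intro k hk
    have hk1 := Finset.mem_Ico.1 hk
    refine ⟨fun _ => ?_, fun _ => ?_⟩
    · rw [BA_gR le_rfl]
      simp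
    · rw [BA_gR (by unfold ml; omega)]
      simp)
  simpa [Psi] using h

/-- **Module TC.**  HINT.  `X t < l`: every touched node of `[l, r)` is touched on the right side (`L`, `Ac` are impossible), so
`tE S t l r = tR S t l r`; `tR_le` and `h.1`, `kR_le`: `card ≤ 2 g + 2 ≤ w g + 2`.  `r ≤ X t`: `tE S t l r` is in bijection (`v ↦ S.top - v`)
with `tR S.mir t (ml S r) (ml S l)` (`mir_R`), `S.mir.X t = S.top - S.X t < ml S r`, `(S.key _ (S.req t ht))`; `tR_le hT'`, `h.2`. -/
theorem touch (hT : Thr S) (hT' : Thr S.mir) (ht : t < S.m) (hl : 1 ≤ l) (hr : r ≤ S.top)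
    {a b w : ℕ} (hw : 2 ≤ w) (h : St S t l r c a b) (hx : S.X t < l ∨ r ≤ S.X t) :
    (tE S t l r).card + w * b ≤ w * a + w * c + 2 := by
  rcases hx with hx | hx
  · have e : tE S t l r ⊆ tR S t l r := by
      intro v hv
      simp only [tE, Finset.mem_filter] at hv
      obtain ⟨h1, h2, h3, h4⟩ := hv
      rw [mem_tR]
      refine ⟨h2, h3, ?_⟩
      rcases h4 with h4 | h4 | h4
      · exact h4
      · have := h4.2.2.1
        omega
      · have := h4.2.2
        omega
    have e1 := Finset.card_le_card e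
    have e2 := tR_le (t := t) (l := l) hT hr
    have e3 := h.1 hx
    have e4 := kR_le S t l r
    have e5 : c * kR S t l r ≤ c := by nlinarith
    have e6 : (gR S t l r).card + b ≤ a + c := by omega
    have e7 := Nat.mul_le_mul_left w e6
    have e8 : 2 * (gR S t l r).card ≤ w * (gR S t l r).card := Nat.mul_le_mul_right _ hw
    nlinarith
  · have hX := S.key _ (S.req t ht)
    have e : (tE S t l r).card ≤ (tR S.mir t (ml S r) (ml S l)).card := by
      apply Finset.card_le_card_of_injOn (fun v => S.top - v)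
      · intro v hv
        rw [Finset.mem_coe] at hv ⊢
        simp only [tE, Finset.mem_filter] at hv
        obtain ⟨h1, h2, h3, h4⟩ := hv
        rw [mem_tR]
        show ml S r ≤ S.top - v ∧ S.top - v < ml S l ∧ S.mir.R t (S.top - v)
        have hk := S.key v h1
        refine ⟨by unfold ml; omega, by unfold ml; omega, ?_⟩
        rw [Sys.mir_R h1]
        rcases h4 with h4 | h4 | h4
        · have := h4.2.2.1
          omega
        · exact h4
        · have := h4.2.2
          omega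
      · intro v hv v' hv' he
        rw [Finset.mem_coe] at hv hv'
        simp only [tE, Finset.mem_filter] at hv hv'
        have h1 := S.key v hv.1
        have h2 := S.key v' hv'.1
        have he' : S.top - v = S.top - v' := he
        omega
    have htop : S.mir.top = S.top := rfl
    have e2 := tR_le (S := S.mir) (t := t) (l := ml S r) (r := ml S l) hT'
      (by rw [htop]; unfold ml; omega)
    have hmx : S.mir.X t = S.top - S.X t := rfl
    have e3 := h.2 (by rw [hmx]; unfold ml; omega)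
    have e4 := kR_le S.mir t (ml S r) (ml S l)
    have e5 : c * kR S.mir t (ml S r) (ml S l) ≤ c := by nlinarith
    have e6 : (gR S.mir t (ml S r) (ml S l)).card + b ≤ a + c := by omega
    have e7 := Nat.mul_le_mul_left w e6
    have e8 : 2 * (gR S.mir t (ml S r) (ml S l)).card ≤
        w * (gR S.mir t (ml S r) (ml S l)).card := Nat.mul_le_mul_right _ hw
    nlinarith

end Pool.Agent.SplLs
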