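import Pool.Agent.SplLs.Fct

set_option autoImplicit false

/-!
# The sets `dL`, `dR` when the request lies on the left
-/

namespace Pool.Agent.SplLs

open Pool.Agent.SplLog
open scoped Classical

variable {S : Sys} {t l r : ℕ} {ι : Type*} {Λ : Finset ι} {lo hi : ι → ℕ}

/-- The lower nodes of the good pairs between different pieces which are no kills. -/
noncomputable def hR (S : Sys) (t l r : ℕ) {ι : Type*} (Λ : Finset ι) (lo hi : ι → ℕ) : Finset ℕ :=
  S.K.filter (fun v => l ≤ v ∧ S.R t v ∧ S.rho t v < r ∧ ¬ Same Λ lo hi v (S.rho t v) ∧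
    S.lam t (S.rho t v) ≠ S.lam t v)

private theorem DL_same {q v u : ℕ} (hq : S.R t q) (hv : S.R t v) (h : S.rho t q = u)
    (hU : S.R t u) (h' : S.rho t v = u) : q = v := by
  have a1 := R_rho hq
  have a2 := R_rho hv
  rcases lt_trichotomy q v with h1 | h1 | h1
  · have := (R_up_le hq hv h1).2
    omega
  · exact h1
  · have := (R_up_le hv hq h1).2
    omega

/-- **Module DL.**  HINT.  (Text, section 2 (d).)  Let `v ∈ dL (t+1)`, so `l ≤ v`, `X t < l ≤ v`.  If `v` is not touched then
`lam`, `rho` of `v` did not change (`not_R`) and `X t ≤ lam t v < l`; `u = rho v ∈ K` (`rho_mem_of_lt`); if `u` is touched then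
`lam t u < X t ≤ lam t v`, otherwise `lam t u = lam (t+1) u`: in both cases `v ∈ dL t`, and `v ∉ hR`.  If `v` is touched: by
`R_cases` it is (1) kept, `rho' v = rho v =: u`, touched (`R_up`), and `u` is kept: else `u` is killed by some `q` with
`rho q = u`, `q` touched, so `q = v` (`R_up_le`: two touched nodes with the same rho are equal) and `rho' v = rho u ≠ u`, a
contradiction; so `lam' u = X t = lam' v`: excluded; (2) a killer: `rho' v = rho (rho v) =: u < r` touched, kept (if `u` were
killed by `q`, `rho q = u`, `q = rho v =: g`, but `g` is killed, and a killer is kept (`Sys.kl_facts`), contradiction):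
excluded; (3) killed by `q`: `lam' v = q < l`: at most one such `v` in `[l, r)` (`q < l ≤ v < v'`, both killed by
nodes `< l`: `v'` killed by `q'` with `rho q' = v'`, but `v ∈ (q', v')` touched: `R_up_le` gives `rho q' ≤ v`), and then
`kR S t l r = 1`.  So `dL (t+1) ⊆ (dL t \ hR) ∪ {v}`, and `hR ⊆ dL t` (touched: `lam v < X t < l`). -/
theorem dL_step (ht : t < S.m) (hx : S.X t < l) (hr : r ≤ S.top) :
    (dL S (t + 1) l r Λ lo hi).card + (hR S t l r Λ lo hi).card ≤
      (dL S t l r Λ lo hi).card + kR S t l r := by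
  have hsub : hR S t l r Λ lo hi ⊆ dL S t l r Λ lo hi := by
    intro v hv
    simp only [hR, Finset.mem_filter] at hv
    obtain ⟨h1, h2, h3, h4, h5, h6⟩ := hv
    simp only [dL, Finset.mem_filter]
    have h7 := R_lam h3
    exact ⟨h1, h2, by omega, h4, h5, h6⟩
  have key : ∀ v ∈ dL S (t + 1) l r Λ lo hi,
      v ∈ dL S t l r Λ lo hi \ hR S t l r Λ lo hi ∨
        (l ≤ v ∧ v < r ∧ ∃ q, S.Kl t v q ∧ q < l) := by
    intro v hv
    simp only [dL, Finset.mem_filter] at hv
    obtain ⟨h1, h2, h3, h4, h5, h6⟩ := hv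
    by_cases hR : S.R t v
    · rcases R_cases hR with ⟨c1, c2⟩ | ⟨c1, c2, c3⟩ | ⟨q, c1, c2, c3⟩
      · exfalso
        rw [c2] at h4 h5 h6
        have hu := rho_mem_of_lt ht.le h1 h4 hr
        have hU := R_up hR hu
        rcases R_cases hU with ⟨d1, _⟩ | ⟨d1, _, _⟩ | ⟨q, d1, _, _⟩
        · exact h6 (d1.trans c1.symm)
        · exact h6 (d1.trans c1.symm)
        · have := DL_same (kl_R' d1) hR (kl_rho d1) hU rfl
          subst this
          have e1 := (Sys.kl_facts d1).2.2.2.2.1
          have e2 := R_rho hU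
          omega
      · exfalso
        have hG := kl_R c2
        rw [c3] at h4 h5 h6
        have hu := rho_mem_of_lt ht.le hG.2.1 h4 hr
        have hU := R_up hG hu
        rcases R_cases hU with ⟨d1, _⟩ | ⟨d1, _, _⟩ | ⟨q, d1, _, _⟩
        · exact h6 (d1.trans c1.symm)
        · exact h6 (d1.trans c1.symm)
        · have := DL_same (kl_R' d1) hG (kl_rho d1) hU rfl
          rw [this] at d1
          exact Sys.not_kp_kl (Sys.kl_facts d1).1 c2
      · right
        have e1 := R_rho hR
        exact ⟨h2, by omega, q, c1, by omega⟩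
    · left
      obtain ⟨c1, c2, c3⟩ := not_R ht h1 (by omega) hR
      rw [c3] at h4 h5 h6
      rw [c2] at h3 h6
      have hu := rho_mem_of_lt ht.le h1 h4 hr
      have e1 := S.lt_rho t ht.le v h1
      have h7 : S.lam t (S.rho t v) ≠ S.lam t v := by
        by_cases hU : S.R t (S.rho t v)
        · have := R_lam hU
          omega
        · have := (not_R ht hu (by omega) hU).2.1
          rw [this] at h6
          exact h6
      rw [Finset.mem_sdiff]
      refine ⟨?_, fun h => ?_⟩
      · simp only [dL, Finset.mem_filter]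
        exact ⟨h1, h2, h3, h4, h5, h7⟩
      · simp only [SplLs.hR, Finset.mem_filter] at h
        exact hR h.2.2.1
  set Ex : Finset ℕ := (dL S (t + 1) l r Λ lo hi).filter
    (fun v => l ≤ v ∧ v < r ∧ ∃ q, S.Kl t v q ∧ q < l) with hEx
  have h1 : dL S (t + 1) l r Λ lo hi ⊆ (dL S t l r Λ lo hi \ hR S t l r Λ lo hi) ∪ Ex := by
    intro v hv
    rcases key v hv with h | h
    · exact Finset.mem_union_left _ h
    · exact Finset.mem_union_right _ (by rw [hEx, Finset.mem_filter]; exact ⟨hv, h⟩)
  have h2 : Ex.card ≤ kR S t l r := by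
    rcases Ex.eq_empty_or_nonempty with h | ⟨v, hv⟩
    · rw [h]
      simp
    · have hv' := hv
      rw [hEx, Finset.mem_filter] at hv'
      obtain ⟨_, a1, a2, q, a3, a4⟩ := hv'
      rw [kR_one a3 (Or.inl ⟨a1, a2⟩)]
      rw [Finset.card_le_one]
      have aux : ∀ a ∈ Ex, ∀ b ∈ Ex, a < b → False := by
        intro a ha b hb hab
        rw [hEx, Finset.mem_filter] at ha hb
        obtain ⟨_, b1, b2, q1, b3, b4⟩ := ha
        obtain ⟨_, c1, c2, q2, c3, c4⟩ := hb
        have e1 := (R_up_le (kl_R' c3) (kl_R b3) (by omega)).2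
        rw [kl_rho c3] at e1
        omega
      intro a ha b hb
      rcases lt_trichotomy a b with h | h | h
      · exact absurd h (fun h => aux a ha b hb h)
      · exact h
      · exact absurd h (fun h => aux b hb a ha h)
  have h3 := Finset.card_le_card h1
  have h4 := Finset.card_union_le (dL S t l r Λ lo hi \ hR S t l r Λ lo hi) Ex
  have h5 := Finset.card_sdiff_add_card_eq_card hsub
  omega

private theorem DR_key (ht : t < S.m) (hl : 1 ≤ l) (hx : S.X t < l) {v : ℕ}
    (h : v ∈ dR S (t + 1) l r Λ lo hi) (h' : v ∉ dR S t l r Λ lo hi) :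
    v ∈ S.K ∧ v < r ∧ l ≤ S.lam t v ∧ S.R t (S.lam t v) ∧ r ≤ S.rho t v ∧
      S.rho t (S.lam t v) = S.rho t v ∧ S.Kl t (S.rho t (S.lam t v)) (S.lam t v) := by
  simp only [dR, Finset.mem_filter, not_and, not_not] at h h'
  obtain ⟨hv, h1, h2, h3, h4, h5⟩ := h
  have h6 := S.lam_lt (t + 1) ht v hv
  by_cases hR : S.R t v
  · rcases R_cases hR with ⟨c1, _⟩ | ⟨c1, _⟩ | ⟨q, c1, c2, c3⟩
    · omega
    · omega
    · exfalso
      apply h5
      have h7 := (Sys.kl_facts c1).2.2.2.2.1
      rw [c2, c3]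
      exact h7
  · obtain ⟨c1, c2, c3⟩ := not_R ht hv (by omega) hR
    rw [c2] at h3 h4 h5 h6
    rw [c3] at h2 h5
    have hu : S.lam t v ∈ S.K := lam_mem_of_le ht.le hv h3 hl
    have h7 := h' hv h1 h2 h3 h4
    by_cases hRu : S.R t (S.lam t v)
    · rcases R_cases hRu with ⟨_, d2⟩ | ⟨_, d2, d3⟩ | ⟨q, _, _, d3⟩
      · exact absurd (by rw [d2]; exact h7) h5
      · exact ⟨hv, h1, h3, hRu, h2, h7, d2⟩
      · exact absurd (by rw [d3]; exact h7) h5
    · have h8 := (not_R ht hu (by omega) hRu).2.2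
      exact absurd (by rw [h8]; exact h7) h5

private theorem DR_unique (ht : t < S.m) (hl : 1 ≤ l) (hx : S.X t < l) {v w : ℕ}
    (h : v ∈ dR S (t + 1) l r Λ lo hi) (h' : v ∉ dR S t l r Λ lo hi)
    (k : w ∈ dR S (t + 1) l r Λ lo hi) (k' : w ∉ dR S t l r Λ lo hi) (hvw : v < w) : False := by
  obtain ⟨hv, a1, a2, a3, a4, a5, _⟩ := DR_key ht hl hx h h'
  obtain ⟨hw, b1, b2, b3, b4, b5, _⟩ := DR_key ht hl hx k k'
  have c1 := S.lam_lt t ht.le v hv
  have c2 := S.lam_lt t ht.le w hw
  have c3 := S.lt_rho t ht.le v hv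
  have c4 := S.lt_rho t ht.le w hw
  have he : S.lam t v = S.lam t w := by
    rcases lt_trichotomy (S.lam t v) (S.lam t w) with hh | hh | hh
    · have := (Sys.R_above a3 b3 hh).1
      omega
    · exact hh
    · have := (Sys.R_above b3 a3 hh).1
      omega
  have he' : S.rho t v = S.rho t w := by rw [← a5, ← b5, he]
  rcases S.lamin t ht.le v hv w hw hvw with ⟨d1, d2, d3⟩ | ⟨d1, d2, d3⟩ | d1
  · omega
  · omega
  · omega

/-- **Module DR.**  HINT.  (Text, section 2 (e), mirrored.)  Let `v ∈ dR (t+1)`: `v < r ≤ rho' v`, `l ≤ lam' v =: u`, `¬ Same v u`,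
`rho' u ≠ rho' v`.  `u ∈ K` (`lam_mem_of_le`), `l ≤ u < v`, so `X t < u`.  If `v` is touched: kept gives `lam' v = X t < l`, impossible;
killed by `q`: `u = q`, `rho' q = rho t v = rho' v` (`Sys.kl_facts`): excluded.  So `v` is not touched, `lam`, `rho` unchanged.  If `u` is not
touched: nothing changes for `u`: `v ∈ dR t`.  If `u` is touched: `rho t v ≤ rho t u` (`Sys.sub`, u = lam v is an ancestor of v:
`S.lam_anc`), so `r ≤ rho t u`.  `rho' u = rho t u`: `v ∈ dR t`.  Otherwise `u` kills `g = rho t u ≥ r`, `rho' u = rho t g`.  If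
`rho t v ≠ rho t u` then `v ∈ dR t`.  If `rho t v = rho t u` (= g) then `v` is exceptional: there is at most one such `v`
(`u` is unique: the only touched node of `[l, r)` with `r ≤ rho t u`; two nodes `v < v'` with the same `lam = u` and the
same `rho = g`: laminarity `S.lamin` gives a contradiction), and `kR S t l r = 1` because `u` kills `g`. -/
theorem dR_step (ht : t < S.m) (hl : 1 ≤ l) (hx : S.X t < l) (hr : r ≤ S.top) :
    (dR S (t + 1) l r Λ lo hi).card ≤ (dR S t l r Λ lo hi).card + kR S t l r := by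
  have h1 : (dR S (t + 1) l r Λ lo hi \ dR S t l r Λ lo hi).card ≤ kR S t l r := by
    rcases Finset.eq_empty_or_nonempty (dR S (t + 1) l r Λ lo hi \ dR S t l r Λ lo hi) with h | h
    · rw [h]
      exact Nat.zero_le _
    · obtain ⟨v, hv⟩ := h
      have hv' := hv
      rw [Finset.mem_sdiff] at hv'
      obtain ⟨_, a1, a2, a3, a4, a5, a6⟩ := DR_key ht hl hx hv'.1 hv'.2
      have h2 : kR S t l r = 1 := by
        refine kR_one a6 (Or.inr ⟨a2, ?_⟩)
        have := S.lam_lt t ht.le v ‹_›
        omega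
      rw [h2]
      refine Finset.card_le_one.2 ?_
      intro a ha b hb
      rw [Finset.mem_sdiff] at ha hb
      rcases lt_trichotomy a b with hh | hh | hh
      · exact (DR_unique ht hl hx ha.1 ha.2 hb.1 hb.2 hh).elim
      · exact hh
      · exact (DR_unique ht hl hx hb.1 hb.2 ha.1 ha.2 hh).elim
  have h3 := Finset.card_le_card_sdiff_add_card (s := dR S (t + 1) l r Λ lo hi)
    (t := dR S t l r Λ lo hi)
  omega

end Pool.Agent.SplLs
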