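import Pool.Agent.SplLs.Fct

set_option autoImplicit false

/-!
# Exposed nodes of a piece when the request lies on the left
-/

namespace Pool.Agent.SplLs

open Pool.Agent.SplLog
open scoped Classical

variable {S : Sys} {t l r a b : ℕ}

/-- The nodes of `[a, b)` killed on the right side. -/
noncomputable def kd (S : Sys) (t a b : ℕ) : Finset ℕ :=
  S.K.filter (fun v => a ≤ v ∧ v < b ∧ ∃ q, S.Kl t v q)

/-- **Module EX1.**  HINT.  A node `v ∈ [a, b)`, `l ≤ a`, with `lam (t+1) v < l` is untouched (same lam) or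
touched (then `lam t v < X t < l`): `exL (t+1) ⊆ exL t`. -/
theorem exL_sub (ht : t < S.m) (hx : S.X t < l) (ha : l ≤ a) :
    exL S (t + 1) l a b ⊆ exL S t l a b := by
  intro v hv
  rw [mem_exL] at hv ⊢
  obtain ⟨h1, h2, h3, h4⟩ := hv
  refine ⟨h1, h2, h3, ?_⟩
  by_cases h5 : S.R t v
  · have := R_lam h5
    omega
  · have := not_R ht h1 (by omega) h5
    omega

/-- **Module EX1.**  HINT.  `p` is touched, `l ≤ p < a`.  `v ∈ [a, b)` touched: `lam v < X t < l`.  Conversely, if
`lam v < l ≤ p < a ≤ v` then `R_anc`. -/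
theorem exL_eq {p : ℕ} (hx : S.X t < l) (hp : S.R t p) (hlp : l ≤ p) (hpa : p < a) :
    exL S t l a b = tR S t a b := by
  ext v
  rw [mem_exL, mem_tR]
  constructor
  · rintro ⟨h1, h2, h3, h4⟩
    exact ⟨h2, h3, R_anc hp h1 (by omega) (by omega)⟩
  · rintro ⟨h1, h2, h3⟩
    have := R_lam h3
    exact ⟨R_mem h3, h1, h2, by omega⟩

/-- **Module EX2.**  HINT.  `exL (t+1) ⊆ exL t \ kd`: if `v` is killed by `q` then `lam (t+1) v = q`, and `p ≤ q`
(`rho q = v` and `p < v` are touched: `R_up_le` for `p` and ... : the node `z ≥ p` of `exists_below` with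
`rho z = v` is `q`, because both `z` and `q` are touched with `rho = v`), so `l ≤ q`.  And `kd ⊆ exL t`. -/
theorem exL_drop {p : ℕ} (ht : t < S.m) (hx : S.X t < l) (hp : S.R t p) (hlp : l ≤ p) (hpa : p < a) :
    (exL S (t + 1) l a b).card + (kd S t a b).card ≤ (exL S t l a b).card := by
  have h1 : exL S (t + 1) l a b ⊆ exL S t l a b := exL_sub ht hx (by omega)
  have h2 : kd S t a b ⊆ exL S t l a b := by
    intro v hv
    rw [kd, Finset.mem_filter] at hv
    obtain ⟨a1, a2, a3, q, a4⟩ := hv
    have := R_lam (kl_R a4)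
    exact mem_exL.2 ⟨a1, a2, a3, by omega⟩
  have h3 : Disjoint (exL S (t + 1) l a b) (kd S t a b) := by
    rw [Finset.disjoint_left]
    intro v hv hv'
    rw [mem_exL] at hv
    rw [kd, Finset.mem_filter] at hv'
    obtain ⟨b1, b2, b3, q, b4⟩ := hv'
    have b5 := b4.2.2
    have b6 := kl_rho b4
    by_cases h4 : q < p
    · have := (R_up_le (kl_R' b4) hp h4).2
      omega
    · omega
  rw [← Finset.card_union_of_disjoint h3]
  exact Finset.card_le_card (Finset.union_subset h1 h2)

/-- A new node exposed on the right is a killer. -/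
private theorem EX3_new {v : ℕ} (ht : t < S.m) (hx : S.X t < l) (hv : v ∈ S.K)
    (hlv : l ≤ v) (h1 : r ≤ S.rho (t + 1) v) (h2 : S.rho t v < r) :
    S.Kl t (S.rho t v) v ∧ r ≤ S.rho t (S.rho t v) := by
  by_cases h5 : S.R t v
  · rcases R_cases h5 with ⟨c1, c2⟩ | ⟨c1, c2, c3⟩ | ⟨q, c1, c2, c3⟩
    · omega
    · exact ⟨c2, by omega⟩
    · omega
  · have := not_R ht hv (by omega) h5
    omega

/-- **Module EX3.**  HINT.  `v ∈ [lo k, hi k)` with `r ≤ rho (t+1) v` and `rho t v < r`: by `R_cases` and `not_R` the node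
`v` is a killer, it kills `g = rho t v ∈ [l, r)` and `r ≤ rho t g`.  There is at most one such `v` (two touched nodes
`g, g'` of `[l, r)` with `r ≤ rho`: `g = g'` by `R_up_le`, so `v = v'` by `Sys.kl_inj`'s converse `kl_unique`), it lies in one
piece only (`Cut.disj`), and if it exists then `kR S t l r = 1`. -/
theorem exR_step {ι : Type*} {Λ : Finset ι} {lo hi : ι → ℕ} (ht : t < S.m) (hx : S.X t < l)
    (hr : r ≤ S.top) (hC : Cut l r Λ lo hi) (K : ℕ) :
    ∑ k ∈ Λ, min K (exR S (t + 1) r (lo k) (hi k)).card ≤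
      ∑ k ∈ Λ, min K (exR S t r (lo k) (hi k)).card + kR S t l r := by
  by_cases hA : ∃ v0 ∈ S.K, l ≤ v0 ∧ v0 < r ∧ r ≤ S.rho (t + 1) v0 ∧ S.rho t v0 < r
  · obtain ⟨v0, a1, a2, a3, a4, a5⟩ := hA
    obtain ⟨a6, a7⟩ := EX3_new ht hx a1 a2 a4 a5
    have a8 := R_rho (kl_R' a6)
    have hk : kR S t l r = 1 := kR_one a6 (Or.inl ⟨by omega, a5⟩)
    obtain ⟨k0, hk0, b1, b2⟩ := hC.cov v0 a2 a3
    have key : ∀ k ∈ Λ, min K (exR S (t + 1) r (lo k) (hi k)).card ≤
        min K (exR S t r (lo k) (hi k)).card + if k = k0 then 1 else 0 := by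
      intro k hk1
      have c1 := hC.left k hk1
      have c2 := hC.right k hk1
      have hs : exR S (t + 1) r (lo k) (hi k) ⊆
          exR S t r (lo k) (hi k) ∪ (if k = k0 then {v0} else ∅) := by
        intro v hv
        rw [mem_exR] at hv
        obtain ⟨d1, d2, d3, d4⟩ := hv
        by_cases h5 : r ≤ S.rho t v
        · exact Finset.mem_union_left _ (mem_exR.2 ⟨d1, d2, d3, h5⟩)
        · obtain ⟨d6, d7⟩ := EX3_new ht hx d1 (by omega) d4 (by omega)
          have e1 : S.rho t v = S.rho t v0 := by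
            rcases lt_trichotomy (S.rho t v) (S.rho t v0) with h6 | h6 | h6
            · have := (R_up_le (kl_R d6) (kl_R a6) h6).2
              omega
            · exact h6
            · have := (R_up_le (kl_R a6) (kl_R d6) h6).2
              omega
          rw [e1] at d6
          have e2 : v = v0 := kl_unique d6 a6
          subst e2
          have e3 : k = k0 := by
            by_contra h6
            rcases hC.disj k hk1 k0 hk0 h6 with h7 | h7 <;> omega
          apply Finset.mem_union_right
          rw [if_pos e3]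
          exact Finset.mem_singleton_self _
      have f1 := Finset.card_le_card hs
      have f2 := Finset.card_union_le (exR S t r (lo k) (hi k))
        (if k = k0 then ({v0} : Finset ℕ) else ∅)
      have f3 : (if k = k0 then ({v0} : Finset ℕ) else ∅).card = if k = k0 then 1 else 0 := by
        split_ifs
        · exact Finset.card_singleton _
        · exact Finset.card_empty
      rw [f3] at f2
      omega
    have h1 := Finset.sum_le_sum key
    rw [Finset.sum_add_distrib] at h1
    have h2 : ∑ k ∈ Λ, (if k = k0 then 1 else 0) = 1 := by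
      rw [Finset.sum_ite_eq' Λ k0 (fun _ => 1), if_pos hk0]
    omega
  · have key : ∀ k ∈ Λ, min K (exR S (t + 1) r (lo k) (hi k)).card ≤
        min K (exR S t r (lo k) (hi k)).card := by
      intro k hk1
      have c1 := hC.left k hk1
      have c2 := hC.right k hk1
      have hs : exR S (t + 1) r (lo k) (hi k) ⊆ exR S t r (lo k) (hi k) := by
        intro v hv
        rw [mem_exR] at hv ⊢
        obtain ⟨d1, d2, d3, d4⟩ := hv
        refine ⟨d1, d2, d3, ?_⟩
        by_contra h5
        exact hA ⟨v, d1, by omega, by omega, d4, by omega⟩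
      have := Finset.card_le_card hs
      omega
    have h1 := Finset.sum_le_sum key
    omega

end Pool.Agent.SplLs
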