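import Pool.Agent.SplLs.Defs
import Pool.Agent.SplLog.Basic

set_option autoImplicit false

/-!
# Basic facts on the right side of a search path
-/

namespace Pool.Agent.SplLs

open Pool.Agent.SplLog

variable {S : Sys} {t l r u v w g p q y : ℕ}

theorem R_lt (h : S.R t v) : t < S.m := h.1

theorem R_mem (h : S.R t v) : v ∈ S.K := h.2.1

theorem R_gt (h : S.R t v) : S.X t < v := h.2.2.1

theorem R_lam (h : S.R t v) : S.lam t v < S.X t := h.2.2.2

theorem R_rho (h : S.R t v) : v < S.rho t v := S.lt_rho t h.1.le v h.2.1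

/-- The next larger ancestor of a touched node is touched. -/
theorem R_up (h : S.R t v) (hr : S.rho t v ∈ S.K) : S.R t (S.rho t v) := by
  have h1 := R_rho h
  have h2 := S.rho_anc t h.1.le v h.2.1 hr
  have h3 := S.lt_rho t h.1.le _ hr
  have h4 := Sys.sub h.1.le h.2.1 hr h2 (by omega)
  exact ⟨h.1, hr, by have := R_gt h; omega, by have := R_lam h; omega⟩

theorem rho_mem_of_lt (ht : t ≤ S.m) (hv : v ∈ S.K) (h : S.rho t v < r) (hr : r ≤ S.top) :
    S.rho t v ∈ S.K := by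
  rcases S.rho_mem t ht v hv with h1 | h1
  · omega
  · exact h1

theorem lam_mem_of_le (ht : t ≤ S.m) (hv : v ∈ S.K) (h : l ≤ S.lam t v) (hl : 1 ≤ l) :
    S.lam t v ∈ S.K := by
  rcases S.lam_mem t ht v hv with h1 | h1
  · omega
  · exact h1

/-- An untouched node on the right of the request keeps its ends. -/
theorem not_R (ht : t < S.m) (hv : v ∈ S.K) (hx : S.X t < v) (h : ¬ S.R t v) :
    S.X t ≤ S.lam t v ∧ S.lam (t + 1) v = S.lam t v ∧ S.rho (t + 1) v = S.rho t v := by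
  rcases S.right t ht v hv hx with h4 | ⟨h4, _⟩ | ⟨h4, _⟩
  · exact h4
  · exact absurd ⟨ht, hv, hx, h4⟩ h
  · exact absurd ⟨ht, hv, hx, h4⟩ h

/-- The three possibilities for a touched node: it is kept and no killer, it is a killer, it is
killed. -/
theorem R_cases (h : S.R t v) :
    (S.lam (t + 1) v = S.X t ∧ S.rho (t + 1) v = S.rho t v) ∨
    (S.lam (t + 1) v = S.X t ∧ S.Kl t (S.rho t v) v ∧ S.rho (t + 1) v = S.rho t (S.rho t v)) ∨
    (∃ q, S.Kl t v q ∧ S.lam (t + 1) v = q ∧ S.rho (t + 1) v = S.rho t v) := by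
  obtain ⟨ht, hv, hx, hl⟩ := h
  rcases S.right t ht v hv hx with h4 | ⟨_, h4, h5⟩ | ⟨_, p, c1, h5, c3, h6, h7, _⟩
  · omega
  · rcases h5 with h5 | ⟨c1, c2, c3, c4, c5⟩
    · exact Or.inl ⟨h4, h5⟩
    · right; left
      have h8 := S.lt_rho t ht.le v hv
      exact ⟨h4, ⟨⟨ht, c1, by omega, by omega⟩, hx, c3⟩, c5⟩
  · right; right
    exact ⟨p, ⟨⟨ht, hv, hx, hl⟩, h5, h6⟩, h6, h7⟩

/-- A node is killed at most once. -/
theorem kl_unique (h : S.Kl t g p) (h' : S.Kl t g q) : p = q := by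
  have h1 := h.2.2
  have h2 := h'.2.2
  omega

theorem kl_R (h : S.Kl t g p) : S.R t g := h.1

theorem kl_R' (h : S.Kl t g p) : S.R t p := (Sys.kl_facts h).1.1

theorem kl_lt (h : S.Kl t g p) : p < g := (Sys.kl_facts h).2.1

theorem kl_rho (h : S.Kl t g p) : S.rho t p = g := (Sys.kl_facts h).2.2.2.1

theorem kl_lam (h : S.Kl t g p) : S.lam t p = S.lam t g := (Sys.kl_facts h).2.2.1

/-- If `v < w` are touched then there is a touched node `z ≥ v` with `rho z = w`. -/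
theorem exists_below (hv : S.R t v) (hw : S.R t w) (hvw : v < w) :
    ∃ z, S.R t z ∧ v ≤ z ∧ z < w ∧ S.rho t z = w := by
  classical
  have hne : (S.K.filter (fun z => S.R t z ∧ z < w)).Nonempty :=
    ⟨v, by simp [hv.2.1, hv, hvw]⟩
  set z := (S.K.filter (fun z => S.R t z ∧ z < w)).max' hne with hz
  have h1 := Finset.max'_mem _ hne
  rw [← hz, Finset.mem_filter] at h1
  obtain ⟨h1, h2, h3⟩ := h1
  have h4 : v ≤ z := Finset.le_max' _ _ (by simp [hv.2.1, hv, hvw])
  refine ⟨z, h2, h4, h3, ?_⟩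
  have h5 := (Sys.R_above h2 hw h3).1
  rcases S.rho_mem t h2.1.le z h1 with h6 | h6
  · have := (S.key w hw.2.1).2
    omega
  · by_contra h7
    have h8 := R_up h2 h6
    have h9 : S.rho t z ≤ z := Finset.le_max' _ _ (by
      simp only [Finset.mem_filter]
      exact ⟨h6, h8, by omega⟩)
    have := R_rho h2
    omega

/-- If `v < w` are touched then `rho v ≤ w` is touched. -/
theorem R_up_le (hv : S.R t v) (hw : S.R t w) (hvw : v < w) :
    S.R t (S.rho t v) ∧ S.rho t v ≤ w := by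
  have h5 := (Sys.R_above hv hw hvw).1
  rcases S.rho_mem t hv.1.le v hv.2.1 with h6 | h6
  · have := (S.key w hw.2.1).2
    omega
  · exact ⟨R_up hv h6, h5⟩

/-- A node whose subtree interval contains a touched node is touched (right side). -/
theorem R_anc (hp : S.R t p) (hv : v ∈ S.K) (hpv : p < v) (hl : S.lam t v < p) : S.R t v := by
  have h1 := S.lt_rho t hp.1.le v hv
  have h2 := Sys.sub hp.1.le hp.2.1 hv hl (by omega)
  exact ⟨hp.1, hv, by have := R_gt hp; omega, by have := R_lam hp; omega⟩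

theorem kR_le (S : Sys) (t l r : ℕ) : kR S t l r ≤ 1 := by
  unfold kR
  split_ifs <;> omega

theorem kR_one (h : S.Kl t g p) (h' : (l ≤ g ∧ g < r) ∨ (l ≤ p ∧ p < r)) : kR S t l r = 1 := by
  unfold kR
  exact if_pos ⟨g, p, h, h'⟩

theorem kR_mono {l' r' : ℕ} (h1 : l ≤ l') (h2 : r' ≤ r) : kR S t l' r' ≤ kR S t l r := by
  unfold kR
  split_ifs with h3 h4
  · exact le_rfl
  · exfalso
    apply h4
    obtain ⟨g, p, h5, h6⟩ := h3
    refine ⟨g, p, h5, ?_⟩
    omega
  · omega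
  · omega

theorem mem_tR : v ∈ tR S t l r ↔ l ≤ v ∧ v < r ∧ S.R t v := by
  simp only [tR, Finset.mem_filter]
  exact ⟨fun h => h.2, fun h => ⟨h.2.2.2.1, h⟩⟩

theorem mem_gR : v ∈ gR S t l r ↔ l ≤ v ∧ S.R t v ∧ S.rho t v < r ∧
    (S.Kl t (S.rho t v) v ∨ S.lam t (S.rho t v) ≠ S.lam t v) := by
  simp only [gR, Finset.mem_filter]
  exact ⟨fun h => h.2, fun h => ⟨h.2.1.2.1, h⟩⟩

theorem mem_exL {a b : ℕ} : v ∈ exL S t l a b ↔ v ∈ S.K ∧ a ≤ v ∧ v < b ∧ S.lam t v < l := by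
  simp only [exL, Finset.mem_filter]

theorem mem_exR {a b : ℕ} : v ∈ exR S t r a b ↔ v ∈ S.K ∧ a ≤ v ∧ v < b ∧ r ≤ S.rho t v := by
  simp only [exR, Finset.mem_filter]

end Pool.Agent.SplLs
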