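import Pool.Agent.SplLs.Step

set_option autoImplicit false

/-!
# The cost of a level, and the sum over the levels
-/

namespace Pool.Agent.SplLs

open Pool.Agent.SplLog Pool.Agent.SplPat

variable {S : Sys} {A a b i j s t : ℕ}

/-- **Module SM1.** -/
theorem lvl_sum (hT : Thr S) (hT' : Thr S.mir) (hR : Rng S A) (haA : a ≤ A) (hba : b ≤ a) :
    ∑ t ∈ Finset.range S.m, (lvl S a b t).card ≤ ∑ t ∈ Finset.range S.m, (96 +
      26 * (act S.m S.X b t).card + 440 * ((act S.m S.X a t).card + (act S.m S.X b t).card) +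
      rei S.m S.X a b t) := by
  rcases Nat.eq_zero_or_pos S.m with h0 | h0
  · rw [h0]
    simp
  have key : ∀ k, k < S.m → ∑ t ∈ Finset.range k, (lvl S a b t).card + Pot S a b k k ≤
      ∑ t ∈ Finset.range k, (96 + 26 * (act S.m S.X b t).card +
        440 * ((act S.m S.X a t).card + (act S.m S.X b t).card) + rei S.m S.X a b t) +
        rei S.m S.X a b k := by
    intro k
    induction k with
    | zero =>
      intro _
      have := pot_zero (b := b) hR haA hba
      simpa using this
    | succ k ih =>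
      intro hk
      have h1 := ih (by omega)
      have h2 := step hT hT' hR haA hba (t := k) (by omega)
      have h3 := reinit (t := k) hR haA hba (by omega)
      rw [Finset.sum_range_succ, Finset.sum_range_succ]
      omega
  obtain ⟨k, hk⟩ : ∃ k, S.m = k + 1 := ⟨S.m - 1, by omega⟩
  have h1 := key k (by omega)
  have h2 := step hT hT' hR haA hba (t := k) (by omega)
  have e : Finset.range S.m = Finset.range (k + 1) := by rw [hk]
  rw [e, Finset.sum_range_succ, Finset.sum_range_succ]
  omega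

/-- **Module SM2.** -/
theorem lvl_cells (hT : Thr S) (hT' : Thr S.mir) (hR : Rng S A) (haA : a ≤ A) (hba : b ≤ a) :
    ∑ t ∈ Finset.range S.m, (lvl S a b t).card ≤ 96 * S.m +
      466 * (2 ^ b * (cells (2 ^ b) S.m S.X).card) + 472 * (2 ^ a * (cells (2 ^ a) S.m S.X).card) +
      397536 * ∑ j ∈ Finset.Ico b a, 2 ^ (j - b) * (cells (2 ^ (j + 1)) S.m S.X).card := by
  refine (lvl_sum hT hT' hR haA hba).trans ?_
  have hfil : (Finset.range S.m).filter (fun t => 2 ^ 0 ∣ t) = Finset.range S.m := by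
    rw [Finset.filter_true_of_mem]
    intro t _
    simp
  have hA : ∑ t ∈ Finset.range S.m, (act S.m S.X a t).card ≤
      2 ^ a * (cells (2 ^ a) S.m S.X).card := by
    have := act_sum (m := S.m) (X := S.X) (j := a) (k := 0) (Nat.zero_le _)
    rwa [hfil, Nat.sub_zero] at this
  have hB : ∑ t ∈ Finset.range S.m, (act S.m S.X b t).card ≤
      2 ^ b * (cells (2 ^ b) S.m S.X).card := by
    have := act_sum (m := S.m) (X := S.X) (j := b) (k := 0) (Nat.zero_le _)
    rwa [hfil, Nat.sub_zero] at this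
  -- the re-initialisations
  have hr1 : ∑ t ∈ Finset.range S.m,
      (if 2 ^ a ∣ t then 32 * 2 ^ a * (act S.m S.X a t).card else 0) ≤
        32 * (2 ^ a * (cells (2 ^ a) S.m S.X).card) := by
    rw [← Finset.sum_filter, ← Finset.mul_sum]
    have := act_sum (m := S.m) (X := S.X) (j := a) (k := a) le_rfl
    rw [Nat.sub_self, pow_zero, one_mul] at this
    calc 32 * 2 ^ a * _ ≤ 32 * 2 ^ a * (cells (2 ^ a) S.m S.X).card :=
          Nat.mul_le_mul_left _ this
      _ = _ := by ring
  have hr2 : ∑ t ∈ Finset.range S.m, ∑ j ∈ Finset.Ico b a,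
      (if 2 ^ j ∣ t then 6048 * 2 ^ (j - b) * (act S.m S.X (j + 1) t).card else 0) ≤
        12096 * ∑ j ∈ Finset.Ico b a, 2 ^ (j - b) * (cells (2 ^ (j + 1)) S.m S.X).card := by
    rw [Finset.sum_comm, Finset.mul_sum]
    apply Finset.sum_le_sum
    intro j hj
    rw [← Finset.sum_filter, ← Finset.mul_sum]
    have := act_sum (m := S.m) (X := S.X) (j := j + 1) (k := j) (by omega)
    rw [Nat.add_sub_cancel_left, pow_one] at this
    calc 6048 * 2 ^ (j - b) * _ ≤ 6048 * 2 ^ (j - b) * (2 * (cells (2 ^ (j + 1)) S.m S.X).card) :=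
          Nat.mul_le_mul_left _ this
      _ = _ := by ring
  have hr3 : ∑ t ∈ Finset.range S.m,
      (if 2 ^ b ∣ t then 192720 * ∑ j ∈ Finset.Ico b a, (act S.m S.X (j + 1) t).card else 0) ≤
        385440 * ∑ j ∈ Finset.Ico b a, 2 ^ (j - b) * (cells (2 ^ (j + 1)) S.m S.X).card := by
    rw [← Finset.sum_filter, ← Finset.mul_sum, Finset.sum_comm]
    have : ∑ j ∈ Finset.Ico b a, ∑ t ∈ (Finset.range S.m).filter (fun t => 2 ^ b ∣ t),
        (act S.m S.X (j + 1) t).card ≤
          ∑ j ∈ Finset.Ico b a, 2 * (2 ^ (j - b) * (cells (2 ^ (j + 1)) S.m S.X).card) := by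
      apply Finset.sum_le_sum
      intro j hj
      rw [Finset.mem_Ico] at hj
      have h1 := act_sum (m := S.m) (X := S.X) (j := j + 1) (k := b) (by omega)
      have h2 : 2 ^ (j + 1 - b) = 2 * 2 ^ (j - b) := by
        rw [show j + 1 - b = (j - b) + 1 by omega]
        ring
      rw [h2] at h1
      linarith
    rw [← Finset.mul_sum] at this
    calc 192720 * _ ≤ 192720 * (2 * ∑ j ∈ Finset.Ico b a,
          2 ^ (j - b) * (cells (2 ^ (j + 1)) S.m S.X).card) := Nat.mul_le_mul_left _ this
      _ = _ := by ring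
  have hrei : ∑ t ∈ Finset.range S.m, rei S.m S.X a b t ≤
      32 * (2 ^ a * (cells (2 ^ a) S.m S.X).card) +
      397536 * ∑ j ∈ Finset.Ico b a, 2 ^ (j - b) * (cells (2 ^ (j + 1)) S.m S.X).card := by
    unfold rei
    rw [Finset.sum_add_distrib, Finset.sum_add_distrib]
    omega
  rw [Finset.sum_add_distrib, Finset.sum_add_distrib, Finset.sum_add_distrib, Finset.sum_const,
    Finset.card_range, smul_eq_mul, ← Finset.mul_sum, ← Finset.mul_sum, Finset.sum_add_distrib]
  omega

/-- **Module SM3.** -/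
theorem lvl_le_D {D : ℕ} (hT : Thr S) (hT' : Thr S.mir) (hR : Rng S A) (haA : a ≤ A) (hba : b ≤ a)
    (hab : a - b ≤ 4 * 2 ^ b) (hD : ∀ j, j ≤ a → 2 ^ j * (cells (2 ^ j) S.m S.X).card ≤ D) :
    ∑ t ∈ Finset.range S.m, (lvl S a b t).card ≤ 96 * S.m + 800000 * D := by
  have h1 := lvl_cells hT hT' hR haA hba
  have h2 := hD b hba
  have h3 := hD a le_rfl
  have h4 : ∑ j ∈ Finset.Ico b a, 2 ^ (j - b) * (cells (2 ^ (j + 1)) S.m S.X).card ≤ 2 * D := by
    have h5 : 2 * 2 ^ b * ∑ j ∈ Finset.Ico b a, 2 ^ (j - b) * (cells (2 ^ (j + 1)) S.m S.X).card ≤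
        2 * 2 ^ b * (2 * D) := by
      rw [Finset.mul_sum]
      calc ∑ j ∈ Finset.Ico b a, 2 * 2 ^ b * (2 ^ (j - b) * (cells (2 ^ (j + 1)) S.m S.X).card)
          ≤ ∑ _j ∈ Finset.Ico b a, D := by
            apply Finset.sum_le_sum
            intro j hj
            rw [Finset.mem_Ico] at hj
            have e : 2 * 2 ^ b * (2 ^ (j - b) * (cells (2 ^ (j + 1)) S.m S.X).card) =
                2 ^ (j + 1) * (cells (2 ^ (j + 1)) S.m S.X).card := by
              have : 2 ^ (j + 1) = 2 * 2 ^ b * 2 ^ (j - b) := by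
                rw [mul_assoc, ← pow_add, show b + (j - b) = j by omega]
                ring
              rw [this]
              ring
            rw [e]
            exact hD (j + 1) (by omega)
        _ = (a - b) * D := by rw [Finset.sum_const, Nat.card_Ico, smul_eq_mul]
        _ ≤ 4 * 2 ^ b * D := Nat.mul_le_mul_right _ hab
        _ = 2 * 2 ^ b * (2 * D) := by ring
    exact Nat.le_of_mul_le_mul_left h5 (by positivity)
  omega

/-- **Module LV1.** -/
theorem nxt_cond (a : ℕ) : a - nxt a ≤ 4 * 2 ^ nxt a := by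
  unfold nxt
  split_ifs with h
  · simp
    omega
  · have h1 : a < 2 ^ (Nat.log 2 a + 1) := Nat.lt_pow_succ_log_self (by norm_num) a
    omega

private theorem LV1_star {n : ℕ} (h : ¬ n ≤ 1) : logStar n = 1 + logStar (Nat.log 2 n) := by
  rw [logStar, dif_neg h]

private theorem LV1_lev {a : ℕ} (h : a ≠ 0) : lev a = 1 + lev (nxt a) := by
  rw [lev, dif_neg h]

private theorem LV1_lev0 : lev 0 = 0 := by
  rw [lev, dif_pos rfl]

/-- **Module LV1.** -/
theorem lev_le {a x : ℕ} (h : a ≤ x + 2) : lev a ≤ logStar x + 1 := by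
  induction x using Nat.strong_induction_on generalizing a with
  | _ x ih =>
    rcases Nat.eq_zero_or_pos a with h0 | h0
    · subst h0
      rw [LV1_lev0]
      omega
    by_cases h4 : a ≤ 4
    · rw [LV1_lev (by omega)]
      have : nxt a = 0 := by
        unfold nxt
        rw [if_pos h4]
      rw [this, LV1_lev0]
      omega
    · have hx : ¬ x ≤ 1 := by omega
      rw [LV1_lev (by omega), LV1_star hx]
      have h5 : nxt a = Nat.log 2 a + 1 := by
        unfold nxt
        rw [if_neg h4]
      have h6 : Nat.log 2 x < x := Nat.log_lt_self 2 (by omega)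
      have h7 : Nat.log 2 a < Nat.log 2 x + 2 := by
        apply Nat.log_lt_of_lt_pow (by omega)
        have h8 : x < 2 ^ (Nat.log 2 x + 1) := Nat.lt_pow_succ_log_self (by norm_num) x
        have h9 : 2 ^ (Nat.log 2 x + 2) = 2 * 2 ^ (Nat.log 2 x + 1) := by ring
        omega
      have h8 := ih (Nat.log 2 x) h6 (a := nxt a) (by omega)
      omega

/-- **Module LV2.** -/
theorem levels {D : ℕ} (hT : Thr S) (hT' : Thr S.mir) (hR : Rng S A) (haA : a ≤ A)
    (hD : ∀ j, j ≤ a → 2 ^ j * (cells (2 ^ j) S.m S.X).card ≤ D) :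
    ∑ t ∈ Finset.range S.m, (lvl S a 0 t).card ≤ lev a * (96 * S.m + 800000 * D) := by
  induction a using Nat.strong_induction_on with
  | _ a ih =>
    rcases Nat.eq_zero_or_pos a with h0 | h0
    · subst h0
      rw [LV1_lev0, zero_mul]
      apply le_of_eq
      apply Finset.sum_eq_zero
      intro t _
      rw [Finset.card_eq_zero]
      classical
      rw [lvl, Finset.filter_eq_empty_iff]
      intro v _ h
      exact h.2.2 h.2.1
    · have h1 := nxt_lt h0
      have h2 := ih (nxt a) h1 (by omega) (fun j hj => hD j (by omega))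
      have h3 := lvl_le_D hT hT' hR haA h1.le (nxt_cond a) hD
      rw [LV1_lev (by omega), add_mul, one_mul]
      refine le_trans ?_ (Nat.add_le_add h3 h2)
      rw [← Finset.sum_add_distrib]
      apply Finset.sum_le_sum
      intro t _
      classical
      refine (Finset.card_le_card ?_).trans (Finset.card_union_le _ _)
      intro v hv
      simp only [lvl, Finset.mem_filter, Finset.mem_union] at hv ⊢
      by_cases h : v / 2 ^ nxt a = S.X t / 2 ^ nxt a
      · exact Or.inr ⟨hv.1, hv.2.1, h, hv.2.2.2⟩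
      · exact Or.inl ⟨hv.1, hv.2.1, hv.2.2.1, h⟩

end Pool.Agent.SplLs
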