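import Pool.Agent.SplLs.Cnt
import Pool.Agent.SplLs.Ex
import Pool.Agent.SplLs.Dst

set_option autoImplicit false

/-!
# The pieces of a composition, request on the left
-/

namespace Pool.Agent.SplLs

open Pool.Agent.SplLog
open scoped Classical

variable {S : Sys} {t l r : ℕ} {ι : Type*} {Λ : Finset ι} {lo hi : ι → ℕ}

/-- `1` if a node of `[a, b)` is killed by a node of `[l, a)`. -/
noncomputable def xK (S : Sys) (t l a b : ℕ) : ℕ :=
  if ∃ g q, S.Kl t g q ∧ (a ≤ g ∧ g < b) ∧ (l ≤ q ∧ q < a) then 1 else 0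

/-- `1` if a node of `[a, b)` kills a node `≥ b`. -/
noncomputable def yK (S : Sys) (t a b : ℕ) : ℕ :=
  if ∃ g q, S.Kl t g q ∧ (a ≤ q ∧ q < b) ∧ b ≤ g then 1 else 0

/-- `1` if no node of `[l, a)` is touched, and some kill touches `[a, b)`. -/
noncomputable def nK (S : Sys) (t l a b : ℕ) : ℕ :=
  if (∀ v, l ≤ v → v < a → ¬ S.R t v) ∧ kR S t a b = 1 then 1 else 0

private theorem PC_kl_below {g g' q q' : ℕ} (h : S.Kl t g q) (h' : S.Kl t g' q') (h1 : g < g') :
    g ≤ q' := by
  by_contra h2
  have h3 := (R_up_le (kl_R' h') (kl_R h) (by omega)).2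
  rw [kl_rho h'] at h3
  omega

private theorem PC_xK_le (S : Sys) (t l a b : ℕ) : xK S t l a b ≤ 1 := by
  unfold xK
  split_ifs <;> omega

private theorem PC_xK_one {a b g q : ℕ} (h : S.Kl t g q) (h1 : a ≤ g) (h2 : g < b) (h3 : l ≤ q)
    (h4 : q < a) : xK S t l a b = 1 := by
  unfold xK
  exact if_pos ⟨g, q, h, ⟨h1, h2⟩, h3, h4⟩

private theorem PC_yK_le (S : Sys) (t a b : ℕ) : yK S t a b ≤ 1 := by
  unfold yK
  split_ifs <;> omega

private theorem PC_yK_one {a b g q : ℕ} (h : S.Kl t g q) (h1 : a ≤ q) (h2 : q < b) (h3 : b ≤ g) :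
    yK S t a b = 1 := by
  unfold yK
  exact if_pos ⟨g, q, h, ⟨h1, h2⟩, h3⟩

private theorem PC_exists_of_xK {a b : ℕ} (h : xK S t l a b ≠ 0) :
    ∃ g q, S.Kl t g q ∧ (a ≤ g ∧ g < b) ∧ (l ≤ q ∧ q < a) := by
  by_contra h1
  apply h
  unfold xK
  exact if_neg h1

private theorem PC_exists_of_yK {a b : ℕ} (h : yK S t a b ≠ 0) :
    ∃ g q, S.Kl t g q ∧ (a ≤ q ∧ q < b) ∧ b ≤ g := by
  by_contra h1
  apply h
  unfold yK
  exact if_neg h1

private theorem PC_exists_of_kR {a b : ℕ} (h : kR S t a b ≠ 0) :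
    ∃ g p, S.Kl t g p ∧ ((a ≤ g ∧ g < b) ∨ (a ≤ p ∧ p < b)) := by
  by_contra h1
  apply h
  unfold kR
  exact if_neg h1

/-- **Module PC.**  HINT.  (Text, section 2 (f); `F t = min (8c+5) (exL S t l a b).card`.)  Case 1: no touched node in `[l, a)`.  Then
`xK = 0` (a killer is touched: `kl_R'`), `kR S t a b ≤ nK`, `h hx'` gives `g + B ≤ A + c kR`, and `F` does not increase
(`exL_sub`).  Case 2: `p ∈ [l, a)` touched.  `exL_eq`: `(exL S t l a b).card = (tR S t a b).card =: mk`.  If `mk ≤ 8c+5`:
`exL_drop`: `F (t+1) + κ ≤ F t` with `κ = (kd S t a b).card`, `kR S t a b ≤ κ + yK` and `xK ≤ κ` (0/1 values; a kill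
`(g, q)` touching `[a, b)`: `g ∈ [a, b)` gives `g ∈ kd`; otherwise `q ∈ [a, b)`, `b ≤ g`, i.e. `yK = 1`).  If `mk > 8c+5`: `tR_le`:
`2 g ≥ mk - 2 ≥ 8c+4`.  Then linear arithmetic (`nlinarith` / case split on the 0/1 values, c is a variable). -/
theorem piece (hT : Thr S) {a b c A B : ℕ} (ht : t < S.m) (hx : S.X t < l) (hla : l ≤ a)
    (hbr : b ≤ r) (hr : r ≤ S.top) (h : StR S t a b c A B) :
    (gR S t a b).card + (2 * c + 1) * xK S t l a b + 2 * B +
        (4 * c + 1) * min (8 * c + 5) (exL S (t + 1) l a b).card ≤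
      2 * A + (4 * c + 1) * min (8 * c + 5) (exL S t l a b).card +
        2 * c * (yK S t a b + nK S t l a b) := by
  have h0 := h (by omega)
  have hk1 := kR_le S t a b
  have hx1 := PC_xK_le S t l a b
  by_cases hcase : ∀ v, l ≤ v → v < a → ¬ S.R t v
  · have e1 : xK S t l a b = 0 := by
      by_contra h1
      obtain ⟨g, q, h2, _, h3, h4⟩ := PC_exists_of_xK h1
      exact hcase q h3 h4 (kl_R' h2)
    have e2 : kR S t a b ≤ nK S t l a b := by
      unfold nK
      split_ifs with h1
      · exact hk1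
      · by_contra h2
        apply h1
        exact ⟨hcase, by omega⟩
    have e3 : min (8 * c + 5) (exL S (t + 1) l a b).card ≤ min (8 * c + 5) (exL S t l a b).card :=
      min_le_min le_rfl (Finset.card_le_card (exL_sub ht hx hla))
    have e4 := Nat.mul_le_mul_left (4 * c + 1) e3
    have e5 := Nat.mul_le_mul_left (2 * c) (e2.trans (Nat.le_add_left _ (yK S t a b)))
    rw [e1]
    have e6 : 2 * c * kR S t a b = 2 * (c * kR S t a b) := by ring
    omega
  · push Not at hcase
    obtain ⟨p, hlp, hpa, hp⟩ := hcase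
    have f1 := exL_eq (b := b) hx hp hlp hpa
    have f2 := exL_drop (b := b) ht hx hp hlp hpa
    have f3 := tR_le (t := t) (l := a) hT (hbr.trans hr)
    rw [← f1] at f3
    have hc1 : c * kR S t a b ≤ c := by
      calc c * kR S t a b ≤ c * 1 := Nat.mul_le_mul_left c hk1
        _ = c := by ring
    have hc2 : (2 * c + 1) * xK S t l a b ≤ 2 * c + 1 := by
      calc (2 * c + 1) * xK S t l a b ≤ (2 * c + 1) * 1 := Nat.mul_le_mul_left _ hx1
        _ = 2 * c + 1 := by ring
    rcases Nat.lt_or_ge (8 * c + 5) (exL S t l a b).card with hm | hm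
    · have g1 : min (8 * c + 5) (exL S t l a b).card = 8 * c + 5 := min_eq_left hm.le
      have g2 : min (8 * c + 5) (exL S (t + 1) l a b).card ≤ 8 * c + 5 := min_le_left _ _
      have g3 := Nat.mul_le_mul_left (4 * c + 1) g2
      rw [g1]
      omega
    · have g1 : min (8 * c + 5) (exL S t l a b).card = (exL S t l a b).card := min_eq_right hm
      have g2 : min (8 * c + 5) (exL S (t + 1) l a b).card + (kd S t a b).card ≤
          (exL S t l a b).card := by
        have := min_le_right (8 * c + 5) (exL S (t + 1) l a b).card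
        omega
      have g3 := Nat.mul_le_mul_left (4 * c + 1) g2
      rw [Nat.mul_add] at g3
      rw [g1]
      rcases Nat.eq_zero_or_pos (kd S t a b).card with hκ | hκ
      · have hno : ∀ g q, S.Kl t g q → a ≤ g → g < b → False := by
          intro g q h1 h2 h3
          have : g ∈ kd S t a b := by
            simp only [kd, Finset.mem_filter]
            exact ⟨R_mem (kl_R h1), h2, h3, q, h1⟩
          rw [Finset.card_eq_zero] at hκ
          rw [hκ] at this
          simp at this
        have e1 : xK S t l a b = 0 := by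
          by_contra h1
          obtain ⟨g, q, h2, ⟨h3, h4⟩, _⟩ := PC_exists_of_xK h1
          exact hno g q h2 h3 h4
        have e2 : kR S t a b ≤ yK S t a b := by
          rcases Nat.eq_zero_or_pos (kR S t a b) with h1 | h1
          · omega
          · obtain ⟨g, q, h2, h3⟩ := PC_exists_of_kR (by omega : kR S t a b ≠ 0)
            rcases h3 with h3 | h3
            · exact (hno g q h2 h3.1 h3.2).elim
            · rcases Nat.lt_or_ge g b with h4 | h4
              · have := kl_lt h2
                exact (hno g q h2 (by omega) h4).elim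
              · rw [PC_yK_one h2 h3.1 h3.2 h4]
                exact hk1
        have e5 := Nat.mul_le_mul_left (2 * c) (e2.trans (Nat.le_add_right _ (nK S t l a b)))
        have e6 : 2 * c * kR S t a b = 2 * (c * kR S t a b) := by ring
        rw [e1]
        rw [hκ] at g3
        omega
      · have g4 : 4 * c + 1 ≤ (4 * c + 1) * (kd S t a b).card := Nat.le_mul_of_pos_right _ hκ
        omega

/-- **Module SY.**  HINT.  Pieces with `yK = 1`: choose the kill `(g, q)`, `q` in the piece, `hi k ≤ g`.  If `g < r` then `g` lies in a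
piece `k'` (`Cut.cov`), `q < lo k'` (pieces are disjoint intervals and `q < g`), so `xK = 1` for `k'`.  The map `k ↦ k'` is
injective: a piece `k'` has at most one node killed by a `q < lo k'` (`g < g'` in the piece, `g'` killed by `q'` with
`rho q' = g'`, `q' < g`: `R_up_le` gives `rho q' ≤ g`, contradiction), `q` is determined by `g` (`kl_unique`), and `k` by `q`
(`Cut.disj`).  If `r ≤ g`: only one piece (two kills `(g, q)`, `(g', q')` with `q < q' < r ≤ g, g'`: `R_up_le`: `rho q = g ≤ q'`,
contradiction; so `q = q'`), and then `kR S t l r = 1`. -/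
theorem sum_yK (ht : t < S.m) (hx : S.X t < l) (hr : r ≤ S.top) (hC : Cut l r Λ lo hi) :
    ∑ k ∈ Λ, yK S t (lo k) (hi k) ≤ ∑ k ∈ Λ, xK S t l (lo k) (hi k) + kR S t l r := by
  have hy : ∑ k ∈ Λ, yK S t (lo k) (hi k) = (Λ.filter (fun k => yK S t (lo k) (hi k) ≠ 0)).card := by
    rw [Finset.card_filter]
    refine Finset.sum_congr rfl fun k _ => ?_
    have := PC_yK_le S t (lo k) (hi k)
    split_ifs with h
    · omega
    · omega
  have hxx : ∑ k ∈ Λ, xK S t l (lo k) (hi k) =
      (Λ.filter (fun k => xK S t l (lo k) (hi k) ≠ 0)).card := by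
    rw [Finset.card_filter]
    refine Finset.sum_congr rfl fun k _ => ?_
    have := PC_xK_le S t l (lo k) (hi k)
    split_ifs with h
    · omega
    · omega
  rw [hy, hxx]
  -- the killed node and the killer
  have hch : ∀ k, k ∈ Λ.filter (fun k => yK S t (lo k) (hi k) ≠ 0) →
      ∃ g q, S.Kl t g q ∧ (lo k ≤ q ∧ q < hi k) ∧ hi k ≤ g := by
    intro k hk
    rw [Finset.mem_filter] at hk
    exact PC_exists_of_yK hk.2
  choose! G Q hG using hch
  set Y := Λ.filter (fun k => yK S t (lo k) (hi k) ≠ 0) with hYdef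
  -- pieces are determined by their elements
  have huniq : ∀ k ∈ Λ, ∀ k' ∈ Λ, ∀ v, lo k ≤ v → v < hi k → lo k' ≤ v → v < hi k' → k = k' := by
    intro k hk k' hk' v h1 h2 h3 h4
    by_contra h5
    rcases hC.disj k hk k' hk' h5 with h6 | h6 <;> omega
  have hsplit : Y.card = (Y.filter (fun k => G k < r)).card + (Y.filter (fun k => ¬ G k < r)).card :=
    (Finset.card_filter_add_card_filter_not _).symm
  rw [hsplit]
  refine Nat.add_le_add ?_ ?_
  · -- killed nodes inside
    have hch2 : ∀ k, k ∈ Y.filter (fun k => G k < r) → ∃ k' ∈ Λ, lo k' ≤ G k ∧ G k < hi k' := by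
      intro k hk
      rw [Finset.mem_filter] at hk
      obtain ⟨h1, h2, h3⟩ := hG k hk.1
      have hkΛ : k ∈ Λ := (Finset.mem_filter.1 hk.1).1
      have := hC.left k hkΛ
      have := hC.lt k hkΛ
      exact hC.cov (G k) (by omega) hk.2
    choose! N hN using hch2
    refine Finset.card_le_card_of_injOn N ?_ ?_
    · intro k hk
      obtain ⟨h4, h5, h6⟩ := hN k hk
      rw [Finset.mem_coe, Finset.mem_filter] at hk
      obtain ⟨h1, ⟨h2, h2'⟩, h3⟩ := hG k hk.1
      have hkΛ : k ∈ Λ := (Finset.mem_filter.1 hk.1).1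
      have hne : k ≠ N k := by
        intro h
        rw [← h] at h5 h6
        omega
      have h7 : hi k ≤ lo (N k) := by
        rcases hC.disj k hkΛ (N k) h4 hne with h8 | h8
        · exact h8
        · omega
      have h8 := hC.left k hkΛ
      rw [Finset.mem_coe, Finset.mem_filter]
      refine ⟨h4, ?_⟩
      rw [PC_xK_one h1 h5 h6 (by omega) (by omega)]
      exact one_ne_zero
    · intro k hk k' hk' he
      obtain ⟨h4, h5, h6⟩ := hN k hk
      obtain ⟨h4', h5', h6'⟩ := hN k' hk'
      rw [Finset.mem_coe, Finset.mem_filter] at hk hk'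
      obtain ⟨h1, ⟨h2, h2a⟩, h3⟩ := hG k hk.1
      obtain ⟨h1', ⟨h2', h2a'⟩, h3'⟩ := hG k' hk'.1
      have hkΛ : k ∈ Λ := (Finset.mem_filter.1 hk.1).1
      have hkΛ' : k' ∈ Λ := (Finset.mem_filter.1 hk'.1).1
      have hne : k ≠ N k := by
        intro h
        rw [← h] at h5 h6
        omega
      have hne' : k' ≠ N k' := by
        intro h
        rw [← h] at h5' h6'
        omega
      have h7 : hi k ≤ lo (N k) := by
        rcases hC.disj k hkΛ (N k) h4 hne with h8 | h8
        · exact h8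
        · omega
      have h7' : hi k' ≤ lo (N k') := by
        rcases hC.disj k' hkΛ' (N k') h4' hne' with h8 | h8
        · exact h8
        · omega
      rw [← he] at h5' h6' h7'
      have hgg : G k = G k' := by
        rcases lt_trichotomy (G k) (G k') with hh | hh | hh
        · have := PC_kl_below h1 h1' hh
          omega
        · exact hh
        · have := PC_kl_below h1' h1 hh
          omega
      rw [hgg] at h1
      have hqq := kl_unique h1 h1'
      exact huniq k hkΛ k' hkΛ' (Q k) h2 h2a (by omega) (by omega)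
  · -- killed nodes outside
    rcases Finset.eq_empty_or_nonempty (Y.filter (fun k => ¬ G k < r)) with h | h
    · rw [h]
      exact Nat.zero_le _
    · obtain ⟨k0, hk0⟩ := h
      have hk0' := hk0
      rw [Finset.mem_filter] at hk0'
      obtain ⟨h1, ⟨h2, h2'⟩, h3⟩ := hG k0 hk0'.1
      have hkΛ : k0 ∈ Λ := (Finset.mem_filter.1 hk0'.1).1
      have a1 := hC.left k0 hkΛ
      have a2 := hC.right k0 hkΛ
      rw [kR_one (l := l) (r := r) h1 (Or.inr ⟨by omega, by omega⟩)]
      refine Finset.card_le_one.2 ?_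
      intro k hk k' hk'
      rw [Finset.mem_filter] at hk hk'
      obtain ⟨h1, ⟨h2, h2a⟩, h3⟩ := hG k hk.1
      obtain ⟨h1', ⟨h2', h2a'⟩, h3'⟩ := hG k' hk'.1
      have hkΛ : k ∈ Λ := (Finset.mem_filter.1 hk.1).1
      have hkΛ' : k' ∈ Λ := (Finset.mem_filter.1 hk'.1).1
      have a2 := hC.right k hkΛ
      have a2' := hC.right k' hkΛ'
      have hqq : Q k = Q k' := by
        rcases lt_trichotomy (Q k) (Q k') with hh | hh | hh
        · have := (R_up_le (kl_R' h1) (kl_R' h1') hh).2
          rw [kl_rho h1] at this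
          have := hk.2
          omega
        · exact hh
        · have := (R_up_le (kl_R' h1') (kl_R' h1) hh).2
          rw [kl_rho h1'] at this
          have := hk'.2
          omega
      exact huniq k hkΛ k' hkΛ' (Q k) h2 h2a (by omega) (by omega)

/-- **Module SN.**  HINT.  At most one `k` has `nK = 1`: `kR S t (lo k) (hi k) = 1` gives a touched node in `[lo k, hi k)`
(`kl_R`, `kl_R'`); for two pieces one lies on the left of the other (`Cut.disj`, `Cut.left`).  And `kR_mono`. -/
theorem sum_nK (hC : Cut l r Λ lo hi) :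
    ∑ k ∈ Λ, nK S t l (lo k) (hi k) ≤ kR S t l r := by
  have hle : ∀ k, nK S t l (lo k) (hi k) ≤ 1 := by
    intro k
    unfold nK
    split_ifs <;> omega
  have hy : ∑ k ∈ Λ, nK S t l (lo k) (hi k) = (Λ.filter (fun k => nK S t l (lo k) (hi k) ≠ 0)).card := by
    rw [Finset.card_filter]
    refine Finset.sum_congr rfl fun k _ => ?_
    have := hle k
    split_ifs with h
    · omega
    · omega
  have hpos : ∀ k, nK S t l (lo k) (hi k) ≠ 0 →
      (∀ v, l ≤ v → v < lo k → ¬ S.R t v) ∧ kR S t (lo k) (hi k) = 1 := by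
    intro k h
    by_contra h1
    apply h
    unfold nK
    exact if_neg h1
  have htouch : ∀ k, kR S t (lo k) (hi k) = 1 → ∃ v, lo k ≤ v ∧ v < hi k ∧ S.R t v := by
    intro k h
    obtain ⟨g, p, h1, h2 | h2⟩ := PC_exists_of_kR (by omega : kR S t (lo k) (hi k) ≠ 0)
    · exact ⟨g, h2.1, h2.2, kl_R h1⟩
    · exact ⟨p, h2.1, h2.2, kl_R' h1⟩
  rw [hy]
  rcases Finset.eq_empty_or_nonempty (Λ.filter (fun k => nK S t l (lo k) (hi k) ≠ 0)) with h | h
  · rw [h]
    exact Nat.zero_le _
  · obtain ⟨k0, hk0⟩ := h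
    rw [Finset.mem_filter] at hk0
    have h1 := (hpos k0 hk0.2).2
    have h2 := kR_mono (S := S) (t := t) (hC.left k0 hk0.1) (hC.right k0 hk0.1)
    rw [h1] at h2
    refine le_trans ?_ h2
    refine Finset.card_le_one.2 ?_
    intro k hk k' hk'
    rw [Finset.mem_filter] at hk hk'
    by_contra hne
    obtain ⟨a1, a2⟩ := hpos k hk.2
    obtain ⟨b1, b2⟩ := hpos k' hk'.2
    obtain ⟨v, c1, c2, c3⟩ := htouch k a2
    obtain ⟨w, d1, d2, d3⟩ := htouch k' b2
    rcases hC.disj k hk.1 k' hk'.1 hne with h3 | h3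
    · have := hC.left k hk.1
      exact b1 v (by omega) (by omega) c3
    · have := hC.left k' hk'.1
      exact a1 w (by omega) (by omega) d3

/-- **Module GS.**  HINT.  `v ∈ gR S t l r` lies in a piece `k` (`v < rho v < r`).  If `rho v < hi k` then `v ∈ gR S t (lo k) (hi k)`.
Otherwise `rho v` lies in another piece `k'`, `¬ Same`; if `lam (rho v) ≠ lam v` then `v ∈ hR`; otherwise `v` kills `rho v`, and
`xK = 1` for the piece `k'` (`v < lo k'`).  For a piece `k'` at most one such `v` (see SY: at most one node `g` of the piece is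
killed by a node `< lo k'`, and `kl_unique`).  E.g. map these `v` to the piece `k'` of `rho v`. -/
theorem gR_sum (ht : t < S.m) (hr : r ≤ S.top) (hC : Cut l r Λ lo hi) :
    (gR S t l r).card ≤ ∑ k ∈ Λ, (gR S t (lo k) (hi k)).card +
      ∑ k ∈ Λ, xK S t l (lo k) (hi k) + (hR S t l r Λ lo hi).card := by
  have hxx : ∑ k ∈ Λ, xK S t l (lo k) (hi k) =
      (Λ.filter (fun k => xK S t l (lo k) (hi k) ≠ 0)).card := by
    rw [Finset.card_filter]
    refine Finset.sum_congr rfl fun k _ => ?_
    have := PC_xK_le S t l (lo k) (hi k)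
    split_ifs with h
    · omega
    · omega
  have huniq : ∀ k ∈ Λ, ∀ k' ∈ Λ, ∀ v, lo k ≤ v → v < hi k → lo k' ≤ v → v < hi k' → k = k' := by
    intro k hk k' hk' v h1 h2 h3 h4
    by_contra h5
    rcases hC.disj k hk k' hk' h5 with h6 | h6 <;> omega
  set W := (gR S t l r).filter (fun v => ¬ Same Λ lo hi v (S.rho t v) ∧
    S.lam t (S.rho t v) = S.lam t v) with hW
  have hsub : gR S t l r ⊆
      (Λ.biUnion (fun k => gR S t (lo k) (hi k))) ∪ W ∪ hR S t l r Λ lo hi := by
    intro v hv
    have hv' := hv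
    rw [mem_gR] at hv'
    obtain ⟨h1, h2, h3, h4⟩ := hv'
    have h5 := R_rho h2
    rw [Finset.mem_union, Finset.mem_union]
    by_cases hs : Same Λ lo hi v (S.rho t v)
    · left; left
      obtain ⟨k, hk, ⟨h6, h7⟩, h8, h9⟩ := hs
      rw [Finset.mem_biUnion]
      refine ⟨k, hk, ?_⟩
      rw [mem_gR]
      exact ⟨h6, h2, h9, h4⟩
    · by_cases hl' : S.lam t (S.rho t v) = S.lam t v
      · left; right
        rw [hW, Finset.mem_filter]
        exact ⟨hv, hs, hl'⟩
      · right
        simp only [hR, Finset.mem_filter]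
        exact ⟨R_mem h2, h1, h2, h3, hs, hl'⟩
  have hWc : W.card ≤ (Λ.filter (fun k => xK S t l (lo k) (hi k) ≠ 0)).card := by
    have hch : ∀ v, v ∈ W → ∃ k ∈ Λ, lo k ≤ S.rho t v ∧ S.rho t v < hi k := by
      intro v hv
      rw [hW, Finset.mem_filter, mem_gR] at hv
      obtain ⟨⟨h1, h2, h3, h4⟩, h5, h6⟩ := hv
      have := R_rho h2
      exact hC.cov _ (by omega) h3
    rcases Finset.eq_empty_or_nonempty W with hWe | ⟨v0, hv0⟩
    · rw [hWe]
      exact Nat.zero_le _
    obtain ⟨k0, _, _⟩ := hch v0 hv0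
    have : Nonempty ι := ⟨k0⟩
    choose! N hN using hch
    have hkey : ∀ v, v ∈ W → S.Kl t (S.rho t v) v ∧ l ≤ v ∧ v < lo (N v) := by
      intro v hv
      obtain ⟨a1, a2, a3⟩ := hN v hv
      rw [hW, Finset.mem_filter, mem_gR] at hv
      obtain ⟨⟨h1, h2, h3, h4⟩, h5, h6⟩ := hv
      have h7 : S.Kl t (S.rho t v) v := by
        rcases h4 with h4 | h4
        · exact h4
        · exact absurd h6 h4
      refine ⟨h7, h1, ?_⟩
      by_contra h8
      apply h5
      have := R_rho h2
      exact ⟨N v, a1, ⟨by omega, by omega⟩, a2, a3⟩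
    refine Finset.card_le_card_of_injOn N ?_ ?_
    · intro v hv
      obtain ⟨a1, a2, a3⟩ := hN v hv
      obtain ⟨b1, b2, b3⟩ := hkey v hv
      rw [Finset.mem_coe, Finset.mem_filter]
      refine ⟨a1, ?_⟩
      rw [PC_xK_one b1 a2 a3 b2 b3]
      exact one_ne_zero
    · intro v hv w hw he
      obtain ⟨a1, a2, a3⟩ := hN v hv
      obtain ⟨b1, b2, b3⟩ := hkey v hv
      obtain ⟨c1, c2, c3⟩ := hN w hw
      obtain ⟨d1, d2, d3⟩ := hkey w hw
      rw [← he] at c2 c3 d3
      have hgg : S.rho t v = S.rho t w := by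
        rcases lt_trichotomy (S.rho t v) (S.rho t w) with hh | hh | hh
        · have := PC_kl_below b1 d1 hh
          omega
        · exact hh
        · have := PC_kl_below d1 b1 hh
          omega
      rw [hgg] at b1
      exact kl_unique b1 d1
  calc (gR S t l r).card ≤ ((Λ.biUnion (fun k => gR S t (lo k) (hi k))) ∪ W ∪
        hR S t l r Λ lo hi).card := Finset.card_le_card hsub
    _ ≤ ((Λ.biUnion (fun k => gR S t (lo k) (hi k))) ∪ W).card + (hR S t l r Λ lo hi).card :=
        Finset.card_union_le _ _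
    _ ≤ (Λ.biUnion (fun k => gR S t (lo k) (hi k))).card + W.card +
        (hR S t l r Λ lo hi).card := Nat.add_le_add_right (Finset.card_union_le _ _) _
    _ ≤ _ := by
        rw [hxx]
        exact Nat.add_le_add_right (Nat.add_le_add Finset.card_biUnion_le hWc) _

end Pool.Agent.SplLs
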