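import Pool.Agent.SplLs.Comp
import Pool.Agent.SplLs.Own
import Pool.Agent.SplLs.Itm

set_option autoImplicit false

/-!
# One step of the total potential
-/

namespace Pool.Agent.SplLs

open Pool.Agent.SplLog Pool.Agent.SplPat

variable {S : Sys} {A a b i j s t : ℕ}

/-- **Module RG.** -/
theorem blk_range (hR : Rng S A) (haA : a ≤ A) (hba : b ≤ a) (hi : i ∈ blk S.m S.X a b t) :
    1 ≤ i * 2 ^ b ∧ (i + 1) * 2 ^ b ≤ S.top := by
  rw [mem_blk, mem_act] at hi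
  obtain ⟨s, hs, _, hX⟩ := hi
  have h1 := hR.low _ (S.req s hs)
  have h2 := (S.key _ (S.req s hs)).2
  rw [hR.top] at h2 ⊢
  have e1 : 2 ^ (A + 1) = 2 ^ (A + 1 - a) * 2 ^ a := by
    rw [← pow_add]
    congr 1
    omega
  have e2 : 2 ^ a = 2 ^ (a - b) * 2 ^ b := by
    rw [← pow_add]
    congr 1
    omega
  have h3 : 2 ^ a ≤ S.X s := (Nat.pow_le_pow_right (by norm_num) haA).trans h1
  have h4 : 1 ≤ S.X s / 2 ^ a := (Nat.one_le_div_iff (by positivity)).2 h3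
  have h5 : S.X s / 2 ^ a < 2 ^ (A + 1 - a) := by
    rw [Nat.div_lt_iff_lt_mul (by positivity), ← e1]
    exact h2
  rw [hX] at h4 h5
  constructor
  · have h6 : 2 ^ (a - b) ≤ i := by
      have := (Nat.one_le_div_iff (by positivity)).1 h4
      exact this
    have h7 : 0 < i := lt_of_lt_of_le (by positivity) h6
    exact Nat.mul_pos h7 (by positivity)
  · rw [Nat.div_lt_iff_lt_mul (by positivity)] at h5
    rw [e1, e2, ← mul_assoc]
    exact Nat.mul_le_mul_right _ h5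

private theorem ST_first {x k : ℕ} : x * 2 ^ k / 2 ^ k = x := Nat.mul_div_cancel _ (by positivity)

private theorem ST_last {x k : ℕ} : ((x + 1) * 2 ^ k - 1) / 2 ^ k = x := by
  have h : 0 < 2 ^ k := by positivity
  rw [Nat.div_eq_iff h]
  rw [add_mul, one_mul]
  constructor
  · omega
  · omega

private theorem ST_range (hR : Rng S A) (haA : a ≤ A) (hba : b ≤ a) {p : ℕ × ℕ}
    (hp : p ∈ items S.m S.X a b t) :
    b ≤ p.1 ∧ 1 ≤ p.2 * 2 ^ p.1 ∧ (p.2 + 1) * 2 ^ p.1 ≤ S.top := by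
  have h0 := (mem_items.1 hp).1
  have e2 : 2 ^ p.1 = 2 ^ (p.1 - b) * 2 ^ b := by
    rw [← pow_add]
    congr 1
    omega
  have h1 := blk_range hR haA hba (item_sub hp (ST_first (x := p.2) (k := p.1 - b))).1
  have h2 := blk_range hR haA hba (item_sub hp (ST_last (x := p.2) (k := p.1 - b))).1
  refine ⟨h0, ?_, ?_⟩
  · rw [e2, ← mul_assoc]
    exact h1.1
  · have h3 : 1 ≤ (p.2 + 1) * 2 ^ (p.1 - b) := Nat.mul_pos (by omega) (by positivity)
    rw [Nat.sub_add_cancel h3] at h2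
    rw [e2, ← mul_assoc]
    exact h2.2

/-- **Module ST1.** -/
theorem st_item (hT : Thr S) (hT' : Thr S.mir) (hR : Rng S A) (haA : a ≤ A) (hba : b ≤ a)
    (ht : t < S.m) {p : ℕ × ℕ} (hp : p ∈ items S.m S.X a b t) :
    St S t (p.2 * 2 ^ p.1) ((p.2 + 1) * 2 ^ p.1) 27
      (2 * ∑ i ∈ Finset.Ico (p.2 * 2 ^ (p.1 - b)) ((p.2 + 1) * 2 ^ (p.1 - b)),
        Psi S t (i * 2 ^ b) ((i + 1) * 2 ^ b) + ph1 S b t p)
      (2 * ∑ i ∈ Finset.Ico (p.2 * 2 ^ (p.1 - b)) ((p.2 + 1) * 2 ^ (p.1 - b)),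
        Psi S (t + 1) (i * 2 ^ b) ((i + 1) * 2 ^ b) + ph1 S b (t + 1) p) := by
  obtain ⟨h0, h1, h2⟩ := ST_range hR haA hba hp
  refine comp (c := 3) hT hT' ht h1 h2 (cut_item h0) _ _ ?_
  intro i hi
  rw [Finset.mem_Ico] at hi
  have h3 : i / 2 ^ (p.1 - b) = p.2 := by
    have h : 0 < 2 ^ (p.1 - b) := by positivity
    rw [Nat.div_eq_iff h]
    have e : (p.2 + 1) * 2 ^ (p.1 - b) = p.2 * 2 ^ (p.1 - b) + 2 ^ (p.1 - b) := by ring
    omega
  have h4 := blk_range hR haA hba (item_sub hp h3).1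
  exact base hT hT' ht h4.1 h4.2

/-- **Module ST2.** -/
theorem st_run (hT : Thr S) (hT' : Thr S.mir) (hR : Rng S A) (haA : a ≤ A) (hba : b ≤ a)
    (ht : t < S.m) {q : ℕ × ℕ} (hq : q ∈ runs S.m S.X a b t) :
    St S t (q.1 * 2 ^ b) ((q.2 + 1) * 2 ^ b) 219
      (2 * ∑ p ∈ pcs S.m S.X a b t q,
        (2 * ∑ i ∈ Finset.Ico (p.2 * 2 ^ (p.1 - b)) ((p.2 + 1) * 2 ^ (p.1 - b)),
          Psi S t (i * 2 ^ b) ((i + 1) * 2 ^ b) + ph1 S b t p) + ph2 S a b t t q)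
      (2 * ∑ p ∈ pcs S.m S.X a b t q,
        (2 * ∑ i ∈ Finset.Ico (p.2 * 2 ^ (p.1 - b)) ((p.2 + 1) * 2 ^ (p.1 - b)),
          Psi S (t + 1) (i * 2 ^ b) ((i + 1) * 2 ^ b) + ph1 S b (t + 1) p) +
        ph2 S a b t (t + 1) q) := by
  have hq' := hq
  unfold runs at hq'
  rw [Finset.mem_filter, Finset.mem_product] at hq'
  have h1 := blk_range hR haA hba hq'.1.1
  have h2 := blk_range hR haA hba hq'.1.2
  refine comp (c := 27) hT hT' ht h1.1 h2.2 (cut_run hba hq) _ _ ?_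
  intro p hp
  unfold pcs at hp
  rw [Finset.mem_filter] at hp
  exact st_item hT hT' hR haA hba ht hp.1

private theorem ST3_act_blk {m : ℕ} {X : ℕ → ℕ} (hba : b ≤ a) (hi : i ∈ act m X b t) :
    i ∈ blk m X a b t := by
  rw [mem_blk]
  have h := act_up (a - b) hi
  rwa [Nat.add_sub_cancel' hba] at h

private theorem ST3_own_mem (x b : ℕ) :
    x / 2 ^ b * 2 ^ b ≤ x ∧ x < (x / 2 ^ b + 1) * 2 ^ b := by
  have hN : 0 < 2 ^ b := by positivity
  constructor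
  · exact Nat.div_mul_le_self x _
  · have := Nat.lt_mul_div_succ x hN
    rwa [Nat.mul_comm] at this

private theorem ST3_out {x : ℕ} (h : i ≠ x / 2 ^ b) :
    x < i * 2 ^ b ∨ (i + 1) * 2 ^ b ≤ x := by
  have hN : 0 < 2 ^ b := by positivity
  rcases Nat.lt_or_ge x (i * 2 ^ b) with h1 | h1
  · exact Or.inl h1
  · right
    by_contra h2
    push Not at h2
    apply h
    have h3 : i ≤ x / 2 ^ b := (Nat.le_div_iff_mul_le hN).2 h1
    have h4 : x / 2 ^ b < i + 1 := (Nat.div_lt_iff_lt_mul hN).2 h2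
    omega

private theorem ST3_run_out {x u v : ℕ} {s : Finset ℕ} (h : x / 2 ^ b ∈ s)
    (h' : ∀ i, u ≤ i → i ≤ v → i ∉ s) : x < u * 2 ^ b ∨ (v + 1) * 2 ^ b ≤ x := by
  have hN : 0 < 2 ^ b := by positivity
  rcases Nat.lt_or_ge x (u * 2 ^ b) with h1 | h1
  · exact Or.inl h1
  · right
    by_contra h2
    push Not at h2
    have h3 : u ≤ x / 2 ^ b := (Nat.le_div_iff_mul_le hN).2 h1
    have h4 : x / 2 ^ b < v + 1 := (Nat.div_lt_iff_lt_mul hN).2 h2
    exact h' _ h3 (by omega) h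

private theorem ST3_runs {m : ℕ} {X : ℕ → ℕ} {q : ℕ × ℕ} (h : q ∈ runs m X a b t) :
    q.1 ∈ blk m X a b t ∧ q.2 ∈ blk m X a b t ∧ q.1 ≤ q.2 ∧
      (∀ i, q.1 ≤ i → i ≤ q.2 → i ∉ act m X b t) ∧ True := by
  unfold runs at h
  rw [Finset.mem_filter, Finset.mem_product] at h
  obtain ⟨⟨h1, h2⟩, h3, h4, h5, h6, h7⟩ := h
  exact ⟨h1, h2, h3, fun i hi hi' => h5 i (Finset.mem_Icc.2 ⟨hi, hi'⟩), trivial⟩

private theorem ST3_pot (S : Sys) (hba : b ≤ a) (ht : t < S.m) (s : ℕ) :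
    Pot S a b t s = 8 * Psi S s (S.X t / 2 ^ b * 2 ^ b) ((S.X t / 2 ^ b + 1) * 2 ^ b) +
      8 * ∑ i ∈ (act S.m S.X b t).erase (S.X t / 2 ^ b), Psi S s (i * 2 ^ b) ((i + 1) * 2 ^ b) +
      8 * ∑ q ∈ runs S.m S.X a b t, ∑ p ∈ pcs S.m S.X a b t q,
        ∑ i ∈ Finset.Ico (p.2 * 2 ^ (p.1 - b)) ((p.2 + 1) * 2 ^ (p.1 - b)),
          Psi S s (i * 2 ^ b) ((i + 1) * 2 ^ b) +
      4 * ∑ q ∈ runs S.m S.X a b t, ∑ p ∈ pcs S.m S.X a b t q, ph1 S b s p +
      2 * ∑ q ∈ runs S.m S.X a b t, ph2 S a b t s q := by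
  unfold Pot
  have h1 := Finset.sum_sdiff (f := fun i => Psi S s (i * 2 ^ b) ((i + 1) * 2 ^ b))
    (fun i hi => ST3_act_blk (m := S.m) (X := S.X) (t := t) hba hi)
  have h2 := sum_items (m := S.m) (X := S.X) (t := t) hba
    (fun i => Psi S s (i * 2 ^ b) ((i + 1) * 2 ^ b))
  have h3 := sum_pcs (m := S.m) (X := S.X) (t := t) hba
    (fun p => ∑ i ∈ Finset.Ico (p.2 * 2 ^ (p.1 - b)) ((p.2 + 1) * 2 ^ (p.1 - b)),
      Psi S s (i * 2 ^ b) ((i + 1) * 2 ^ b))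
  have h4 := sum_pcs (m := S.m) (X := S.X) (t := t) hba (ph1 S b s)
  have h5 := Finset.add_sum_erase _ (fun i => Psi S s (i * 2 ^ b) ((i + 1) * 2 ^ b))
    (act_own (m := S.m) (X := S.X) (j := b) ht)
  rw [← h1, h2, h3, h4, ← h5]
  ring

private theorem ST3_exp (S : Sys) (a b t s : ℕ) :
    ∑ q ∈ runs S.m S.X a b t, 2 * (2 * ∑ p ∈ pcs S.m S.X a b t q,
        (2 * ∑ i ∈ Finset.Ico (p.2 * 2 ^ (p.1 - b)) ((p.2 + 1) * 2 ^ (p.1 - b)),
          Psi S s (i * 2 ^ b) ((i + 1) * 2 ^ b) + ph1 S b s p) + ph2 S a b t s q) =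
      8 * ∑ q ∈ runs S.m S.X a b t, ∑ p ∈ pcs S.m S.X a b t q,
        ∑ i ∈ Finset.Ico (p.2 * 2 ^ (p.1 - b)) ((p.2 + 1) * 2 ^ (p.1 - b)),
          Psi S s (i * 2 ^ b) ((i + 1) * 2 ^ b) +
      4 * ∑ q ∈ runs S.m S.X a b t, ∑ p ∈ pcs S.m S.X a b t q, ph1 S b s p +
      2 * ∑ q ∈ runs S.m S.X a b t, ph2 S a b t s q := by
  rw [Finset.mul_sum, Finset.mul_sum, Finset.mul_sum, ← Finset.sum_add_distrib,
    ← Finset.sum_add_distrib]
  apply Finset.sum_congr rfl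
  intro q _
  rw [Finset.sum_add_distrib, ← Finset.mul_sum]
  ring

/-- **Module ST3.**  HINT.  `lvl_le`.  Blocks `i ∈ act b`, `i ≠ X t / 2^b`: `touch` with `base`, `w = 8`: at most 26 + 8 (Psi t - Psi (t+1)).
Runs: `touch` with `st_run`, `w = 2`: 440.  (The request lies outside: all blocks of the run are idle, `act_own`.)  Own block
`X t / 2^b`: `own`.  The sums: `blk = act b ∪ (blk \ act b)` (`act b ⊆ blk`: `act_up`), `sum_items`, `sum_pcs`.  `runs_card`. -/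
theorem step (hT : Thr S) (hT' : Thr S.mir) (hR : Rng S A) (haA : a ≤ A) (hba : b ≤ a)
    (ht : t < S.m) :
    (lvl S a b t).card + Pot S a b t (t + 1) ≤ Pot S a b t t + 96 +
      26 * (act S.m S.X b t).card +
      440 * ((act S.m S.X a t).card + (act S.m S.X b t).card) := by
  have h1 := lvl_le (S := S) hba ht
  have h2 := runs_card (m := S.m) (X := S.X) (a := a) (b := b) (t := t)
  have h3 : ∑ i ∈ (act S.m S.X b t).erase (S.X t / 2 ^ b),
      ((tE S t (i * 2 ^ b) ((i + 1) * 2 ^ b)).card + 8 * Psi S (t + 1) (i * 2 ^ b) ((i + 1) * 2 ^ b)) ≤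
      ∑ i ∈ (act S.m S.X b t).erase (S.X t / 2 ^ b),
        (8 * Psi S t (i * 2 ^ b) ((i + 1) * 2 ^ b) + 26) := by
    apply Finset.sum_le_sum
    intro i hi
    obtain ⟨hi1, hi2⟩ := Finset.mem_erase.1 hi
    obtain ⟨hl, hr⟩ := blk_range hR haA hba (ST3_act_blk hba hi2)
    have h4 := touch hT hT' ht hl hr (w := 8) (by norm_num) (base hT hT' ht hl hr)
      (ST3_out hi1)
    omega
  have h5 : ∑ q ∈ runs S.m S.X a b t,
      ((tE S t (q.1 * 2 ^ b) ((q.2 + 1) * 2 ^ b)).card + 2 * (2 * ∑ p ∈ pcs S.m S.X a b t q,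
        (2 * ∑ i ∈ Finset.Ico (p.2 * 2 ^ (p.1 - b)) ((p.2 + 1) * 2 ^ (p.1 - b)),
          Psi S (t + 1) (i * 2 ^ b) ((i + 1) * 2 ^ b) + ph1 S b (t + 1) p) +
        ph2 S a b t (t + 1) q)) ≤
      ∑ q ∈ runs S.m S.X a b t, (2 * (2 * ∑ p ∈ pcs S.m S.X a b t q,
        (2 * ∑ i ∈ Finset.Ico (p.2 * 2 ^ (p.1 - b)) ((p.2 + 1) * 2 ^ (p.1 - b)),
          Psi S t (i * 2 ^ b) ((i + 1) * 2 ^ b) + ph1 S b t p) + ph2 S a b t t q) + 440) := by
    apply Finset.sum_le_sum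
    intro q hq
    obtain ⟨c1, c2, c3, c4, c5⟩ := ST3_runs hq
    have hl := (blk_range hR haA hba c1).1
    have hr := (blk_range hR haA hba c2).2
    have h6 := touch hT hT' ht hl hr (w := 2) le_rfl (st_run hT hT' hR haA hba ht hq)
      (ST3_run_out (act_own ht) c4)
    omega
  have hown := ST3_own_mem (S.X t) b
  have hob := blk_range hR haA hba (ST3_act_blk hba (act_own (X := S.X) (j := b) ht))
  have h7 := own (S := S) ht hob.1 hob.2 hown
  have h8 := ST3_pot S hba ht t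
  have h9 := ST3_pot S hba ht (t + 1)
  rw [h8, h9]
  rw [Finset.sum_add_distrib, Finset.sum_add_distrib, ← Finset.mul_sum, ← Finset.mul_sum,
    Finset.sum_const, smul_eq_mul] at h3
  rw [Finset.sum_add_distrib, Finset.sum_add_distrib, Finset.sum_const, smul_eq_mul] at h5
  have h10 : ((act S.m S.X b t).erase (S.X t / 2 ^ b)).card ≤ (act S.m S.X b t).card :=
    Finset.card_le_card (Finset.erase_subset _ _)
  have e1 := ST3_exp S a b t t
  have e2 := ST3_exp S a b t (t + 1)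
  rw [e1, e2] at h5
  omega

private theorem RE_mem_itm {m : ℕ} {X : ℕ → ℕ} :
    i ∈ itm m X j t ↔ i / 2 ∈ act m X (j + 1) t ∧ i ∉ act m X j t := by
  unfold itm
  rw [Finset.mem_sdiff, Finset.mem_biUnion]
  constructor
  · rintro ⟨⟨k, hk, h1⟩, h2⟩
    rw [Finset.mem_insert, Finset.mem_singleton] at h1
    have h3 : i / 2 = k := by omega
    exact ⟨h3 ▸ hk, h2⟩
  · rintro ⟨h1, h2⟩
    refine ⟨⟨i / 2, h1, ?_⟩, h2⟩
    rw [Finset.mem_insert, Finset.mem_singleton]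
    omega

private theorem RE_sum_items {m : ℕ} {X : ℕ → ℕ} (f : ℕ × ℕ → ℕ) :
    ∑ p ∈ items m X a b t, f p = ∑ j ∈ Finset.Ico b a, ∑ i ∈ itm m X j t, f (j, i) := by
  unfold items
  rw [Finset.sum_biUnion]
  · apply Finset.sum_congr rfl
    intro j _
    rw [Finset.sum_image]
    intro x _ y _ hxy
    exact (Prod.mk.inj hxy).2
  · intro x _ y _ hxy
    rw [Function.onFun, Finset.disjoint_left]
    intro p h1 h2
    rw [Finset.mem_image] at h1 h2
    obtain ⟨u, _, rfl⟩ := h1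
    obtain ⟨v, _, h3⟩ := h2
    exact hxy (Prod.mk.inj h3).1.symm

private theorem RE_pow (hj : b ≤ j) : 2 ^ (j - b) * 2 ^ b = 2 ^ j := by
  rw [← pow_add]
  congr 1
  omega

private theorem RE_item_range (hR : Rng S A) (haA : a ≤ A) (hba : b ≤ a) {p : ℕ × ℕ}
    (hp : p ∈ items S.m S.X a b t) : 1 ≤ p.2 * 2 ^ p.1 ∧ (p.2 + 1) * 2 ^ p.1 ≤ S.top := by
  obtain ⟨h1, h2, _, _⟩ := mem_items.1 hp
  have h0 : 0 < 2 ^ (p.1 - b) := by positivity
  have h3 : p.2 * 2 ^ (p.1 - b) / 2 ^ (p.1 - b) = p.2 := Nat.mul_div_cancel _ h0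
  have h4 : ((p.2 + 1) * 2 ^ (p.1 - b) - 1) / 2 ^ (p.1 - b) = p.2 := by
    apply Nat.div_eq_of_lt_le
    · rw [Nat.add_mul]
      omega
    · have : 0 < (p.2 + 1) * 2 ^ (p.1 - b) := by positivity
      omega
  have h5 := (blk_range hR haA hba (item_sub hp h3).1).1
  have h6 := (blk_range hR haA hba (item_sub hp h4).1).2
  have h7 : (p.2 + 1) * 2 ^ (p.1 - b) - 1 + 1 = (p.2 + 1) * 2 ^ (p.1 - b) := by
    have : 0 < (p.2 + 1) * 2 ^ (p.1 - b) := by positivity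
    omega
  rw [Nat.mul_assoc, RE_pow h1] at h5
  rw [h7, Nat.mul_assoc, RE_pow h1] at h6
  exact ⟨h5, h6⟩

private theorem RE_run_range (hR : Rng S A) (haA : a ≤ A) (hba : b ≤ a) {q : ℕ × ℕ}
    (hq : q ∈ runs S.m S.X a b t) : 1 ≤ q.1 * 2 ^ b ∧ (q.2 + 1) * 2 ^ b ≤ S.top := by
  unfold runs at hq
  rw [Finset.mem_filter, Finset.mem_product] at hq
  exact ⟨(blk_range hR haA hba hq.1.1).1, (blk_range hR haA hba hq.1.2).2⟩

/-- **Module RE1.**  HINT.  `Psi ≤ 4 * 2^b` (`Psi_le`), `ph1 ≤ 756 * 2^(p.1-b)` and `ph2 ≤ 48180 * (pcs q).card` (`cp_le` with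
`cut_item`, `cut_run`; range by `blk_range`), `sum_pcs` with `g = 1`, `blk_card`, `itm_card`; items = disjoint union over the scales. -/
theorem pot_size (hR : Rng S A) (haA : a ≤ A) (hba : b ≤ a) (hs : s ≤ S.m) :
    8 * ∑ i ∈ blk S.m S.X a b t, Psi S s (i * 2 ^ b) ((i + 1) * 2 ^ b) ≤
        32 * 2 ^ a * (act S.m S.X a t).card ∧
      (∀ j, b ≤ j → j < a → 4 * ∑ i ∈ itm S.m S.X j t, ph1 S b s (j, i) ≤
        6048 * 2 ^ (j - b) * (act S.m S.X (j + 1) t).card) ∧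
      2 * ∑ q ∈ runs S.m S.X a b t, ph2 S a b t s q ≤
        192720 * ∑ j ∈ Finset.Ico b a, (act S.m S.X (j + 1) t).card := by
  refine ⟨?_, ?_, ?_⟩
  · have h1 : ∑ i ∈ blk S.m S.X a b t, Psi S s (i * 2 ^ b) ((i + 1) * 2 ^ b) ≤
        (blk S.m S.X a b t).card * (4 * 2 ^ b) := by
      rw [← smul_eq_mul, ← Finset.sum_const]
      apply Finset.sum_le_sum
      intro i _
      have h2 := Psi_le (S := S) (t := s) (l := i * 2 ^ b) (r := (i + 1) * 2 ^ b) hs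
      have h3 : (i + 1) * 2 ^ b - i * 2 ^ b = 2 ^ b := by
        rw [Nat.add_mul]
        omega
      rw [h3] at h2
      exact h2
    have h2 := blk_card (m := S.m) (X := S.X) (a := a) (b := b) (t := t)
    calc 8 * ∑ i ∈ blk S.m S.X a b t, Psi S s (i * 2 ^ b) ((i + 1) * 2 ^ b)
        ≤ 8 * ((2 ^ (a - b) * (act S.m S.X a t).card) * (4 * 2 ^ b)) :=
          Nat.mul_le_mul_left _ (h1.trans (Nat.mul_le_mul_right _ h2))
      _ = 32 * (2 ^ (a - b) * 2 ^ b) * (act S.m S.X a t).card := by ring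
      _ = 32 * 2 ^ a * (act S.m S.X a t).card := by rw [RE_pow hba]
  · intro j hj1 hj2
    have h1 : ∑ i ∈ itm S.m S.X j t, ph1 S b s (j, i) ≤
        (itm S.m S.X j t).card * (756 * 2 ^ (j - b)) := by
      rw [← smul_eq_mul, ← Finset.sum_const]
      apply Finset.sum_le_sum
      intro i hi
      obtain ⟨h2, h3⟩ := RE_mem_itm.1 hi
      have hp : (j, i) ∈ items S.m S.X a b t := mem_items.2 ⟨hj1, hj2, h2, h3⟩
      obtain ⟨h4, h5⟩ := RE_item_range hR haA hba hp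
      have h6 := cp_le (S := S) (t := s) hs h4 h5 (cut_item (p := (j, i)) hj1) 3
      rw [Nat.card_Ico] at h6
      have h7 : ((j, i) : ℕ × ℕ).2 * 2 ^ (((j, i) : ℕ × ℕ).1 - b) = i * 2 ^ (j - b) := rfl
      have h8 : (((j, i) : ℕ × ℕ).2 + 1) * 2 ^ (((j, i) : ℕ × ℕ).1 - b) -
          ((j, i) : ℕ × ℕ).2 * 2 ^ (((j, i) : ℕ × ℕ).1 - b) = 2 ^ (j - b) := by
        show (i + 1) * 2 ^ (j - b) - i * 2 ^ (j - b) = 2 ^ (j - b)
        rw [Nat.add_mul]
        omega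
      rw [h8] at h6
      exact h6
    have h2 := itm_card (m := S.m) (X := S.X) (j := j) (t := t)
    calc 4 * ∑ i ∈ itm S.m S.X j t, ph1 S b s (j, i)
        ≤ 4 * ((2 * (act S.m S.X (j + 1) t).card) * (756 * 2 ^ (j - b))) :=
          Nat.mul_le_mul_left _ (h1.trans (Nat.mul_le_mul_right _ h2))
      _ = 6048 * 2 ^ (j - b) * (act S.m S.X (j + 1) t).card := by ring
  · have h1 : ∑ q ∈ runs S.m S.X a b t, ph2 S a b t s q ≤
        ∑ q ∈ runs S.m S.X a b t, ∑ p ∈ pcs S.m S.X a b t q, 48180 := by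
      apply Finset.sum_le_sum
      intro q hq
      obtain ⟨h4, h5⟩ := RE_run_range hR haA hba hq
      have h6 := cp_le (S := S) (t := s) hs h4 h5 (cut_run hba hq) 27
      rw [Finset.sum_const, smul_eq_mul, Nat.mul_comm]
      exact h6
    rw [← sum_pcs hba (fun _ => 48180), RE_sum_items] at h1
    have h2 : ∑ j ∈ Finset.Ico b a, ∑ i ∈ itm S.m S.X j t, 48180 ≤
        ∑ j ∈ Finset.Ico b a, 96360 * (act S.m S.X (j + 1) t).card := by
      apply Finset.sum_le_sum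
      intro j _
      rw [Finset.sum_const, smul_eq_mul]
      have h3 := itm_card (m := S.m) (X := S.X) (j := j) (t := t)
      omega
    rw [← Finset.mul_sum] at h2
    omega

/-- **Module RE2.**  HINT.  Three parts.  Blocks: if `2^a ∤ t+1` then `blk (t+1) = blk t` (`act_succ`), otherwise `pot_size`.  Items: the sum
over `items` is the sum over the scales `j` of the sum over `itm j`; if `2^j ∤ t+1` then `itm_succ`, otherwise `pot_size`.  Runs: if
`2^b ∤ t+1` then nothing changes for all scales `≥ b` (`runs`, `pcs`, `ph2`), otherwise `pot_size`. -/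
theorem reinit (hR : Rng S A) (haA : a ≤ A) (hba : b ≤ a) (ht : t + 1 ≤ S.m) :
    Pot S a b (t + 1) (t + 1) ≤ Pot S a b t (t + 1) + rei S.m S.X a b (t + 1) := by
  obtain ⟨g1, g2, g3⟩ := pot_size (S := S) (A := A) (a := a) (b := b) (s := t + 1) (t := t + 1)
    hR haA hba ht
  have e1 : 8 * ∑ i ∈ blk S.m S.X a b (t + 1), Psi S (t + 1) (i * 2 ^ b) ((i + 1) * 2 ^ b) ≤
      8 * ∑ i ∈ blk S.m S.X a b t, Psi S (t + 1) (i * 2 ^ b) ((i + 1) * 2 ^ b) +
      (if 2 ^ a ∣ t + 1 then 32 * 2 ^ a * (act S.m S.X a (t + 1)).card else 0) := by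
    split_ifs with h
    · omega
    · have h1 : blk S.m S.X a b (t + 1) = blk S.m S.X a b t := by
        unfold blk
        rw [act_succ h]
      rw [h1]
      omega
  have e2 : 4 * ∑ p ∈ items S.m S.X a b (t + 1), ph1 S b (t + 1) p ≤
      4 * ∑ p ∈ items S.m S.X a b t, ph1 S b (t + 1) p +
      ∑ j ∈ Finset.Ico b a, (if 2 ^ j ∣ t + 1 then
        6048 * 2 ^ (j - b) * (act S.m S.X (j + 1) (t + 1)).card else 0) := by
    rw [RE_sum_items, RE_sum_items, Finset.mul_sum, Finset.mul_sum, ← Finset.sum_add_distrib]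
    apply Finset.sum_le_sum
    intro j hj
    rw [Finset.mem_Ico] at hj
    split_ifs with h
    · have := g2 j hj.1 hj.2
      omega
    · rw [itm_succ h]
      omega
  have e3 : 2 * ∑ q ∈ runs S.m S.X a b (t + 1), ph2 S a b (t + 1) (t + 1) q ≤
      2 * ∑ q ∈ runs S.m S.X a b t, ph2 S a b t (t + 1) q +
      (if 2 ^ b ∣ t + 1 then
        192720 * ∑ j ∈ Finset.Ico b a, (act S.m S.X (j + 1) (t + 1)).card else 0) := by
    split_ifs with h
    · omega
    · have h0 : ∀ j, b ≤ j → ¬ 2 ^ j ∣ t + 1 :=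
        fun j hj hd => h ((pow_dvd_pow 2 hj).trans hd)
      have h1 : blk S.m S.X a b (t + 1) = blk S.m S.X a b t := by
        unfold blk
        rw [act_succ (h0 a hba)]
      have h2 : act S.m S.X b (t + 1) = act S.m S.X b t := act_succ h
      have h3 : runs S.m S.X a b (t + 1) = runs S.m S.X a b t := by
        unfold runs
        rw [h1, h2]
      have h4 : items S.m S.X a b (t + 1) = items S.m S.X a b t := by
        unfold items
        apply Finset.biUnion_congr rfl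
        intro j hj
        rw [Finset.mem_Ico] at hj
        rw [itm_succ (h0 j hj.1)]
      have h5 : ∀ q, pcs S.m S.X a b (t + 1) q = pcs S.m S.X a b t q := by
        intro q
        unfold pcs
        rw [h4]
      have h6 : ∀ q, ph2 S a b (t + 1) (t + 1) q = ph2 S a b t (t + 1) q := by
        intro q
        unfold ph2
        rw [h5]
      rw [h3]
      simp only [h6]
      omega
  unfold Pot rei
  omega

/-- **Module RE2.** -/
theorem pot_zero (hR : Rng S A) (haA : a ≤ A) (hba : b ≤ a) :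
    Pot S a b 0 0 ≤ rei S.m S.X a b 0 := by
  obtain ⟨g1, g2, g3⟩ := pot_size (S := S) (A := A) (a := a) (b := b) (s := 0) (t := 0)
    hR haA hba (Nat.zero_le _)
  have e2 : 4 * ∑ p ∈ items S.m S.X a b 0, ph1 S b 0 p ≤
      ∑ j ∈ Finset.Ico b a, (if 2 ^ j ∣ 0 then
        6048 * 2 ^ (j - b) * (act S.m S.X (j + 1) 0).card else 0) := by
    rw [RE_sum_items, Finset.mul_sum]
    apply Finset.sum_le_sum
    intro j hj
    rw [Finset.mem_Ico] at hj
    rw [if_pos (dvd_zero _)]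
    exact g2 j hj.1 hj.2
  unfold Pot rei
  rw [if_pos (dvd_zero _), if_pos (dvd_zero _)]
  omega

end Pool.Agent.SplLs
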